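import Pool.Agent.T6.H86.DA.Ser

/-!
# The modular transformation
-/

set_option autoImplicit false

namespace Pool.Agent.T6.H86.DA

open scoped ArithmeticFunction.sigma Real MatrixGroups ModularForm
open Complex UpperHalfPlane EisensteinSeries ModularGroup

/-- the point of the upper half plane with `exp (2 π i z) = exp (-s)` -/
noncomputable def pt (s : ℂ) (hs : 0 < s.re) : ℍ :=
  ⟨Complex.I * s / (2 * π), by
    have : (Complex.I * s / (2 * π)).im = s.re / (2 * π) := by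
      have h : Complex.I * s / (2 * π) = ((1 / (2 * π) : ℝ) : ℂ) * (Complex.I * s) := by
        push_cast; field_simp
      rw [h, Complex.im_ofReal_mul]
      simp
      ring
    rw [this]
    positivity⟩

lemma pt_coe (s : ℂ) (hs : 0 < s.re) : ((pt s hs : ℍ) : ℂ) = Complex.I * s / (2 * π) := rfl

lemma E2_pt (s : ℂ) (hs : 0 < s.re) : E2 (pt s hs) = 1 - 24 * S 0 s := by
  rw [E2_eq_tsum_cexp]
  congr 2
  rw [tsum_pnat_eq_tsum_succ (f := fun n : ℕ => ((σ 1 n : ℕ) : ℂ) *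
    cexp (2 * π * Complex.I * (pt s hs : ℂ)) ^ n)]
  rw [S]
  refine tsum_congr fun m => ?_
  rw [pow_zero, mul_one, pt_coe, ← Complex.exp_nat_mul]
  congr 2
  push_cast
  have hpi : (π : ℂ) ≠ 0 := by exact_mod_cast Real.pi_ne_zero
  field_simp
  rw [show (Complex.I ^ 2 : ℂ) = -1 from Complex.I_sq]
  ring

/-- `W s = 4 π² / s` -/
noncomputable def W (s : ℂ) : ℂ := 4 * π ^ 2 / s

lemma W_re (s : ℂ) : (W s).re = 4 * π ^ 2 * s.re / normSq s := by
  have h : W s = ((4 * π ^ 2 : ℝ) : ℂ) * s⁻¹ := by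
    rw [W]; push_cast; rw [div_eq_mul_inv]
  rw [h, Complex.re_ofReal_mul, Complex.inv_re]
  ring

lemma W_re_pos {s : ℂ} (hs : 0 < s.re) : 0 < (W s).re := by
  rw [W_re]
  have : 0 < normSq s := by
    rw [Complex.normSq_pos]
    intro h
    rw [h] at hs
    simp at hs
  positivity

lemma ne_zero_of_re {s : ℂ} (hs : 0 < s.re) : s ≠ 0 := by
  intro h
  rw [h] at hs
  simp at hs

lemma E2_S (z : ℍ) : E2 (ModularGroup.S • z) = (z : ℂ) ^ 2 * E2 z - 6 * Complex.I * z / π := by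
  have h := congrFun (E2_slash_action ModularGroup.S) z
  rw [ModularForm.SL_slash_apply] at h
  simp only [Pi.sub_apply, Pi.smul_apply, smul_eq_mul] at h
  rw [D2_S, riemannZeta_two] at h
  have hd : denom (ModularGroup.S : SL(2, ℤ)) z = z := by
    rw [ModularGroup.denom_apply]
    simp [ModularGroup.S]
  have hz : (z : ℂ) ≠ 0 := z.ne_zero
  have hpi : (π : ℂ) ≠ 0 := by exact_mod_cast Real.pi_ne_zero
  rw [hd] at h
  have h2 : E2 (ModularGroup.S • z) * (z : ℂ) ^ (-(2 : ℤ)) * (z : ℂ) ^ 2 =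
      (E2 z - 1 / (2 * ((π : ℂ) ^ 2 / 6)) * (2 * π * Complex.I / z)) * (z : ℂ) ^ 2 := by
    rw [h]
  have e1 : (z : ℂ) ^ (-(2 : ℤ)) * (z : ℂ) ^ 2 = 1 := by
    rw [zpow_neg, zpow_ofNat, inv_mul_cancel₀ (pow_ne_zero 2 hz)]
  rw [mul_assoc, e1, mul_one] at h2
  rw [h2]
  field_simp

theorem S0_modular {s : ℂ} (hs : 0 < s.re) :
    S 0 s = π ^ 2 / (6 * s ^ 2) - 1 / (2 * s) + 1 / 24 - 4 * π ^ 2 / s ^ 2 * S 0 (W s) := by
  have hs0 := ne_zero_of_re hs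
  have hpi : (π : ℂ) ≠ 0 := by exact_mod_cast Real.pi_ne_zero
  have hS : ModularGroup.S • pt s hs = pt (W s) (W_re_pos hs) := by
    rw [modular_S_smul]
    ext1
    rw [UpperHalfPlane.coe_mk, pt_coe, pt_coe, W]
    field_simp
    rw [show (Complex.I ^ 2 : ℂ) = -1 from Complex.I_sq]
    ring
  have h := E2_S (pt s hs)
  rw [hS, E2_pt, E2_pt, pt_coe] at h
  have e : (Complex.I * s / (2 * π)) ^ 2 = - (s ^ 2 / (4 * π ^ 2)) := by
    rw [div_pow, mul_pow, Complex.I_sq]; field_simp; ring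
  have e2 : 6 * Complex.I * (Complex.I * s / (2 * π)) / π = - (3 * s / π ^ 2) := by
    have : Complex.I * Complex.I = -1 := Complex.I_mul_I
    field_simp
    rw [show (Complex.I ^ 2 : ℂ) = -1 from Complex.I_sq]
    ring
  rw [e, e2] at h
  have h3 : S 0 (W s) = (1 + (s ^ 2 / (4 * π ^ 2)) * (1 - 24 * S 0 s) - 3 * s / π ^ 2) / 24 := by
    linear_combination (-1 / 24 : ℂ) * h
  rw [h3]
  field_simp
  ring

lemma hasDerivAt_W {s : ℂ} (hs : s ≠ 0) : HasDerivAt W (-(4 * π ^ 2 / s ^ 2)) s := by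
  have h := (hasDerivAt_inv hs).const_mul (4 * (π : ℂ) ^ 2)
  have e : W = fun z : ℂ => 4 * (π : ℂ) ^ 2 * z⁻¹ := by
    funext z; rw [W, div_eq_mul_inv]
  rw [e]
  exact h.congr_deriv (by rw [div_eq_mul_inv, mul_neg])

lemma eventually_re {s : ℂ} (hs : 0 < s.re) : ∀ᶠ z : ℂ in nhds s, 0 < z.re :=
  (isOpen_lt continuous_const Complex.continuous_re).mem_nhds hs

lemma hasDerivAt_S_W (j : ℕ) {s : ℂ} (hs : 0 < s.re) :
    HasDerivAt (fun z => S j (W z)) (S (j + 1) (W s) * (4 * π ^ 2 / s ^ 2)) s := by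
  have h := (hasDerivAt_S j (W_re_pos hs)).comp s (hasDerivAt_W (ne_zero_of_re hs))
  exact h.congr_deriv (by ring)

lemma hasDerivAt_pow_inv (c : ℂ) (k : ℕ) {s : ℂ} (hs : s ≠ 0) :
    HasDerivAt (fun z : ℂ => c / z ^ (k + 1)) (-((k + 1) * c / s ^ (k + 2))) s := by
  have h := ((hasDerivAt_pow (k + 1) s).inv (pow_ne_zero (k + 1) hs)).const_mul c
  have e : (fun z : ℂ => c / z ^ (k + 1)) = fun z : ℂ => c * (z ^ (k + 1))⁻¹ := by
    funext z; rw [div_eq_mul_inv]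
  rw [e]
  refine h.congr_deriv ?_
  push_cast
  field_simp
  ring

theorem S1_modular {s : ℂ} (hs : 0 < s.re) :
    S 1 s = π ^ 2 / (3 * s ^ 3) - 1 / (2 * s ^ 2) - 8 * π ^ 2 / s ^ 3 * S 0 (W s) +
      16 * π ^ 4 / s ^ 4 * S 1 (W s) := by
  have hs0 := ne_zero_of_re hs
  have h1 := hasDerivAt_S 0 hs
  have h2 : HasDerivAt (fun z : ℂ => (π ^ 2 / 6) / z ^ (1 + 1) - (1 / 2) / z ^ (0 + 1) + 1 / 24 -
      (4 * π ^ 2) / z ^ (1 + 1) * S 0 (W z))
      (-(((1 : ℕ) + 1) * (π ^ 2 / 6) / s ^ (1 + 2)) - (-(((0 : ℕ) + 1) * (1 / 2) / s ^ (0 + 2))) -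
      ((-(((1 : ℕ) + 1) * (4 * π ^ 2) / s ^ (1 + 2))) * S 0 (W s) +
        (4 * π ^ 2) / s ^ (1 + 1) * (S (0 + 1) (W s) * (4 * π ^ 2 / s ^ 2)))) s :=
    (((hasDerivAt_pow_inv _ 1 hs0).sub (hasDerivAt_pow_inv _ 0 hs0)).add_const (1 / 24)).sub
      ((hasDerivAt_pow_inv _ 1 hs0).mul (hasDerivAt_S_W 0 hs))
  have h3 : (fun z : ℂ => (π ^ 2 / 6) / z ^ (1 + 1) - (1 / 2) / z ^ (0 + 1) + 1 / 24 -
      (4 * π ^ 2) / z ^ (1 + 1) * S 0 (W z)) =ᶠ[nhds s] S 0 := by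
    filter_upwards [eventually_re hs] with z hz
    have hz0 := ne_zero_of_re hz
    rw [S0_modular hz, zero_add, pow_one, one_add_one_eq_two]
    field_simp
  have h4 := h1.unique (h2.congr_of_eventuallyEq h3.symm)
  have h5 : S 1 s = -(-(S (0 + 1) s)) := by rw [neg_neg]
  rw [h5, h4]
  push_cast
  field_simp
  ring

theorem S2_modular {s : ℂ} (hs : 0 < s.re) :
    S 2 s = π ^ 2 / s ^ 4 - 1 / s ^ 3 - 24 * π ^ 2 / s ^ 4 * S 0 (W s) +
      96 * π ^ 4 / s ^ 5 * S 1 (W s) - 64 * π ^ 6 / s ^ 6 * S 2 (W s) := by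
  have hs0 := ne_zero_of_re hs
  have h1 := hasDerivAt_S 1 hs
  have h2 : HasDerivAt (fun z : ℂ => (π ^ 2 / 3) / z ^ (2 + 1) - (1 / 2) / z ^ (1 + 1) -
      (8 * π ^ 2) / z ^ (2 + 1) * S 0 (W z) + (16 * π ^ 4) / z ^ (3 + 1) * S 1 (W z))
      (-(((2 : ℕ) + 1) * (π ^ 2 / 3) / s ^ (2 + 2)) - (-(((1 : ℕ) + 1) * (1 / 2) / s ^ (1 + 2))) -
      ((-(((2 : ℕ) + 1) * (8 * π ^ 2) / s ^ (2 + 2))) * S 0 (W s) +
        (8 * π ^ 2) / s ^ (2 + 1) * (S (0 + 1) (W s) * (4 * π ^ 2 / s ^ 2))) +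
      ((-(((3 : ℕ) + 1) * (16 * π ^ 4) / s ^ (3 + 2))) * S 1 (W s) +
        (16 * π ^ 4) / s ^ (3 + 1) * (S (1 + 1) (W s) * (4 * π ^ 2 / s ^ 2)))) s :=
    (((hasDerivAt_pow_inv _ 2 hs0).sub (hasDerivAt_pow_inv _ 1 hs0)).sub
      ((hasDerivAt_pow_inv _ 2 hs0).mul (hasDerivAt_S_W 0 hs))).add
      ((hasDerivAt_pow_inv _ 3 hs0).mul (hasDerivAt_S_W 1 hs))
  have h3 : (fun z : ℂ => (π ^ 2 / 3) / z ^ (2 + 1) - (1 / 2) / z ^ (1 + 1) -
      (8 * π ^ 2) / z ^ (2 + 1) * S 0 (W z) + (16 * π ^ 4) / z ^ (3 + 1) * S 1 (W z))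
      =ᶠ[nhds s] S 1 := by
    filter_upwards [eventually_re hs] with z hz
    have hz0 := ne_zero_of_re hz
    rw [S1_modular hz, show 2 + 1 = 3 from rfl, show 1 + 1 = 2 from rfl, show 3 + 1 = 4 from rfl]
    field_simp
  have h4 := h1.unique (h2.congr_of_eventuallyEq h3.symm)
  have h5 : S 2 s = -(-(S (1 + 1) s)) := by rw [neg_neg]
  rw [h5, h4]
  push_cast
  field_simp
  ring

theorem g_modular {s : ℂ} (hs : 0 < s.re) :
    g s = π ^ 2 / (6 * s) + 1 / 2 * Complex.log s - s / 24 + g (W s) -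
      ((1 / 2 * Real.log (2 * π) : ℝ) : ℂ) := by
  have hpi : (π : ℂ) ≠ 0 := by exact_mod_cast Real.pi_ne_zero
  have hop : IsOpen {z : ℂ | 0 < z.re} := isOpen_lt continuous_const Complex.continuous_re
  have hpc : IsPreconnected {z : ℂ | 0 < z.re} := (convex_halfSpace_re_gt 0).isPreconnected
  have hd : ∀ z : ℂ, 0 < z.re → HasDerivAt (fun z : ℂ => g z -
      ((π ^ 2 / 6) / z ^ (0 + 1) + 1 / 2 * Complex.log z - z / 24 + g (W z))) 0 z := by
    intro z hz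
    have hz0 := ne_zero_of_re hz
    have h1 := hasDerivAt_g hz
    have h2 := hasDerivAt_pow_inv (π ^ 2 / 6) 0 hz0
    have h3 := (Complex.hasDerivAt_log (Or.inl hz)).const_mul (1 / 2 : ℂ)
    have h4 := (hasDerivAt_id z).div_const (24 : ℂ)
    have h5 := (hasDerivAt_g (W_re_pos hz)).comp z (hasDerivAt_W hz0)
    have h6 := h1.sub (((h2.add h3).sub h4).add h5)
    refine h6.congr_deriv ?_
    rw [S0_modular hz]
    push_cast
    field_simp
    ring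
  have hc : ∀ z : ℂ, 0 < z.re → (g z -
      ((π ^ 2 / 6) / z ^ (0 + 1) + 1 / 2 * Complex.log z - z / 24 + g (W z))) =
      (g (2 * π) - ((π ^ 2 / 6) / (2 * π) ^ (0 + 1) + 1 / 2 * Complex.log (2 * π) - (2 * π) / 24 +
        g (W (2 * π)))) := by
    intro z hz
    have h0 : (0 : ℝ) < (2 * (π : ℂ)).re := by
      have : (2 * (π : ℂ)).re = 2 * π := by
        rw [show (2 * (π : ℂ)) = ((2 * π : ℝ) : ℂ) by push_cast; ring, Complex.ofReal_re]
      rw [this]; positivity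
    have := hop.is_const_of_deriv_eq_zero hpc
      (fun w hw => (hd w hw).differentiableAt.differentiableWithinAt)
      (fun w hw => (hd w hw).deriv) hz h0
    exact this
  have h := hc s hs
  have hW : W (2 * π) = 2 * π := by rw [W]; field_simp; ring
  rw [hW] at h
  have hlog : Complex.log (2 * π) = ((Real.log (2 * π) : ℝ) : ℂ) := by
    rw [show (2 * (π : ℂ)) = ((2 * π : ℝ) : ℂ) by push_cast; ring,
      Complex.ofReal_log (by positivity)]
  rw [hlog] at h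
  have hs0 := ne_zero_of_re hs
  push_cast at h ⊢
  have h7 : (π : ℂ) ^ 2 / 6 / (2 * π) ^ (0 + 1) = 2 * π / 24 := by
    field_simp
    ring
  rw [h7] at h
  have h8 : (π : ℂ) ^ 2 / 6 / s ^ (0 + 1) = π ^ 2 / (6 * s) := by
    rw [zero_add, pow_one, div_div]
  rw [h8] at h
  linear_combination h

end Pool.Agent.T6.H86.DA
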