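import Pool.Agent.T6.H86.DA.Mod

/-!
# Bounds for the series at points with large real part
-/

set_option autoImplicit false

namespace Pool.Agent.T6.H86.DA

open scoped ArithmeticFunction.sigma Real
open Complex

lemma pow_le_two_pow (K m : ℕ) : ((m : ℝ) + 1) ^ K ≤ ((2 : ℝ) ^ K) ^ m := by
  have h : (m : ℝ) + 1 ≤ 2 ^ m := by
    exact_mod_cast Nat.lt_two_pow_self (n := m)
  calc ((m : ℝ) + 1) ^ K ≤ ((2 : ℝ) ^ m) ^ K := by gcongr
    _ = ((2 : ℝ) ^ K) ^ m := by rw [← pow_mul, ← pow_mul, mul_comm]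

/-- bound for `S j` -/
lemma norm_S_bound (j : ℕ) {s : ℂ} (hs : 0 < s.re) (h : (2 : ℝ) ^ (j + 2) * Real.exp (-s.re) < 1) :
    ‖S j s‖ ≤ Real.exp (-s.re) / (1 - 2 ^ (j + 2) * Real.exp (-s.re)) := by
  refine (norm_S_le j hs).trans ?_
  set x := s.re with hx
  set r : ℝ := 2 ^ (j + 2) * Real.exp (-x) with hr
  have hr0 : 0 ≤ r := by positivity
  have hsum : HasSum (fun m : ℕ => Real.exp (-x) * r ^ m) (Real.exp (-x) * (1 - r)⁻¹) :=
    (hasSum_geometric_of_lt_one hr0 h).mul_left _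
  have hterm : ∀ m : ℕ, ((σ 1 (m + 1) : ℕ) : ℝ) * ((m : ℝ) + 1) ^ j *
      Real.exp (-((m : ℝ) + 1) * x) ≤ Real.exp (-x) * r ^ m := by
    intro m
    have h1 : ((σ 1 (m + 1) : ℕ) : ℝ) ≤ ((m : ℝ) + 1) ^ 2 := by
      have := sigma_le (m + 1)
      exact_mod_cast this
    have h2 : Real.exp (-((m : ℝ) + 1) * x) = Real.exp (-x) * Real.exp (-x) ^ m := by
      rw [← Real.exp_nat_mul, ← Real.exp_add]; ring_nf
    have h3 := pow_le_two_pow (j + 2) m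
    calc ((σ 1 (m + 1) : ℕ) : ℝ) * ((m : ℝ) + 1) ^ j * Real.exp (-((m : ℝ) + 1) * x)
        ≤ ((m : ℝ) + 1) ^ 2 * ((m : ℝ) + 1) ^ j * (Real.exp (-x) * Real.exp (-x) ^ m) := by
          rw [h2]; gcongr
      _ = ((m : ℝ) + 1) ^ (j + 2) * (Real.exp (-x) * Real.exp (-x) ^ m) := by ring
      _ ≤ ((2 : ℝ) ^ (j + 2)) ^ m * (Real.exp (-x) * Real.exp (-x) ^ m) := by gcongr
      _ = Real.exp (-x) * r ^ m := by rw [hr, mul_pow]; ring
  have hsm : Summable fun m : ℕ => ((σ 1 (m + 1) : ℕ) : ℝ) * ((m : ℝ) + 1) ^ j *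
      Real.exp (-((m : ℝ) + 1) * x) :=
    Summable.of_nonneg_of_le (fun m => by positivity) hterm hsum.summable
  calc _ ≤ ∑' m : ℕ, Real.exp (-x) * r ^ m := hsm.tsum_le_tsum hterm hsum.summable
    _ = Real.exp (-x) * (1 - r)⁻¹ := hsum.tsum_eq
    _ = _ := by rw [div_eq_mul_inv]

/-- bound for `g` -/
lemma norm_g_bound {s : ℂ} (hs : 0 < s.re) (h : (4 : ℝ) * Real.exp (-s.re) < 1) :
    ‖g s‖ ≤ Real.exp (-s.re) / (1 - 4 * Real.exp (-s.re)) := by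
  set x := s.re with hx
  set r : ℝ := 4 * Real.exp (-x) with hr
  have hr0 : 0 ≤ r := by positivity
  have hsum : HasSum (fun m : ℕ => Real.exp (-x) * r ^ m) (Real.exp (-x) * (1 - r)⁻¹) :=
    (hasSum_geometric_of_lt_one hr0 h).mul_left _
  have hterm : ∀ m : ℕ, ‖((σ 1 (m + 1) : ℕ) : ℂ) / ((m : ℂ) + 1) *
      exp (-((m : ℂ) + 1) * s)‖ ≤ Real.exp (-x) * r ^ m := by
    intro m
    rw [norm_mul, norm_exp_term]
    have h2 : Real.exp (-((m : ℝ) + 1) * s.re) = Real.exp (-x) * Real.exp (-x) ^ m := by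
      rw [← Real.exp_nat_mul, ← Real.exp_add, ← hx]; ring_nf
    have h3 := pow_le_two_pow 2 m
    have h4 := coef_bound_g m
    calc _ ≤ ((m : ℝ) + 1) ^ 2 * (Real.exp (-x) * Real.exp (-x) ^ m) := by
          rw [h2]; gcongr
      _ ≤ ((2 : ℝ) ^ 2) ^ m * (Real.exp (-x) * Real.exp (-x) ^ m) := by gcongr
      _ = Real.exp (-x) * r ^ m := by rw [hr, mul_pow]; norm_num; ring
  have h5 := tsum_of_norm_bounded hsum hterm
  rw [div_eq_mul_inv]
  exact h5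

end Pool.Agent.T6.H86.DA
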