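import Mathlib

/-!
Module M9 of the D'Arcais project: an abstract Laplace estimate.
-/

namespace Pool.Agent.T6.H86.DA

open MeasureTheory Set

/-- `|e^z - e^w| ≤ |z - w| e^c` if both real parts are at most `c`. -/
theorem norm_exp_sub_exp_le' {z w : ℂ} {c : ℝ} (hz : z.re ≤ c) (hw : w.re ≤ c) :
    ‖Complex.exp z - Complex.exp w‖ ≤ Real.exp c * ‖z - w‖ := by
  have hconv : Convex ℝ {x : ℂ | x.re ≤ c} := convex_halfSpace_re_le c
  refine hconv.norm_image_sub_le_of_norm_deriv_le (f := Complex.exp) (fun x _ => ?_) (fun x hx => ?_)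
    hw hz
  · exact Complex.differentiable_exp x
  · rw [Complex.deriv_exp, Complex.norm_exp]
    exact Real.exp_le_exp.2 hx

theorem integral_cube_gauss {κ a : ℝ} (hκ : 0 < κ) (ha : 0 ≤ a) :
    ∫ u in (-a)..a, |u| ^ 3 * Real.exp (-κ * u ^ 2) ≤ 1 / κ ^ 2 := by
  have hc : Continuous fun u : ℝ => |u| ^ 3 * Real.exp (-κ * u ^ 2) := by fun_prop
  have hsplit : ∫ u in (-a)..a, |u| ^ 3 * Real.exp (-κ * u ^ 2)
      = (∫ u in (-a)..0, |u| ^ 3 * Real.exp (-κ * u ^ 2))
        + ∫ u in (0)..a, |u| ^ 3 * Real.exp (-κ * u ^ 2) :=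
    (intervalIntegral.integral_add_adjacent_intervals (hc.intervalIntegrable _ _)
      (hc.intervalIntegrable _ _)).symm
  have hneg : ∫ u in (-a)..0, |u| ^ 3 * Real.exp (-κ * u ^ 2)
      = ∫ u in (0)..a, |u| ^ 3 * Real.exp (-κ * u ^ 2) := by
    have := intervalIntegral.integral_comp_neg (a := 0) (b := a)
      (fun u : ℝ => |u| ^ 3 * Real.exp (-κ * u ^ 2))
    simp only [neg_zero, abs_neg, even_two, Even.neg_pow] at this
    exact this.symm
  have hpos : ∫ u in (0)..a, |u| ^ 3 * Real.exp (-κ * u ^ 2)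
      = ∫ u in (0)..a, u ^ 3 * Real.exp (-κ * u ^ 2) := by
    refine intervalIntegral.integral_congr (fun u hu => ?_)
    rw [uIcc_of_le ha] at hu
    simp only [abs_of_nonneg hu.1]
  have hval : ∫ u in (0)..a, u ^ 3 * Real.exp (-κ * u ^ 2)
      = (-(κ * a ^ 2 + 1) / (2 * κ ^ 2) * Real.exp (-κ * a ^ 2))
        - (-(κ * 0 ^ 2 + 1) / (2 * κ ^ 2) * Real.exp (-κ * 0 ^ 2)) := by
    refine intervalIntegral.integral_eq_sub_of_hasDerivAt (f := fun u : ℝ =>
      -(κ * u ^ 2 + 1) / (2 * κ ^ 2) * Real.exp (-κ * u ^ 2)) (fun x _ => ?_) ?_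
    · have h1 : HasDerivAt (fun u : ℝ => -(κ * u ^ 2 + 1) / (2 * κ ^ 2))
          (-(κ * (2 * x)) / (2 * κ ^ 2)) x := by
        have := (((hasDerivAt_pow 2 x).const_mul κ).add_const 1).neg.div_const (2 * κ ^ 2)
        exact this.congr_deriv (by simp)
      have h2 : HasDerivAt (fun u : ℝ => Real.exp (-κ * u ^ 2))
          (Real.exp (-κ * x ^ 2) * (-κ * (2 * x))) x := by
        have := ((hasDerivAt_pow 2 x).const_mul (-κ)).exp
        exact this.congr_deriv (by simp)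
      have := h1.mul h2
      refine this.congr_deriv ?_
      field_simp
      ring
    · exact Continuous.intervalIntegrable (by fun_prop) _ _
  rw [hsplit, hneg, hpos, hval]
  have he : 0 ≤ (κ * a ^ 2 + 1) / (2 * κ ^ 2) * Real.exp (-κ * a ^ 2) := by positivity
  have h3 : (1 : ℝ) / κ ^ 2 = 2 * ((κ * 0 ^ 2 + 1) / (2 * κ ^ 2) * Real.exp (-κ * 0 ^ 2)) := by
    simp
    field_simp
  have h4 : -(κ * a ^ 2 + 1) / (2 * κ ^ 2) = - ((κ * a ^ 2 + 1) / (2 * κ ^ 2)) := by ring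
  have h5 : -(κ * 0 ^ 2 + 1) / (2 * κ ^ 2) = - ((κ * 0 ^ 2 + 1) / (2 * κ ^ 2)) := by ring
  rw [h3, h4, h5]
  linarith

theorem gauss_tail {r a : ℝ} (hr : 0 < r) (ha : 0 < a) :
    IntegrableOn (fun u : ℝ => Real.exp (-r * u ^ 2)) (Ioi a) ∧
    ∫ u in Ioi a, Real.exp (-r * u ^ 2) ≤ 1 / (2 * r * a) * Real.exp (-r * a ^ 2) := by
  have hint : Integrable (fun u : ℝ => Real.exp (-r * u ^ 2)) := integrable_exp_neg_mul_sq hr
  refine ⟨hint.integrableOn, ?_⟩
  have hF : ∀ x ∈ Ici a, HasDerivAt (fun u : ℝ => -(1 / (2 * r * a)) * Real.exp (-r * u ^ 2))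
      (x / a * Real.exp (-r * x ^ 2)) x := by
    intro x _
    have h2 : HasDerivAt (fun u : ℝ => Real.exp (-r * u ^ 2))
        (Real.exp (-r * x ^ 2) * (-r * (2 * x))) x := by
      have := ((hasDerivAt_pow 2 x).const_mul (-r)).exp
      exact this.congr_deriv (by simp)
    have := h2.const_mul (-(1 / (2 * r * a)))
    refine this.congr_deriv ?_
    field_simp
  have hlim : Filter.Tendsto (fun u : ℝ => -(1 / (2 * r * a)) * Real.exp (-r * u ^ 2))
      Filter.atTop (nhds 0) := by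
    have h0 : Filter.Tendsto (fun u : ℝ => Real.exp (-r * u ^ 2)) Filter.atTop (nhds 0) := by
      refine Real.tendsto_exp_atBot.comp ?_
      refine Filter.Tendsto.const_mul_atTop_of_neg (by linarith) ?_
      exact Filter.tendsto_pow_atTop (by norm_num)
    simpa using h0.const_mul (-(1 / (2 * r * a)))
  have hnn : ∀ x ∈ Ioi a, 0 ≤ x / a * Real.exp (-r * x ^ 2) := by
    intro x hx
    have hx' : a < x := hx
    have : 0 < x := ha.trans hx'
    positivity
  have hI : IntegrableOn (fun x : ℝ => x / a * Real.exp (-r * x ^ 2)) (Ioi a) :=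
    integrableOn_Ioi_deriv_of_nonneg' hF hnn hlim
  have hV : ∫ x in Ioi a, x / a * Real.exp (-r * x ^ 2)
      = 0 - (-(1 / (2 * r * a)) * Real.exp (-r * a ^ 2)) :=
    integral_Ioi_of_hasDerivAt_of_nonneg' hF hnn hlim
  have hle : ∫ u in Ioi a, Real.exp (-r * u ^ 2)
      ≤ ∫ x in Ioi a, x / a * Real.exp (-r * x ^ 2) := by
    refine setIntegral_mono_on hint.integrableOn hI measurableSet_Ioi (fun x hx => ?_)
    have hx' : a < x := hx
    have h1 : 1 ≤ x / a := by rw [le_div_iff₀ ha]; linarith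
    nlinarith [Real.exp_pos (-r * x ^ 2)]
  calc _ ≤ _ := hle
    _ = _ := by rw [hV]; ring

theorem gauss_interval {a : ℝ} {p : ℂ} (ha : 0 < a) (hp : 0 < p.re) :
    Real.sqrt (2 * Real.pi / ‖p‖) - 2 / (p.re * a) * Real.exp (-(p.re * a ^ 2 / 2)) ≤
      ‖∫ u in (-a)..a, Complex.exp (-(p / 2) * (u : ℂ) ^ 2)‖ := by
  set b : ℂ := p / 2 with hb
  have hbre : b.re = p.re / 2 := by simp [hb]
  have hbpos : 0 < b.re := by rw [hbre]; linarith
  have hc : Continuous fun u : ℝ => Complex.exp (-b * (u : ℂ) ^ 2) := by fun_prop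
  have hsplit : ∫ u in (-a)..a, Complex.exp (-b * (u : ℂ) ^ 2)
      = (∫ u in (-a)..0, Complex.exp (-b * (u : ℂ) ^ 2))
        + ∫ u in (0)..a, Complex.exp (-b * (u : ℂ) ^ 2) :=
    (intervalIntegral.integral_add_adjacent_intervals (hc.intervalIntegrable _ _)
      (hc.intervalIntegrable _ _)).symm
  have hneg : ∫ u in (-a)..0, Complex.exp (-b * (u : ℂ) ^ 2)
      = ∫ u in (0)..a, Complex.exp (-b * (u : ℂ) ^ 2) := by
    have := intervalIntegral.integral_comp_neg (a := 0) (b := a)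
      (fun u : ℝ => Complex.exp (-b * (u : ℂ) ^ 2))
    simp only [neg_zero, Complex.ofReal_neg, even_two, Even.neg_pow] at this
    exact this.symm
  have hint : Integrable (fun u : ℝ => Complex.exp (-b * (u : ℂ) ^ 2)) :=
    integrable_cexp_neg_mul_sq hbpos
  have hIoi : (∫ u in (0)..a, Complex.exp (-b * (u : ℂ) ^ 2))
      + ∫ u in Ioi a, Complex.exp (-b * (u : ℂ) ^ 2)
      = (Real.pi / b) ^ (1 / 2 : ℂ) / 2 := by
    rw [← integral_gaussian_complex_Ioi hbpos]
    exact intervalIntegral.integral_interval_add_Ioi hint.integrableOn hint.integrableOn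
  have htail : ‖∫ u in Ioi a, Complex.exp (-b * (u : ℂ) ^ 2)‖
      ≤ 1 / (2 * b.re * a) * Real.exp (-b.re * a ^ 2) := by
    refine (norm_integral_le_integral_norm _).trans ?_
    refine le_trans (le_of_eq ?_) (gauss_tail hbpos ha).2
    refine integral_congr_ae (Filter.Eventually.of_forall fun u => ?_)
    simp only [Complex.norm_exp]
    congr 1
    have : -b * (u : ℂ) ^ 2 = ((u ^ 2 : ℝ) : ℂ) * (-b) := by push_cast; ring
    rw [this, Complex.re_ofReal_mul]
    simp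
    ring
  have hnorm : ‖((Real.pi : ℂ) / b) ^ (1 / 2 : ℂ)‖ = Real.sqrt (2 * Real.pi / ‖p‖) := by
    have h12 : (1 / 2 : ℂ) = ((1 / 2 : ℝ) : ℂ) := by push_cast; rfl
    rw [h12, Complex.norm_cpow_real, Real.sqrt_eq_rpow]
    congr 1
    rw [norm_div, hb, norm_div]
    simp
    rw [abs_of_pos Real.pi_pos]
    ring
  have hval : ∫ u in (-a)..a, Complex.exp (-b * (u : ℂ) ^ 2)
      = ((Real.pi : ℂ) / b) ^ (1 / 2 : ℂ) - 2 * ∫ u in Ioi a, Complex.exp (-b * (u : ℂ) ^ 2) := by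
    rw [hsplit, hneg]
    linear_combination 2 * hIoi
  rw [hval]
  have h6 := norm_sub_norm_le (((Real.pi : ℂ) / b) ^ (1 / 2 : ℂ))
    (2 * ∫ u in Ioi a, Complex.exp (-b * (u : ℂ) ^ 2))
  rw [hnorm, norm_mul] at h6
  have h7 : ‖(2 : ℂ)‖ * ‖∫ u in Ioi a, Complex.exp (-b * (u : ℂ) ^ 2)‖
      ≤ 2 / (p.re * a) * Real.exp (-(p.re * a ^ 2 / 2)) := by
    have h8 : ‖(2 : ℂ)‖ = 2 := by simp
    rw [h8]
    calc 2 * ‖∫ u in Ioi a, Complex.exp (-b * (u : ℂ) ^ 2)‖
        ≤ 2 * (1 / (2 * b.re * a) * Real.exp (-b.re * a ^ 2)) := by linarith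
      _ = 2 / (p.re * a) * Real.exp (-(p.re * a ^ 2 / 2)) := by
        rw [hbre]
        have : -(p.re / 2) * a ^ 2 = -(p.re * a ^ 2 / 2) := by ring
        rw [this]
        have hp' : p.re ≠ 0 := hp.ne'
        field_simp
  linarith

theorem laplace {a κ M : ℝ} {p : ℂ} {E : ℝ → ℂ} (ha : 0 < a) (hκ : 0 < κ) (hM : 0 ≤ M)
    (hp : 2 * κ ≤ p.re) (hE : Continuous E)
    (h1 : ∀ u : ℝ, |u| ≤ a → ‖E u + p * (u : ℂ) ^ 2 / 2‖ ≤ M * |u| ^ 3)
    (h2 : ∀ u : ℝ, |u| ≤ a → (E u).re ≤ -κ * u ^ 2) :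
    Real.sqrt (2 * Real.pi / ‖p‖) - M / κ ^ 2
        - 2 / (p.re * a) * Real.exp (-(p.re * a ^ 2 / 2)) ≤
      ‖∫ u in (-a)..a, Complex.exp (E u)‖ := by
  have hp0 : 0 < p.re := by linarith
  have hcE : Continuous fun u : ℝ => Complex.exp (E u) := by fun_prop
  have hcG : Continuous fun u : ℝ => Complex.exp (-(p / 2) * (u : ℂ) ^ 2) := by fun_prop
  have hdiff : ‖(∫ u in (-a)..a, Complex.exp (E u))
      - ∫ u in (-a)..a, Complex.exp (-(p / 2) * (u : ℂ) ^ 2)‖ ≤ M / κ ^ 2 := by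
    rw [← intervalIntegral.integral_sub (hcE.intervalIntegrable _ _) (hcG.intervalIntegrable _ _)]
    have hle : -a ≤ a := by linarith
    calc ‖∫ u in (-a)..a, (Complex.exp (E u) - Complex.exp (-(p / 2) * (u : ℂ) ^ 2))‖
        ≤ ∫ u in (-a)..a, M * (|u| ^ 3 * Real.exp (-κ * u ^ 2)) := by
          refine intervalIntegral.norm_integral_le_of_norm_le hle ?_ ?_
          · refine Filter.Eventually.of_forall fun u hu => ?_
            have hu' : |u| ≤ a := abs_le.2 ⟨hu.1.le, hu.2⟩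
            have hre : (-(p / 2) * (u : ℂ) ^ 2).re ≤ -κ * u ^ 2 := by
              have : -(p / 2) * (u : ℂ) ^ 2 = ((u ^ 2 : ℝ) : ℂ) * (-(p / 2)) := by
                push_cast; ring
              rw [this, Complex.re_ofReal_mul]
              have h3 : (-(p / 2)).re = -(p.re / 2) := by simp
              rw [h3]
              nlinarith [sq_nonneg u]
            have h4 := norm_exp_sub_exp_le' (h2 u hu') hre
            have h5 : E u - -(p / 2) * (u : ℂ) ^ 2 = E u + p * (u : ℂ) ^ 2 / 2 := by ring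
            rw [h5] at h4
            calc _ ≤ _ := h4
              _ ≤ Real.exp (-κ * u ^ 2) * (M * |u| ^ 3) := by
                gcongr
                exact h1 u hu'
              _ = _ := by ring
          · exact Continuous.intervalIntegrable (by fun_prop) _ _
      _ = M * ∫ u in (-a)..a, (|u| ^ 3 * Real.exp (-κ * u ^ 2)) :=
          intervalIntegral.integral_const_mul _ _
      _ ≤ M * (1 / κ ^ 2) := by
          gcongr
          exact integral_cube_gauss hκ ha.le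
      _ = M / κ ^ 2 := by ring
  have hG := gauss_interval ha hp0
  have h9 := norm_sub_norm_le (∫ u in (-a)..a, Complex.exp (-(p / 2) * (u : ℂ) ^ 2))
    (∫ u in (-a)..a, Complex.exp (E u))
  rw [norm_sub_rev] at h9
  linarith

end Pool.Agent.T6.H86.DA
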