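import Mathlib

/-!
# Numerical inequalities for the final comparison
-/

set_option autoImplicit false

namespace Pool.Agent.T6.H86.DA

open scoped Real

/-- `x ^ k * exp (-x)` at `x ≥ c ≥ k` -/
lemma pow_exp_le (k : ℕ) {c x b : ℝ} (hk : (k : ℝ) ≤ c) (hc : 0 < c) (hx : c ≤ x)
    (hb : c ^ k * Real.exp (-c) ≤ b) : x ^ k * Real.exp (-x) ≤ b := by
  refine le_trans ?_ hb
  have h1 : (x / c) ^ k ≤ Real.exp (x - c) := by
    have h2 : x / c ≤ Real.exp (x / c - 1) := by
      have := Real.add_one_le_exp (x / c - 1)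
      linarith
    have hx0 : 0 ≤ x / c := div_nonneg (hc.le.trans hx) hc.le
    calc (x / c) ^ k ≤ Real.exp (x / c - 1) ^ k := by gcongr
      _ = Real.exp (k * (x / c - 1)) := by rw [← Real.exp_nat_mul]
      _ ≤ Real.exp (x - c) := by
        apply Real.exp_le_exp.2
        have h3 : x / c - 1 = (x - c) / c := by field_simp
        rw [h3, mul_div_assoc', div_le_iff₀ hc]
        nlinarith
  rw [div_pow, div_le_iff₀ (by positivity)] at h1
  have h4 : Real.exp (-x) = Real.exp (-(x - c)) * Real.exp (-c) := by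
    rw [← Real.exp_add]; ring_nf
  rw [h4]
  have h5 : Real.exp (x - c) * Real.exp (-(x - c)) = 1 := by
    rw [← Real.exp_add]; simp
  calc x ^ k * (Real.exp (-(x - c)) * Real.exp (-c))
      ≤ (Real.exp (x - c) * c ^ k) * (Real.exp (-(x - c)) * Real.exp (-c)) := by gcongr
    _ = c ^ k * Real.exp (-c) * (Real.exp (x - c) * Real.exp (-(x - c))) := by ring
    _ = c ^ k * Real.exp (-c) := by rw [h5, mul_one]

lemma exp_neg_nat' (n : ℕ) : Real.exp (-(n : ℝ)) ≤ (0.36788 : ℝ) ^ n := by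
  have h : Real.exp (-1) ≤ 0.36788 := by
    have := Real.exp_neg_one_lt_d9
    linarith
  calc Real.exp (-(n : ℝ)) = Real.exp (-1) ^ n := by rw [← Real.exp_nat_mul]; ring_nf
    _ ≤ _ := by gcongr

lemma exp_389 : Real.exp (-3.89) ≤ 0.0221 := by
  have h1 : (2.595 : ℝ) ≤ Real.exp 0.9725 := by
    have := Real.sum_le_exp_of_nonneg (x := 0.9725) (by norm_num) 4
    refine le_trans ?_ this
    norm_num [Finset.sum_range_succ, Nat.factorial]
  have h2 : Real.exp 3.89 = Real.exp 0.9725 ^ 4 := by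
    rw [← Real.exp_nat_mul]; norm_num
  rw [Real.exp_neg, h2]
  have h3 : (2.595 : ℝ) ^ 4 ≤ Real.exp 0.9725 ^ 4 := by gcongr
  calc (Real.exp 0.9725 ^ 4)⁻¹ ≤ ((2.595 : ℝ) ^ 4)⁻¹ := by gcongr
    _ ≤ 0.0221 := by norm_num

lemma sqrt_lower {X c : ℝ} (_ : 0 ≤ c) (hX : c ^ 2 ≤ X) : c ≤ Real.sqrt X :=
  Real.le_sqrt_of_sq_le hX

/-- comparison for `δ ≤ 1.2` -/
lemma fin_A {X far : ℝ} (hX : 356 ≤ X) (hfar : X * far ≤ 1) :
    15.18 / X + 10 / X * Real.exp (-(X / 50)) + 2 * Real.exp (-(0.010932 * X)) + far <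
      2.08 / Real.sqrt X := by
  have hX0 : 0 < X := by linarith
  have hs : 18.86 ≤ Real.sqrt X := sqrt_lower (by norm_num) (by norm_num; linarith)
  have hs2 : Real.sqrt X * Real.sqrt X = X := Real.mul_self_sqrt hX0.le
  have h1 : Real.exp (-(X / 50)) ≤ 0.36788 ^ 7 := by
    refine (Real.exp_le_exp.2 ?_).trans (exp_neg_nat' 7)
    push_cast; linarith
  have h2 : (0.010932 * X) ^ 1 * Real.exp (-(0.010932 * X)) ≤ 3.89 * 0.0221 := by
    apply pow_exp_le 1 (c := 3.89) (by norm_num) (by norm_num) (by linarith)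
    rw [pow_one]
    have := exp_389
    gcongr
  rw [pow_one] at h2
  have h3 : X * (15.18 / X + 10 / X * Real.exp (-(X / 50)) + 2 * Real.exp (-(0.010932 * X)) + far) =
      15.18 + 10 * Real.exp (-(X / 50)) + 2 * (X * Real.exp (-(0.010932 * X))) + X * far := by
    field_simp
  have h4 : X * (2.08 / Real.sqrt X) = 2.08 * Real.sqrt X := by
    rw [mul_div_assoc', div_eq_iff (by positivity)]
    linarith
  have h5 : X * Real.exp (-(0.010932 * X)) ≤ 3.89 * 0.0221 / 0.010932 := by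
    rw [le_div_iff₀ (by norm_num)]; linarith
  have h6 : (3.89 : ℝ) * 0.0221 / 0.010932 ≤ 7.87 := by norm_num
  have h7 : (10 : ℝ) * 0.36788 ^ 7 ≤ 0.01 := by norm_num
  have h8 : X * (15.18 / X + 10 / X * Real.exp (-(X / 50)) + 2 * Real.exp (-(0.010932 * X)) + far) <
      X * (2.08 / Real.sqrt X) := by
    rw [h3, h4]
    linarith
  exact lt_of_mul_lt_mul_left h8 hX0.le

/-- comparison for `δ ≥ 1.2` -/
lemma fin_B {X : ℝ} (hX : 560 ≤ X) :
    15.18 / X + 10 / X * Real.exp (-(X / 50)) + 5.24 * Real.exp (-(0.010932 * X)) <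
      2.08 / Real.sqrt X := by
  have hX0 : 0 < X := by linarith
  have hs : 23.66 ≤ Real.sqrt X := sqrt_lower (by norm_num) (by norm_num; linarith)
  have hs2 : Real.sqrt X * Real.sqrt X = X := Real.mul_self_sqrt hX0.le
  have h1 : Real.exp (-(X / 50)) ≤ 0.36788 ^ 11 := by
    refine (Real.exp_le_exp.2 ?_).trans (exp_neg_nat' 11)
    push_cast; linarith
  have h2 : (0.010932 * X) ^ 1 * Real.exp (-(0.010932 * X)) ≤ 6 * 0.36788 ^ 6 := by
    apply pow_exp_le 1 (c := 6) (by norm_num) (by norm_num) (by linarith)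
    rw [pow_one]
    have := exp_neg_nat' 6
    push_cast at this
    gcongr
  rw [pow_one] at h2
  have h3 : X * (15.18 / X + 10 / X * Real.exp (-(X / 50)) + 5.24 * Real.exp (-(0.010932 * X))) =
      15.18 + 10 * Real.exp (-(X / 50)) + 5.24 * (X * Real.exp (-(0.010932 * X))) := by
    field_simp
  have h4 : X * (2.08 / Real.sqrt X) = 2.08 * Real.sqrt X := by
    rw [mul_div_assoc', div_eq_iff (by positivity)]
    linarith
  have h5 : X * Real.exp (-(0.010932 * X)) ≤ 6 * 0.36788 ^ 6 / 0.010932 := by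
    rw [le_div_iff₀ (by norm_num)]; linarith
  have h6 : (6 : ℝ) * 0.36788 ^ 6 / 0.010932 ≤ 1.37 := by norm_num
  have h7 : (10 : ℝ) * 0.36788 ^ 11 ≤ 0.01 := by norm_num
  have h8 : X * (15.18 / X + 10 / X * Real.exp (-(X / 50)) + 5.24 * Real.exp (-(0.010932 * X))) <
      X * (2.08 / Real.sqrt X) := by
    rw [h3, h4]
    linarith
  exact lt_of_mul_lt_mul_left h8 hX0.le

/-- the very far part is negligible -/
lemma far_num {X δ A : ℝ} (hX : 356 ≤ X) (hδ : 0 < δ) (hd : δ ≤ 1.2) (hXδ : 0.425 ≤ X * δ)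
    (hA : 2 / 3 * X * (0.1 - 0.0465 * δ) ≤ A) :
    X * (2 * π / δ * Real.exp (-A)) ≤ 1 := by
  have hpi := Real.pi_lt_d4
  have hpi0 := Real.pi_pos
  have hX0 : 0 < X := by linarith
  rcases le_total 0.2 δ with h | h
  · have h1 : 0.0294 * X ≤ A := by
      refine le_trans ?_ hA
      have h0 : 2 / 3 * X * (0.1 - 0.0465 * 1.2) ≤ 2 / 3 * X * (0.1 - 0.0465 * δ) := by gcongr
      refine le_trans ?_ h0
      linarith
    have h2 : (0.0294 * X) ^ 1 * Real.exp (-(0.0294 * X)) ≤ 10 * 0.36788 ^ 10 := by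
      apply pow_exp_le 1 (c := 10) (by norm_num) (by norm_num) (by linarith)
      rw [pow_one]
      have := exp_neg_nat' 10
      push_cast at this
      gcongr
    rw [pow_one] at h2
    have h3 : Real.exp (-A) ≤ Real.exp (-(0.0294 * X)) := Real.exp_le_exp.2 (by linarith)
    have h4 : 2 * π / δ ≤ 31.42 := by
      rw [div_le_iff₀ hδ]; linarith
    calc X * (2 * π / δ * Real.exp (-A)) ≤ X * (31.42 * Real.exp (-(0.0294 * X))) := by gcongr
      _ = 31.42 / 0.0294 * (0.0294 * X * Real.exp (-(0.0294 * X))) := by ring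
      _ ≤ 31.42 / 0.0294 * (10 * 0.36788 ^ 10) := by gcongr
      _ ≤ 1 := by norm_num
  · have h1 : 0.06 * X ≤ A := by
      refine le_trans ?_ hA
      have h0 : 2 / 3 * X * (0.1 - 0.0465 * 0.2) ≤ 2 / 3 * X * (0.1 - 0.0465 * δ) := by gcongr
      refine le_trans ?_ h0
      linarith
    have h2 : (0.06 * X) ^ 2 * Real.exp (-(0.06 * X)) ≤ 21 ^ 2 * 0.36788 ^ 21 := by
      apply pow_exp_le 2 (c := 21) (by norm_num) (by norm_num) (by linarith)
      have := exp_neg_nat' 21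
      push_cast at this
      gcongr
    have h3 : Real.exp (-A) ≤ Real.exp (-(0.06 * X)) := Real.exp_le_exp.2 (by linarith)
    have h4 : 2 * π / δ ≤ 14.8 * X := by
      rw [div_le_iff₀ hδ]; nlinarith
    calc X * (2 * π / δ * Real.exp (-A)) ≤ X * (14.8 * X * Real.exp (-(0.06 * X))) := by gcongr
      _ = 14.8 / 0.0036 * ((0.06 * X) ^ 2 * Real.exp (-(0.06 * X))) := by ring
      _ ≤ 14.8 / 0.0036 * (21 ^ 2 * 0.36788 ^ 21) := by gcongr
      _ ≤ 1 := by norm_num

end Pool.Agent.T6.H86.DA
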