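import Pool.Agent.T6.H86.DA.Far
import Pool.Agent.T6.H86.DA.M9
import Pool.Agent.T6.H86.DA.Num

/-!
# Nonvanishing for `t ≥ 1`, `n t ≥ 160000`, `n ≥ 0.15 t`
-/

set_option autoImplicit false

namespace Pool.Agent.T6.H86.DA

open scoped ArithmeticFunction.sigma Real
open Complex MeasureTheory intervalIntegral

lemma Sad.norm_H {lam δ y z : ℝ} (h : Sad lam δ y z) (t u : ℝ) :
    ‖exp ((t : ℂ) * E1 lam δ y u)‖ = Real.exp (t * (v δ (δ * y + u) - v δ (δ * y))) := by
  rw [Complex.norm_exp, Complex.re_ofReal_mul, h.E1_re]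
  unfold v
  congr 2
  have e : (δ : ℂ) + δ * y * I = (δ : ℂ) + ((δ * y : ℝ) : ℂ) * I := by push_cast; ring
  rw [e]
  ring

lemma continuous_E1 {lam δ y : ℝ} (hδ : 0 < δ) : Continuous (fun u : ℝ => E1 lam δ y u) := by
  unfold E1
  have h1 : Continuous (fun u : ℝ => g ((δ : ℂ) + ((δ * y + u : ℝ) : ℂ) * I)) :=
    (M1.continuous_g_path hδ).comp (by fun_prop : Continuous fun u : ℝ => δ * y + u)
  fun_prop

/-- the integral around the saddle point -/
lemma near_int {t lam δ y z : ℝ} (ht : 0 < t) (h : Sad lam δ y z) :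
    2.08 * δ / Real.sqrt (t * rho δ y * δ ^ 2) - 15.18 * δ / (t * rho δ y * δ ^ 2) -
      10 * δ / (t * rho δ y * δ ^ 2) * Real.exp (-(t * rho δ y * δ ^ 2 / 50)) ≤
    ‖∫ u in (-(δ / 5))..(δ / 5), exp ((t : ℂ) * E1 lam δ y u)‖ := by
  have hδ := h.hδ
  have hρ := h.rho_pos
  set ρ := rho δ y with hρdef
  set s1 := S 1 ((δ : ℂ) + δ * y * I) with hs1
  have hpre : ((t : ℂ) * (I * s1)).re = t * ρ := by
    rw [Complex.re_ofReal_mul, Complex.I_mul_re, hρdef, rho]
  have hl := laplace (a := δ / 5) (κ := t * (0.2733 * ρ)) (M := t * (6.8 * ρ / δ / 6))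
    (p := (t : ℂ) * (I * s1)) (E := fun u => (t : ℂ) * E1 lam δ y u) (by positivity)
    (by positivity) (by positivity) (by rw [hpre]; nlinarith [mul_pos ht hρ])
    (by
      have := continuous_E1 (lam := lam) (y := y) hδ
      fun_prop)
    (fun u hu => by
      have h1 := h.taylor hu
      have e : (t : ℂ) * E1 lam δ y u + (t : ℂ) * (I * s1) * (u : ℂ) ^ 2 / 2 =
          (t : ℂ) * (E1 lam δ y u + I * s1 * (u : ℂ) ^ 2 / 2) := by ring
      rw [e, norm_mul, Complex.norm_real, Real.norm_eq_abs, abs_of_pos ht]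
      calc t * ‖E1 lam δ y u + I * s1 * (u : ℂ) ^ 2 / 2‖ ≤ t * (6.8 * ρ / δ / 6 * |u| ^ 3) :=
            mul_le_mul_of_nonneg_left h1 ht.le
        _ = t * (6.8 * ρ / δ / 6) * |u| ^ 3 := by ring)
    (fun u hu => by
      have h1 := h.E1_le hu
      rw [Complex.re_ofReal_mul]
      calc t * (E1 lam δ y u).re ≤ t * (-(0.2733 * ρ) * u ^ 2) := by gcongr
        _ = _ := by ring)
  refine le_trans ?_ hl
  rw [hpre]
  have hX : 0 < t * ρ * δ ^ 2 := by positivity
  -- first term
  have hs1pos : 0 < ‖s1‖ := by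
    rw [norm_pos_iff]
    intro hcon
    have : ρ = 0 := by rw [hρdef, rho, ← hs1, hcon]; simp
    linarith
  have hn : ‖(t : ℂ) * (I * s1)‖ = t * ‖s1‖ := by
    rw [norm_mul, norm_mul, Complex.norm_real, Real.norm_eq_abs, abs_of_pos ht, Complex.norm_I,
      one_mul]
  have t1 : 2.08 * δ / Real.sqrt (t * ρ * δ ^ 2) ≤ Real.sqrt (2 * π / ‖(t : ℂ) * (I * s1)‖) := by
    apply Real.le_sqrt_of_sq_le
    rw [div_pow, Real.sq_sqrt hX.le, hn, div_le_div_iff₀ hX (by positivity)]
    have hS1 := h.norm_S1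
    rw [← hs1, ← hρdef] at hS1
    have hpi := Real.pi_gt_d4
    have a1 : t * (0.69 * ‖s1‖) ≤ t * ρ := by gcongr
    have a2 : (2.08 : ℝ) ^ 2 ≤ 2 * 3.1415 * 0.69 := by norm_num
    calc (2.08 * δ) ^ 2 * (t * ‖s1‖) = 2.08 ^ 2 * (t * ‖s1‖) * δ ^ 2 := by ring
      _ ≤ (2 * 3.1415 * 0.69) * (t * ‖s1‖) * δ ^ 2 := by gcongr
      _ = 2 * 3.1415 * (t * (0.69 * ‖s1‖)) * δ ^ 2 := by ring
      _ ≤ 2 * π * (t * ρ) * δ ^ 2 := by gcongr
      _ = _ := by ring
  have t2 : t * (6.8 * ρ / δ / 6) / (t * (0.2733 * ρ)) ^ 2 ≤ 15.18 * δ / (t * ρ * δ ^ 2) := by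
    have e : t * (6.8 * ρ / δ / 6) / (t * (0.2733 * ρ)) ^ 2 =
        (6.8 / 6 / 0.2733 ^ 2) * δ / (t * ρ * δ ^ 2) := by field_simp
    rw [e]
    gcongr
    norm_num
  have t3 : 2 / (t * ρ * (δ / 5)) = 10 * δ / (t * ρ * δ ^ 2) := by
    field_simp
    norm_num
  have t4 : t * ρ * (δ / 5) ^ 2 / 2 = t * ρ * δ ^ 2 / 50 := by ring
  rw [t3, t4]
  linarith

theorem core {t : ℝ} {n : ℕ} (ht : 1 ≤ t) (hlam : 0.15 * t ≤ n) (hR : 160000 ≤ n * t) :
    P (t * I) n ≠ 0 := by
  intro hP
  have ht0 : 0 < t := by linarith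
  set lam : ℝ := n / t with hl
  have hlam' : 0.15 ≤ lam := by rw [hl, le_div_iff₀ ht0]; exact hlam
  have hnt : (n : ℝ) = t * lam := by rw [hl]; field_simp
  obtain ⟨δ, y, hδ, hy, hz2, hS⟩ := exists_saddle hlam'
  have h : Sad lam δ y (δ * (1 + y ^ 2)) := ⟨hδ, hy, rfl, hz2, hS⟩
  have hρ := h.rho_pos
  set ρ := rho δ y with hρdef
  set X := t * ρ * δ ^ 2 with hX
  have hX0 : 0 < X := by positivity
  set H : ℝ → ℂ := fun u => exp ((t : ℂ) * E1 lam δ y u) with hH
  have hHc : Continuous H := by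
    have := continuous_E1 (lam := lam) (y := y) hδ
    rw [hH]; fun_prop
  have hdy0 : 0 < δ * y := by positivity
  have hdy := h.dy_lt
  have hyg := h.y_ge
  have hdy1 : δ / 5 < δ * y := by nlinarith
  have hpi := Real.pi_gt_d4
  have hpi2 := Real.pi_lt_d4
  -- the total integral vanishes
  have hint := M1.coeff_int (t * I) n hδ
  rw [hP, mul_zero] at hint
  have htot : ∫ u in (-π - δ * y)..(π - δ * y), H u = 0 := by
    have e1 : ∀ φ : ℝ, exp (t * I * g (δ + φ * I) + n * (δ + φ * I)) =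
        exp (t * I * g (δ + δ * y * I) + n * (δ + δ * y * I)) * H (φ - δ * y) := by
      intro φ
      have hn' : (n : ℂ) = t * lam := by exact_mod_cast hnt
      simp only [hH]
      rw [← Complex.exp_add]
      congr 1
      unfold E1
      rw [show δ * y + (φ - δ * y) = φ by ring, hn']
      push_cast
      ring
    rw [intervalIntegral.integral_congr (fun φ _ => e1 φ),
      intervalIntegral.integral_const_mul] at hint
    rw [← intervalIntegral.integral_comp_sub_right (fun u => H u) (δ * y)]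
    have := Complex.exp_ne_zero (t * I * g (δ + δ * y * I) + n * (δ + δ * y * I))
    exact (mul_eq_zero.1 hint.symm).resolve_left this
  have hii : ∀ a b : ℝ, IntervalIntegrable H volume a b := fun a b => hHc.intervalIntegrable a b
  have hsplit : (∫ u in (-π - δ * y)..(-(δ / 5)), H u) + (∫ u in (-(δ / 5))..(δ / 5), H u) +
      (∫ u in (δ / 5)..(π - δ * y), H u) = 0 := by
    rw [intervalIntegral.integral_add_adjacent_intervals (hii _ _) (hii _ _),
      intervalIntegral.integral_add_adjacent_intervals (hii _ _) (hii _ _), htot]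
  have hN : ‖∫ u in (-(δ / 5))..(δ / 5), H u‖ ≤ ‖∫ u in (-π - δ * y)..(-(δ / 5)), H u‖ +
      ‖∫ u in (δ / 5)..(π - δ * y), H u‖ := by
    have e : (∫ u in (-(δ / 5))..(δ / 5), H u) =
        -((∫ u in (-π - δ * y)..(-(δ / 5)), H u) + (∫ u in (δ / 5)..(π - δ * y), H u)) := by
      linear_combination hsplit
    rw [e, norm_neg]
    exact norm_add_le _ _
  have hnear := near_int ht0 h
  rw [← hρdef, ← hX] at hnear
  -- norm on a piece
  have hpiece : ∀ a b C : ℝ, a ≤ b → (∀ u, a ≤ u → u ≤ b → v δ (δ * y + u) - v δ (δ * y) ≤ -C) →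
      ‖∫ u in a..b, H u‖ ≤ Real.exp (-(t * C)) * (b - a) := by
    intro a b C hab hC
    have := intervalIntegral.norm_integral_le_of_norm_le_const (a := a) (b := b) (f := H)
      (C := Real.exp (-(t * C))) (fun u hu => by
        rw [Set.uIoc_of_le hab] at hu
        simp only [hH]
        rw [h.norm_H]
        apply Real.exp_le_exp.2
        have := hC u hu.1.le hu.2
        nlinarith)
    rwa [abs_of_nonneg (by linarith)] at this
  have hmidC : t * (0.2733 * ρ * (δ / 5) ^ 2) = 0.010932 * X := by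
    rw [hX]; ring
  rcases le_total δ 1.2 with hd | hd
  · -- `δ ≤ 1.2`
    have hX356 : 356 ≤ X := by
      have h1 := h.rho_sq1
      rw [← hρdef] at h1
      have h2 : 356 ^ 2 ≤ X ^ 2 := by
        calc (356 : ℝ) ^ 2 = 0.7921 * 160000 := by norm_num
          _ ≤ 0.7921 * (n * t) := by gcongr
          _ = t ^ 2 * (0.7921 * lam) := by rw [hnt]; ring
          _ ≤ t ^ 2 * (ρ * δ ^ 2) ^ 2 := by gcongr
          _ = X ^ 2 := by rw [hX]; ring
      exact le_of_sq_le_sq h2 hX0.le
    set A := t * (0.1 / δ - 0.0465) with hA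
    have q1 : ‖∫ u in (-π - δ * y)..(-(δ * y)), H u‖ ≤ Real.exp (-A) * (-(δ * y) - (-π - δ * y)) := by
      apply hpiece _ _ _ (by linarith)
      intro u hu1 hu2
      exact h.far_small hd (by linarith) (by linarith) (Or.inl (by linarith))
    have q2 : ‖∫ u in (-(δ * y))..(-(δ / 5)), H u‖ ≤
        Real.exp (-(t * (0.2733 * ρ * (δ / 5) ^ 2))) * (-(δ / 5) - (-(δ * y))) := by
      apply hpiece _ _ _ (by linarith)
      intro u hu1 hu2
      have := h.mid_left (φ := δ * y + u) (by linarith) (by linarith)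
      rw [← hρdef] at this
      linarith
    have q3 : ‖∫ u in (δ / 5)..(2 * δ - δ * y), H u‖ ≤
        Real.exp (-(t * (0.2733 * ρ * (δ / 5) ^ 2))) * ((2 * δ - δ * y) - δ / 5) := by
      have hy1 := h.y_lt_one
      apply hpiece _ _ _ (by nlinarith)
      intro u hu1 hu2
      have := h.mid_right hd (φ := δ * y + u) (by linarith) (by linarith)
      rw [← hρdef] at this
      linarith
    have q4 : ‖∫ u in (2 * δ - δ * y)..(π - δ * y), H u‖ ≤
        Real.exp (-A) * ((π - δ * y) - (2 * δ - δ * y)) := by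
      apply hpiece _ _ _ (by linarith)
      intro u hu1 hu2
      exact h.far_small hd (by linarith) (by linarith) (Or.inr (by linarith))
    have r1 : ‖∫ u in (-π - δ * y)..(-(δ / 5)), H u‖ ≤
        ‖∫ u in (-π - δ * y)..(-(δ * y)), H u‖ + ‖∫ u in (-(δ * y))..(-(δ / 5)), H u‖ := by
      rw [← intervalIntegral.integral_add_adjacent_intervals (hii (-π - δ * y) (-(δ * y)))
        (hii (-(δ * y)) (-(δ / 5)))]
      exact norm_add_le _ _
    have r2 : ‖∫ u in (δ / 5)..(π - δ * y), H u‖ ≤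
        ‖∫ u in (δ / 5)..(2 * δ - δ * y), H u‖ + ‖∫ u in (2 * δ - δ * y)..(π - δ * y), H u‖ := by
      rw [← intervalIntegral.integral_add_adjacent_intervals (hii (δ / 5) (2 * δ - δ * y))
        (hii (2 * δ - δ * y) (π - δ * y))]
      exact norm_add_le _ _
    rw [hmidC] at q2 q3
    have heA := Real.exp_pos (-A)
    have heX := Real.exp_pos (-(0.010932 * X))
    have hB : ‖∫ u in (-(δ / 5))..(δ / 5), H u‖ ≤
        2 * δ * Real.exp (-(0.010932 * X)) + 2 * π * Real.exp (-A) := by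
      have s1 : Real.exp (-A) * (-(δ * y) - (-π - δ * y)) + Real.exp (-A) * ((π - δ * y) -
          (2 * δ - δ * y)) ≤ 2 * π * Real.exp (-A) := by linarith [mul_pos heA hδ]
      have s2 : Real.exp (-(0.010932 * X)) * (-(δ / 5) - (-(δ * y))) +
          Real.exp (-(0.010932 * X)) * ((2 * δ - δ * y) - δ / 5) ≤
          2 * δ * Real.exp (-(0.010932 * X)) := by linarith [mul_pos heX hδ]
      linarith
    have hfar := far_num (X := X) (δ := δ) (A := A) hX356 hδ hd
      (by
        have h1 := h.rho_cube_ge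
        rw [← hρdef] at h1
        calc (0.425 : ℝ) ≤ ρ * δ ^ 3 := h1
          _ ≤ t * (ρ * δ ^ 3) := by nlinarith [mul_pos hρ (pow_pos hδ 3)]
          _ = X * δ := by rw [hX]; ring)
      (by
        have h1 := h.rho_cube_le hd
        rw [← hρdef] at h1
        have h2 : 2 / 3 * X ≤ t / δ := by
          rw [le_div_iff₀ hδ]
          calc 2 / 3 * X * δ = 2 / 3 * (t * (ρ * δ ^ 3)) := by rw [hX]; ring
            _ ≤ 2 / 3 * (t * 1.5) := by gcongr
            _ = t := by ring
        have h3 : 0 ≤ 0.1 - 0.0465 * δ := by linarith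
        calc 2 / 3 * X * (0.1 - 0.0465 * δ) ≤ t / δ * (0.1 - 0.0465 * δ) := by gcongr
          _ = A := by rw [hA]; field_simp)
    have hfin := fin_A hX356 hfar
    have hfin2 : δ * (15.18 / X + 10 / X * Real.exp (-(X / 50)) +
        2 * Real.exp (-(0.010932 * X)) + 2 * π / δ * Real.exp (-A)) < δ * (2.08 / Real.sqrt X) := by
      gcongr
    have e1 : δ * (15.18 / X + 10 / X * Real.exp (-(X / 50)) +
        2 * Real.exp (-(0.010932 * X)) + 2 * π / δ * Real.exp (-A)) =
        15.18 * δ / X + 10 * δ / X * Real.exp (-(X / 50)) +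
        2 * δ * Real.exp (-(0.010932 * X)) + 2 * π * Real.exp (-A) := by
      field_simp
    have e2 : δ * (2.08 / Real.sqrt X) = 2.08 * δ / Real.sqrt X := by ring
    rw [e1, e2] at hfin2
    linarith
  · -- `δ ≥ 1.2`
    have hX560 : 560 ≤ X := by
      have h1 := h.rho_sq2 hd
      rw [← hρdef] at h1
      have h2 : 560 ^ 2 ≤ X ^ 2 := by
        calc (560 : ℝ) ^ 2 = 1.96 * 160000 := by norm_num
          _ ≤ 1.96 * (n * t) := by gcongr
          _ = t ^ 2 * (1.96 * lam) := by rw [hnt]; ring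
          _ ≤ t ^ 2 * (ρ * δ ^ 2) ^ 2 := by gcongr
          _ = X ^ 2 := by rw [hX]; ring
      exact le_of_sq_le_sq h2 hX0.le
    have q1 : ‖∫ u in (-π - δ * y)..(-(δ / 5)), H u‖ ≤
        Real.exp (-(t * (0.2733 * ρ * (δ / 5) ^ 2))) * (-(δ / 5) - (-π - δ * y)) := by
      apply hpiece _ _ _ (by linarith)
      intro u hu1 hu2
      have := h.far_big hd (φ := δ * y + u) (by linarith) (by linarith) (Or.inl (by linarith))
      rw [← hρdef] at this
      linarith
    have q2 : ‖∫ u in (δ / 5)..(π - δ * y), H u‖ ≤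
        Real.exp (-(t * (0.2733 * ρ * (δ / 5) ^ 2))) * ((π - δ * y) - δ / 5) := by
      apply hpiece _ _ _ (by linarith)
      intro u hu1 hu2
      have := h.far_big hd (φ := δ * y + u) (by linarith) (by linarith) (Or.inr (by linarith))
      rw [← hρdef] at this
      linarith
    rw [hmidC] at q1 q2
    have heX := Real.exp_pos (-(0.010932 * X))
    have hB : ‖∫ u in (-(δ / 5))..(δ / 5), H u‖ ≤ 5.24 * δ * Real.exp (-(0.010932 * X)) := by
      have s1 : Real.exp (-(0.010932 * X)) * (-(δ / 5) - (-π - δ * y)) +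
          Real.exp (-(0.010932 * X)) * ((π - δ * y) - δ / 5) ≤
          2 * π * Real.exp (-(0.010932 * X)) := by linarith [mul_pos heX hδ]
      have s2 : 2 * π * Real.exp (-(0.010932 * X)) ≤ 5.24 * δ * Real.exp (-(0.010932 * X)) :=
        mul_le_mul_of_nonneg_right (by linarith) heX.le
      linarith
    have hfin := fin_B hX560
    have hfin2 : δ * (15.18 / X + 10 / X * Real.exp (-(X / 50)) +
        5.24 * Real.exp (-(0.010932 * X))) < δ * (2.08 / Real.sqrt X) := by
      gcongr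
    have e1 : δ * (15.18 / X + 10 / X * Real.exp (-(X / 50)) +
        5.24 * Real.exp (-(0.010932 * X))) =
        15.18 * δ / X + 10 * δ / X * Real.exp (-(X / 50)) +
        5.24 * δ * Real.exp (-(0.010932 * X)) := by
      field_simp
    have e2 : δ * (2.08 / Real.sqrt X) = 2.08 * δ / Real.sqrt X := by ring
    rw [e1, e2] at hfin2
    linarith

end Pool.Agent.T6.H86.DA
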