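import Mathlib

/-!
# D'Arcais polynomials on the imaginary axis: definitions

`P x n` is the value at `x` of the D'Arcais polynomial of index `n`; `g s` is the logarithm of the
product over `k ≥ 1` of `(1 - exp (-k s))⁻¹`, that is `∑ σ(m) / m * exp (-m s)`; `S j s` is
`∑ σ(m) m ^ j exp (-m s)`, so that `g' = - S 0`, `g'' = S 1`, `g''' = - S 2`.
-/

set_option autoImplicit false

namespace Pool.Agent.T6.H86.DA

open scoped ArithmeticFunction.sigma

/-- The value at `x` of the D'Arcais polynomial of index `n`. -/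
noncomputable def P (x : ℂ) : ℕ → ℂ
  | 0 => 1
  | n + 1 => x / ((n : ℂ) + 1) *
      ∑ k : Fin (n + 1), (σ 1 ((k : ℕ) + 1) : ℂ) * P x (n - k)

/-- `g s = ∑ σ(m) / m * exp (-m s)` -/
noncomputable def g (s : ℂ) : ℂ :=
  ∑' m : ℕ, (σ 1 (m + 1) : ℂ) / ((m : ℂ) + 1) * Complex.exp (-((m : ℂ) + 1) * s)

/-- `S j s = ∑ σ(m) m ^ j * exp (-m s)` -/
noncomputable def S (j : ℕ) (s : ℂ) : ℂ :=
  ∑' m : ℕ, (σ 1 (m + 1) : ℂ) * ((m : ℂ) + 1) ^ j * Complex.exp (-((m : ℂ) + 1) * s)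

end Pool.Agent.T6.H86.DA
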