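import Pool.Agent.T6.H86.DA.Est3

/-!
# Taylor expansion at the saddle point
-/

set_option autoImplicit false

namespace Pool.Agent.T6.H86.DA

open scoped ArithmeticFunction.sigma Real
open Complex

/-- integrating a bound of the derivative -/
lemma norm_le_of_deriv_nonneg {f f' : ℝ → ℂ} {a C : ℝ} (k : ℕ)
    (hf : ∀ u, 0 ≤ u → u ≤ a → HasDerivAt f (f' u) u) (h0 : f 0 = 0)
    (hb : ∀ u, 0 ≤ u → u ≤ a → ‖f' u‖ ≤ C * u ^ k) :
    ∀ u, 0 ≤ u → u ≤ a → ‖f u‖ ≤ C / (k + 1) * u ^ (k + 1) := by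
  intro u hu0 hua
  have hB : ∀ x : ℝ, HasDerivAt (fun x : ℝ => C / (k + 1) * x ^ (k + 1)) (C * x ^ k) x := by
    intro x
    have h := (hasDerivAt_pow (k + 1) x).const_mul (C / (k + 1))
    refine h.congr_deriv ?_
    have : ((k : ℝ) + 1) ≠ 0 := by positivity
    push_cast
    field_simp
  have := image_norm_le_of_norm_deriv_right_le_deriv_boundary (f := f) (f' := f') (a := 0) (b := a)
    (B := fun x : ℝ => C / (k + 1) * x ^ (k + 1)) (B' := fun x => C * x ^ k)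
    (fun x hx => (hf x hx.1 hx.2).continuousAt.continuousWithinAt)
    (fun x hx => (hf x hx.1 hx.2.le).hasDerivWithinAt)
    (by simp [h0]) hB (fun x hx => hb x hx.1 hx.2.le)
  exact this ⟨hu0, hua⟩

lemma norm_le_of_deriv {f f' : ℝ → ℂ} {a C : ℝ} (k : ℕ)
    (hf : ∀ u, |u| ≤ a → HasDerivAt f (f' u) u) (h0 : f 0 = 0)
    (hb : ∀ u, |u| ≤ a → ‖f' u‖ ≤ C * |u| ^ k) :
    ∀ u, |u| ≤ a → ‖f u‖ ≤ C / (k + 1) * |u| ^ (k + 1) := by
  intro u hu
  rcases le_total 0 u with h | h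
  · have := norm_le_of_deriv_nonneg (f := f) (f' := f') (a := a) (C := C) k
      (fun v hv hva => hf v (by rwa [abs_of_nonneg hv])) h0
      (fun v hv hva => by
        have := hb v (by rwa [abs_of_nonneg hv])
        rwa [abs_of_nonneg hv] at this) u h (by rwa [abs_of_nonneg h] at hu)
    rwa [abs_of_nonneg h]
  · have := norm_le_of_deriv_nonneg (f := fun v => f (-v)) (f' := fun v => -(f' (-v))) (a := a)
      (C := C) k
      (fun v hv hva => by
        have h1 := hf (-v) (by rwa [abs_neg, abs_of_nonneg hv])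
        have h2 := h1.scomp v (hasDerivAt_neg v)
        refine h2.congr_deriv ?_
        simp) (by simp [h0])
      (fun v hv hva => by
        have := hb (-v) (by rwa [abs_neg, abs_of_nonneg hv])
        rw [norm_neg]
        rwa [abs_neg, abs_of_nonneg hv] at this) (-u) (by linarith)
        (by rwa [abs_of_nonpos h] at hu)
    rw [neg_neg] at this
    rwa [abs_of_nonpos h]

lemma hasDerivAt_path' (δ φ : ℝ) : HasDerivAt (fun x : ℝ => ((δ : ℂ) + x * I)) I φ := by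
  have h := ((hasDerivAt_id φ).ofReal_comp.mul_const I).const_add (δ : ℂ)
  simpa using h

lemma hasDerivAt_S_path (j : ℕ) {δ : ℝ} (hδ : 0 < δ) (φ : ℝ) :
    HasDerivAt (fun x : ℝ => S j ((δ : ℂ) + x * I)) (-(S (j + 1) ((δ : ℂ) + φ * I)) * I) φ := by
  have hre : 0 < ((δ : ℂ) + φ * I).re := by simpa using hδ
  have h := (hasDerivAt_S j hre).scomp φ (hasDerivAt_path' δ φ)
  refine h.congr_deriv ?_
  rw [smul_eq_mul, mul_comm]

lemma hasDerivAt_g_path {δ : ℝ} (hδ : 0 < δ) (φ : ℝ) :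
    HasDerivAt (fun x : ℝ => g ((δ : ℂ) + x * I)) (-(S 0 ((δ : ℂ) + φ * I)) * I) φ := by
  have hre : 0 < ((δ : ℂ) + φ * I).re := by simpa using hδ
  have h := (hasDerivAt_g hre).scomp φ (hasDerivAt_path' δ φ)
  refine h.congr_deriv ?_
  rw [smul_eq_mul, mul_comm]

/-- the exponent near the saddle point, divided by `t` -/
noncomputable def E1 (lam δ y u : ℝ) : ℂ :=
  I * (g ((δ : ℂ) + ((δ * y + u : ℝ) : ℂ) * I) - g ((δ : ℂ) + δ * y * I)) + lam * u * I

lemma cast_path (δ y : ℝ) : (δ : ℂ) + ((δ * y + 0 : ℝ) : ℂ) * I = (δ : ℂ) + δ * y * I := by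
  push_cast
  ring

lemma hasDerivAt_shift {f : ℝ → ℂ} {f' : ℂ} {c u : ℝ} (h : HasDerivAt f f' (c + u)) :
    HasDerivAt (fun x : ℝ => f (c + x)) f' u := by
  exact h.comp_const_add c u

lemma Sad.taylor {lam δ y z : ℝ} (h : Sad lam δ y z) {u : ℝ} (hu : |u| ≤ δ / 5) :
    ‖E1 lam δ y u + I * S 1 ((δ : ℂ) + δ * y * I) * (u : ℂ) ^ 2 / 2‖ ≤
      6.8 * rho δ y / δ / 6 * |u| ^ 3 := by
  have hδ := h.hδ
  set K := 6.8 * rho δ y / δ with hK
  -- third derivative bounded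
  have hS2 : ∀ u : ℝ, |u| ≤ δ / 5 → ‖S 2 ((δ : ℂ) + ((δ * y + u : ℝ) : ℂ) * I)‖ ≤ K := by
    intro u hu
    have := abs_le.1 hu
    exact h.S2_le (by linarith) (by linarith)
  -- second derivative
  have h1 := norm_le_of_deriv (a := δ / 5) (C := K) 0
    (f := fun x : ℝ => -I * (S 1 ((δ : ℂ) + ((δ * y + x : ℝ) : ℂ) * I) -
      S 1 ((δ : ℂ) + δ * y * I)))
    (f' := fun x : ℝ => -S 2 ((δ : ℂ) + ((δ * y + x : ℝ) : ℂ) * I))
    (fun x _ => by
      have := (((hasDerivAt_shift (hasDerivAt_S_path 1 hδ (δ * y + x))).sub_const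
        (S 1 ((δ : ℂ) + δ * y * I))).const_mul (-I))
      refine this.congr_deriv ?_
      linear_combination (S 2 ((δ : ℂ) + ((δ * y + x : ℝ) : ℂ) * I)) * Complex.I_sq)
    (by simp only [cast_path, sub_self, mul_zero])
    (fun x hx => by
      rw [norm_neg, pow_zero, mul_one]
      exact hS2 x hx)
  -- first derivative
  have h2 := norm_le_of_deriv (a := δ / 5) (C := K) 1
    (f := fun x : ℝ => (S 0 ((δ : ℂ) + ((δ * y + x : ℝ) : ℂ) * I) + lam * I) +
      I * S 1 ((δ : ℂ) + δ * y * I) * x)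
    (f' := fun x : ℝ => -I * (S 1 ((δ : ℂ) + ((δ * y + x : ℝ) : ℂ) * I) -
      S 1 ((δ : ℂ) + δ * y * I)))
    (fun x _ => by
      have a1 := (hasDerivAt_shift (hasDerivAt_S_path 0 hδ (δ * y + x))).add_const ((lam : ℂ) * I)
      have a2 := ((hasDerivAt_id x).ofReal_comp).const_mul (I * S 1 ((δ : ℂ) + δ * y * I))
      refine (a1.add a2).congr_deriv ?_
      simp
      ring)
    (by
      simp only [cast_path, h.hS]
      simp)
    (fun x hx => by
      have := h1 x hx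
      simpa using this)
  -- the function
  have h3 := norm_le_of_deriv (a := δ / 5) (C := K / 2) 2
    (f := fun x : ℝ => E1 lam δ y x + I * S 1 ((δ : ℂ) + δ * y * I) * (x : ℂ) ^ 2 / 2)
    (f' := fun x : ℝ => (S 0 ((δ : ℂ) + ((δ * y + x : ℝ) : ℂ) * I) + lam * I) +
      I * S 1 ((δ : ℂ) + δ * y * I) * x)
    (fun x _ => by
      have a1 := ((hasDerivAt_shift (hasDerivAt_g_path hδ (δ * y + x))).sub_const
        (g ((δ : ℂ) + δ * y * I))).const_mul I
      have a2 := (((hasDerivAt_id x).ofReal_comp).const_mul (lam : ℂ)).mul_const I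
      have a3 := (((hasDerivAt_id x).ofReal_comp.pow 2).const_mul
        (I * S 1 ((δ : ℂ) + δ * y * I))).div_const 2
      have a4 := (a1.add a2).add a3
      refine a4.congr_deriv ?_
      simp
      linear_combination (-S 0 ((δ : ℂ) + ((δ : ℂ) * y + x) * I)) * Complex.I_sq)
    (by
      simp only [E1, cast_path]
      simp)
    (fun x hx => by
      have := h2 x hx
      norm_num at this ⊢
      exact this)
  have := h3 u hu
  refine this.trans (le_of_eq ?_)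
  push_cast
  ring

lemma Sad.E1_re {lam δ y z : ℝ} (_ : Sad lam δ y z) (u : ℝ) :
    (E1 lam δ y u).re = (g ((δ : ℂ) + δ * y * I)).im -
      (g ((δ : ℂ) + ((δ * y + u : ℝ) : ℂ) * I)).im := by
  rw [E1]
  have : ((lam : ℂ) * u * I).re = 0 := by
    rw [← Complex.ofReal_mul, Complex.re_ofReal_mul, Complex.I_re, mul_zero]
  rw [Complex.add_re, this, Complex.I_mul_re, Complex.sub_im]
  ring

lemma Sad.E1_le {lam δ y z : ℝ} (h : Sad lam δ y z) {u : ℝ} (hu : |u| ≤ δ / 5) :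
    (E1 lam δ y u).re ≤ -(0.2733 * rho δ y) * u ^ 2 := by
  have h1 := h.taylor hu
  have hr := h.rho_pos
  have hδ := h.hδ
  have h2 := (Complex.re_le_norm _).trans h1
  have e : (I * S 1 ((δ : ℂ) + δ * y * I) * (u : ℂ) ^ 2 / 2).re = rho δ y * u ^ 2 / 2 := by
    rw [show I * S 1 ((δ : ℂ) + δ * y * I) * (u : ℂ) ^ 2 / 2 =
      ((u ^ 2 / 2 : ℝ) : ℂ) * (I * S 1 ((δ : ℂ) + δ * y * I)) by push_cast; ring,
      Complex.re_ofReal_mul, Complex.I_mul_re, rho]
    ring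
  rw [Complex.add_re, e] at h2
  have h3 : 6.8 * rho δ y / δ / 6 * |u| ^ 3 ≤ 6.8 / 30 * rho δ y * u ^ 2 := by
    calc 6.8 * rho δ y / δ / 6 * |u| ^ 3 = 6.8 * rho δ y / δ / 6 * |u| ^ 2 * |u| := by ring
      _ ≤ 6.8 * rho δ y / δ / 6 * |u| ^ 2 * (δ / 5) := by gcongr
      _ = 6.8 / 30 * rho δ y * |u| ^ 2 := by field_simp; ring
      _ = _ := by rw [sq_abs]
  have h4 : 0 ≤ rho δ y * u ^ 2 := by positivity
  linarith

end Pool.Agent.T6.H86.DA
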