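import Pool.Agent.T6.H86.DA.Saddle

/-!
# Estimates at the saddle point
-/

set_option autoImplicit false

namespace Pool.Agent.T6.H86.DA

open scoped ArithmeticFunction.sigma Real
open Complex

/-- `x ^ k * exp (-x)` is decreasing for `x ≥ k` -/
lemma pow_mul_exp_neg_le (k : ℕ) {c x : ℝ} (hk : (k : ℝ) ≤ c) (hc : 0 < c) (hx : c ≤ x) :
    x ^ k * Real.exp (-x) ≤ c ^ k * Real.exp (-c) := by
  have h1 : (x / c) ^ k ≤ Real.exp (x - c) := by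
    have h2 : x / c ≤ Real.exp (x / c - 1) := by
      have := Real.add_one_le_exp (x / c - 1)
      linarith
    have hx0 : 0 ≤ x / c := div_nonneg (hc.le.trans hx) hc.le
    calc (x / c) ^ k ≤ Real.exp (x / c - 1) ^ k := by gcongr
      _ = Real.exp (k * (x / c - 1)) := by rw [← Real.exp_nat_mul]
      _ ≤ Real.exp (x - c) := by
        apply Real.exp_le_exp.2
        have h3 : x / c - 1 = (x - c) / c := by field_simp
        rw [h3, mul_div_assoc', div_le_iff₀ hc]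
        nlinarith
  rw [div_pow, div_le_iff₀ (by positivity)] at h1
  have h4 : Real.exp (-x) = Real.exp (-(x - c)) * Real.exp (-c) := by
    rw [← Real.exp_add]; ring_nf
  rw [h4]
  have h5 : Real.exp (x - c) * Real.exp (-(x - c)) = 1 := by
    rw [← Real.exp_add]; simp
  calc x ^ k * (Real.exp (-(x - c)) * Real.exp (-c))
      ≤ (Real.exp (x - c) * c ^ k) * (Real.exp (-(x - c)) * Real.exp (-c)) := by gcongr
    _ = c ^ k * Real.exp (-c) * (Real.exp (x - c) * Real.exp (-(x - c))) := by ring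
    _ = c ^ k * Real.exp (-c) := by rw [h5, mul_one]

lemma exp_neg_nat (n : ℕ) : Real.exp (-(n : ℝ)) ≤ (0.36788 : ℝ) ^ n := by
  have h : Real.exp (-1) ≤ 0.36788 := by
    have := Real.exp_neg_one_lt_d9
    linarith
  calc Real.exp (-(n : ℝ)) = Real.exp (-1) ^ n := by rw [← Real.exp_nat_mul]; ring_nf
    _ ≤ _ := by gcongr

/-- the data of the saddle point -/
structure Sad (lam δ y z : ℝ) : Prop where
  hδ : 0 < δ
  hy : 0 < y
  hz : z = δ * (1 + y ^ 2)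
  hz2 : z ≤ 2.77
  hS : S 0 (δ + δ * y * I) = -(lam * I)

lemma Sad.z_pos {lam δ y z : ℝ} (h : Sad lam δ y z) : 0 < z := by
  have := h.hδ
  rw [h.hz]; positivity

lemma Sad.re {lam δ y z : ℝ} (_ : Sad lam δ y z) : ((δ : ℂ) + δ * y * I).re = δ := by
  simp

lemma Sad.inv {lam δ y z : ℝ} (h : Sad lam δ y z) :
    ((δ : ℂ) + δ * y * I)⁻¹ = (1 - y * I) / z := by
  have hδ := h.hδ
  have hδ0 : (δ : ℂ) ≠ 0 := by exact_mod_cast hδ.ne'
  have h1 : (δ : ℂ) + δ * y * I ≠ 0 := ne_zero_of_re (by rw [h.re]; exact hδ)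
  have hz : (z : ℂ) ≠ 0 := by exact_mod_cast h.z_pos.ne'
  have hzc : (z : ℂ) = δ * (1 + y ^ 2) := by rw [h.hz]; push_cast; ring
  rw [inv_eq_one_div, div_eq_div_iff h1 hz, hzc]
  ring_nf
  rw [Complex.I_sq]
  ring

lemma Sad.W_eq {lam δ y z : ℝ} (h : Sad lam δ y z) :
    W ((δ : ℂ) + δ * y * I) = 4 * π ^ 2 * ((1 - y * I) / z) := by
  rw [W, div_eq_mul_inv, h.inv]

lemma Sad.W_re {lam δ y z : ℝ} (h : Sad lam δ y z) :
    (W ((δ : ℂ) + δ * y * I)).re = 4 * π ^ 2 / z := by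
  rw [h.W_eq, four_pisq_mul_re, Complex.div_ofReal_re]
  simp
  ring

lemma Sad.W_re_ge {lam δ y z : ℝ} (h : Sad lam δ y z) : 14 ≤ 4 * π ^ 2 / z := by
  have h1 := pisq_lo
  have h2 := h.hz2
  rw [le_div_iff₀ h.z_pos]
  nlinarith

/-- `‖S j (W s₀)‖` is tiny -/
lemma Sad.SW {lam δ y z : ℝ} (h : Sad lam δ y z) (j : ℕ) (hj : j ≤ 2) :
    ‖S j (W ((δ : ℂ) + δ * y * I))‖ ≤ 1.001 * Real.exp (-(4 * π ^ 2 / z)) := by
  have h14 := h.W_re_ge
  have hpos : 0 < (W ((δ : ℂ) + δ * y * I)).re := by rw [h.W_re]; linarith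
  have he : Real.exp (-(4 * π ^ 2 / z)) ≤ 0.36788 ^ 14 := by
    refine (Real.exp_le_exp.2 ?_).trans (exp_neg_nat 14)
    push_cast; linarith
  have hp : (2 : ℝ) ^ (j + 2) ≤ 16 := by
    calc (2 : ℝ) ^ (j + 2) ≤ 2 ^ 4 := by
          apply pow_le_pow_right₀ (by norm_num); omega
      _ = 16 := by norm_num
  have he0 := Real.exp_pos (-(4 * π ^ 2 / z))
  have hs : (2 : ℝ) ^ (j + 2) * Real.exp (-(4 * π ^ 2 / z)) ≤ 16 * 0.36788 ^ 14 := by
    gcongr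
  have hs2 : (16 : ℝ) * 0.36788 ^ 14 < 0.0005 := by norm_num
  have hb := norm_S_bound j hpos (by rw [h.W_re]; linarith)
  rw [h.W_re] at hb
  refine hb.trans ?_
  rw [div_le_iff₀ (by linarith)]
  nlinarith

/-- the modular transformation at the saddle point, multiplied by `z ^ 2` -/
lemma Sad.S0_eq {lam δ y z : ℝ} (h : Sad lam δ y z) :
    -(lam * I) * z ^ 2 = π ^ 2 / 6 * (1 - y * I) ^ 2 - z * (1 - y * I) / 2 + z ^ 2 / 24 -
      4 * π ^ 2 * (1 - y * I) ^ 2 * S 0 (W ((δ : ℂ) + δ * y * I)) := by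
  have hδ := h.hδ
  have hre : 0 < ((δ : ℂ) + δ * y * I).re := by rw [h.re]; exact hδ
  have h1 := S0_modular hre
  rw [h.hS] at h1
  have hz : (z : ℂ) ≠ 0 := by exact_mod_cast h.z_pos.ne'
  set s := (δ : ℂ) + δ * y * I with hs
  have e1 : (π : ℂ) ^ 2 / (6 * s ^ 2) = π ^ 2 / 6 * (s⁻¹) ^ 2 := by
    have := ne_zero_of_re hre
    field_simp
  have e2 : 1 / (2 * s) = s⁻¹ / 2 := by
    have := ne_zero_of_re hre
    field_simp
  have e3 : 4 * (π : ℂ) ^ 2 / s ^ 2 = 4 * π ^ 2 * (s⁻¹) ^ 2 := by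
    have := ne_zero_of_re hre
    field_simp
  rw [e1, e2, e3, h.inv] at h1
  rw [h1]
  field_simp

lemma Sad.norm_v_sq {lam δ y z : ℝ} (_ : Sad lam δ y z) : ‖(1 - (y : ℂ) * I)‖ ^ 2 = 1 + y ^ 2 := by
  rw [Complex.sq_norm, Complex.normSq_apply]
  simp
  ring

lemma Sad.xexp {lam δ y z : ℝ} (h : Sad lam δ y z) :
    Real.exp (-(4 * π ^ 2 / z)) ≤ 3e-7 * z := by
  have h14 := h.W_re_ge
  have hz := h.z_pos
  have h1 := pow_mul_exp_neg_le 1 (c := 14) (x := 4 * π ^ 2 / z) (by norm_num) (by norm_num) h14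
  rw [pow_one, pow_one] at h1
  have h2 := exp_neg_nat 14
  push_cast at h2
  have h3 : 4 * π ^ 2 / z * Real.exp (-(4 * π ^ 2 / z)) ≤ 14 * 0.36788 ^ 14 := by linarith
  rw [div_mul_eq_mul_div, div_le_iff₀ hz] at h3
  have hlo := pisq_lo
  have he := Real.exp_pos (-(4 * π ^ 2 / z))
  have h4 : 39.4784 * Real.exp (-(4 * π ^ 2 / z)) ≤ 4 * π ^ 2 * Real.exp (-(4 * π ^ 2 / z)) := by
    gcongr
    linarith
  have h5 : (14 : ℝ) * 0.36788 ^ 14 ≤ 39.4784 * 3e-7 := by norm_num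
  nlinarith

/-- the tiny term -/
lemma Sad.e0 {lam δ y z : ℝ} (h : Sad lam δ y z) :
    ‖4 * (π : ℂ) ^ 2 * (1 - y * I) ^ 2 * S 0 (W ((δ : ℂ) + δ * y * I))‖ ≤
      1.2e-5 * (1 + y ^ 2) * z := by
  have h1 := h.SW 0 (by norm_num)
  have h2 := h.xexp
  have hhi := pisq_hi
  have hn : ‖4 * (π : ℂ) ^ 2 * (1 - y * I) ^ 2‖ = 4 * π ^ 2 * (1 + y ^ 2) := by
    rw [norm_mul, norm_mul, norm_pow, norm_pow, h.norm_v_sq, Complex.norm_real, Real.norm_eq_abs,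
      abs_of_pos Real.pi_pos]
    norm_num
  rw [norm_mul, hn]
  have hz := h.z_pos
  calc 4 * π ^ 2 * (1 + y ^ 2) * ‖S 0 (W ((δ : ℂ) + δ * y * I))‖
      ≤ 4 * 9.8697 * (1 + y ^ 2) * (1.001 * (3e-7 * z)) := by
        gcongr
        exact h1.trans (by gcongr)
    _ ≤ _ := by nlinarith [mul_pos (show (0:ℝ) < 1 + y ^ 2 by positivity) hz]

lemma Sad.re_eq {lam δ y z : ℝ} (h : Sad lam δ y z) :
    |π ^ 2 / 6 * (1 - y ^ 2) - z / 2 + z ^ 2 / 24| ≤ 1.2e-5 * (1 + y ^ 2) * z := by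
  have h1 := congrArg Complex.re h.S0_eq
  have h2 := h.e0
  set e := 4 * (π : ℂ) ^ 2 * (1 - y * I) ^ 2 * S 0 (W ((δ : ℂ) + δ * y * I)) with he
  have e1 : (π : ℂ) ^ 2 / 6 * (1 - y * I) ^ 2 - z * (1 - y * I) / 2 + z ^ 2 / 24 =
      ((π ^ 2 / 6 * (1 - y ^ 2) - z / 2 + z ^ 2 / 24 : ℝ) : ℂ) +
      ((-(π ^ 2 / 3 * y) + z * y / 2 : ℝ) : ℂ) * I := by
    push_cast
    ring_nf
    rw [Complex.I_sq]
    ring
  rw [e1] at h1
  have e2 : (-(lam * I) * (z : ℂ) ^ 2).re = 0 := by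
    rw [show (-(lam * I) * (z : ℂ) ^ 2) = ((-(lam * z ^ 2) : ℝ) : ℂ) * I by push_cast; ring,
      Complex.re_ofReal_mul, Complex.I_re, mul_zero]
  rw [e2, Complex.sub_re, Complex.add_re, Complex.ofReal_re, Complex.re_ofReal_mul, Complex.I_re,
    mul_zero, add_zero] at h1
  have h3 : π ^ 2 / 6 * (1 - y ^ 2) - z / 2 + z ^ 2 / 24 = e.re := by linarith
  rw [h3]
  exact (Complex.abs_re_le_norm e).trans h2

lemma Sad.im_eq {lam δ y z : ℝ} (h : Sad lam δ y z) :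
    |lam * z ^ 2 - (π ^ 2 / 3 * y - z * y / 2)| ≤ 1.2e-5 * (1 + y ^ 2) * z := by
  have h1 := congrArg Complex.im h.S0_eq
  have h2 := h.e0
  set e := 4 * (π : ℂ) ^ 2 * (1 - y * I) ^ 2 * S 0 (W ((δ : ℂ) + δ * y * I)) with he
  have e1 : (π : ℂ) ^ 2 / 6 * (1 - y * I) ^ 2 - z * (1 - y * I) / 2 + z ^ 2 / 24 =
      ((π ^ 2 / 6 * (1 - y ^ 2) - z / 2 + z ^ 2 / 24 : ℝ) : ℂ) +
      ((-(π ^ 2 / 3 * y) + z * y / 2 : ℝ) : ℂ) * I := by
    push_cast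
    ring_nf
    rw [Complex.I_sq]
    ring
  rw [e1] at h1
  have e2 : (-(lam * I) * (z : ℂ) ^ 2).im = -(lam * z ^ 2) := by
    rw [show (-(lam * I) * (z : ℂ) ^ 2) = ((-(lam * z ^ 2) : ℝ) : ℂ) * I by push_cast; ring,
      Complex.im_ofReal_mul, Complex.I_im, mul_one]
  rw [e2, Complex.sub_im, Complex.add_im, Complex.ofReal_im, Complex.im_ofReal_mul, Complex.I_im,
    mul_one, zero_add] at h1
  have h3 : lam * z ^ 2 - (π ^ 2 / 3 * y - z * y / 2) = e.im := by linarith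
  rw [h3]
  exact (Complex.abs_im_le_norm e).trans h2

lemma Sad.y_lt_one {lam δ y z : ℝ} (h : Sad lam δ y z) : y < 1 := by
  have h1 := (abs_le.1 h.re_eq).2
  have h2 := (abs_le.1 h.re_eq).1
  have hlo := pisq_lo
  have hz := h.z_pos
  have hz2 := h.hz2
  have hy := h.hy
  by_contra hcon
  push Not at hcon
  have h3 : π ^ 2 / 6 * (1 - y ^ 2) ≤ 1.6 * (1 - y ^ 2) :=
    mul_le_mul_of_nonpos_right (by linarith) (by nlinarith)
  have h4 : z / 2 - z ^ 2 / 24 ≥ 0.38 * z := by nlinarith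
  have h5 : 1.2e-5 * (1 + y ^ 2) * z ≤ 1.2e-5 * (1 + y ^ 2) * 2.77 := by gcongr
  nlinarith

lemma Sad.rel {lam δ y z : ℝ} (h : Sad lam δ y z) :
    |π ^ 2 / 6 * (1 - y ^ 2) - z / 2 + z ^ 2 / 24| ≤ 3e-5 * z := by
  refine h.re_eq.trans ?_
  have := h.y_lt_one
  have := h.hy
  have hz := h.z_pos
  have : y ^ 2 ≤ 1 := by nlinarith
  nlinarith

/-- bounds for `z` in terms of `y` -/
lemma Sad.z_le {lam δ y z : ℝ} (h : Sad lam δ y z) : z ≤ 4.278 * (1 - y ^ 2) := by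
  have h1 := (abs_le.1 h.rel).1
  have h1' := (abs_le.1 h.rel).2
  have hhi := pisq_hi
  have hz := h.z_pos
  have hz2 := h.hz2
  have hy1 := h.y_lt_one
  have hy := h.hy
  have : π ^ 2 / 6 * (1 - y ^ 2) ≤ 9.8697 / 6 * (1 - y ^ 2) := by
    have : 0 ≤ 1 - y ^ 2 := by nlinarith
    gcongr
  nlinarith

lemma Sad.z_ge {lam δ y z : ℝ} (h : Sad lam δ y z) : 3.289 * (1 - y ^ 2) ≤ z := by
  have h1 := (abs_le.1 h.rel).2
  have hlo := pisq_lo
  have hz := h.z_pos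
  have hy1 := h.y_lt_one
  have hy := h.hy
  have : 9.8696 / 6 * (1 - y ^ 2) ≤ π ^ 2 / 6 * (1 - y ^ 2) := by
    have : 0 ≤ 1 - y ^ 2 := by nlinarith
    gcongr
  nlinarith

lemma Sad.y_ge {lam δ y z : ℝ} (h : Sad lam δ y z) : 0.593 ≤ y := by
  have h1 := (abs_le.1 h.rel).2
  have hlo := pisq_lo
  have hz := h.z_pos
  have hz2 := h.hz2
  have hy1 := h.y_lt_one
  have hy := h.hy
  by_contra hcon
  push Not at hcon
  have h2 : 9.8696 / 6 * (1 - y ^ 2) ≤ π ^ 2 / 6 * (1 - y ^ 2) := by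
    have : 0 ≤ 1 - y ^ 2 := by nlinarith
    gcongr
  have h3 : z / 2 - z ^ 2 / 24 + 3e-5 * z ≤ 2.77 / 2 - 2.77 ^ 2 / 24 + 3e-5 * 2.77 := by nlinarith
  nlinarith

end Pool.Agent.T6.H86.DA
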