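import Pool.Agent.T6.H86.DA.Est
import Pool.Agent.T6.H86.DA.Poly

/-!
# Estimates of the second and third derivative near the saddle point
-/

set_option autoImplicit false

namespace Pool.Agent.T6.H86.DA

open scoped ArithmeticFunction.sigma Real
open Complex

/-- the correction term of the second derivative -/
noncomputable def T1 (δ y z : ℝ) : ℂ :=
  16 * π ^ 4 * (1 - y * I) ^ 4 / z * S 1 (W ((δ : ℂ) + δ * y * I)) -
    8 * π ^ 2 * (1 - y * I) ^ 3 * S 0 (W ((δ : ℂ) + δ * y * I))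

lemma Sad.S1_eq {lam δ y z : ℝ} (h : Sad lam δ y z) :
    (z : ℂ) ^ 3 * S 1 ((δ : ℂ) + δ * y * I) =
      π ^ 2 / 3 * (1 - y * I) ^ 3 - z * (1 - y * I) ^ 2 / 2 + T1 δ y z := by
  have hδ := h.hδ
  have hre : 0 < ((δ : ℂ) + δ * y * I).re := by rw [h.re]; exact hδ
  have h1 := S1_modular hre
  have hz : (z : ℂ) ≠ 0 := by exact_mod_cast h.z_pos.ne'
  have hinv := h.inv
  rw [T1]
  set s := (δ : ℂ) + δ * y * I with hs
  have hs0 := ne_zero_of_re hre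
  have e1 : (π : ℂ) ^ 2 / (3 * s ^ 3) = π ^ 2 / 3 * (s⁻¹) ^ 3 := by field_simp
  have e2 : 1 / (2 * s ^ 2) = (s⁻¹) ^ 2 / 2 := by field_simp
  have e3 : 8 * (π : ℂ) ^ 2 / s ^ 3 = 8 * π ^ 2 * (s⁻¹) ^ 3 := by field_simp
  have e4 : 16 * (π : ℂ) ^ 4 / s ^ 4 = 16 * π ^ 4 * (s⁻¹) ^ 4 := by field_simp
  rw [e1, e2, e3, e4, hinv] at h1
  rw [h1]
  field_simp
  ring

lemma Sad.norm_v {lam δ y z : ℝ} (h : Sad lam δ y z) : ‖(1 - (y : ℂ) * I)‖ ≤ 1.5 := by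
  have h1 := h.norm_v_sq
  have h2 := h.y_lt_one
  have h3 := h.hy
  by_contra hcon
  push Not at hcon
  nlinarith [norm_nonneg (1 - (y : ℂ) * I)]

lemma Sad.T1_le {lam δ y z : ℝ} (h : Sad lam δ y z) : ‖T1 δ y z‖ ≤ 0.0021 := by
  have hz := h.z_pos
  have hy1 := h.y_lt_one
  have hy := h.hy
  have hhi := pisq_hi
  have hpp : (0 : ℝ) < π ^ 2 := by positivity
  have hv := h.norm_v
  have hv2 := h.norm_v_sq
  have h0 := h.SW 0 (by norm_num)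
  have h1 := h.SW 1 (by norm_num)
  have hx := h.xexp
  have he14 : Real.exp (-(4 * π ^ 2 / z)) ≤ 0.36788 ^ 14 := by
    refine (Real.exp_le_exp.2 ?_).trans (exp_neg_nat 14)
    push_cast; linarith [h.W_re_ge]
  have he0 := Real.exp_pos (-(4 * π ^ 2 / z))
  set e := Real.exp (-(4 * π ^ 2 / z)) with hedef
  set s1 := S 1 (W ((δ : ℂ) + δ * y * I))
  set s0 := S 0 (W ((δ : ℂ) + δ * y * I))
  have hv4 : ‖(1 - (y : ℂ) * I)‖ ^ 4 ≤ 4 := by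
    have : ‖(1 - (y : ℂ) * I)‖ ^ 4 = (‖(1 - (y : ℂ) * I)‖ ^ 2) ^ 2 := by ring
    rw [this, hv2]
    have hy2 : 1 + y ^ 2 ≤ 2 := by nlinarith
    calc (1 + y ^ 2) ^ 2 ≤ 2 ^ 2 := by gcongr
      _ = 4 := by norm_num
  have hv3 : ‖(1 - (y : ℂ) * I)‖ ^ 3 ≤ 3 := by
    have : ‖(1 - (y : ℂ) * I)‖ ^ 3 = (‖(1 - (y : ℂ) * I)‖ ^ 2) * ‖(1 - (y : ℂ) * I)‖ := by ring
    rw [this, hv2]
    have := norm_nonneg (1 - (y : ℂ) * I)
    nlinarith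
  have hnpi : ‖(π : ℂ)‖ = π := by
    rw [Complex.norm_real, Real.norm_eq_abs, abs_of_pos Real.pi_pos]
  have ha : ‖16 * (π : ℂ) ^ 4 * (1 - y * I) ^ 4 / z * s1‖ ≤ 0.00189 := by
    have hn : ‖16 * (π : ℂ) ^ 4 * (1 - y * I) ^ 4 / z * s1‖ =
        16 * (π ^ 2) ^ 2 * ‖(1 - (y : ℂ) * I)‖ ^ 4 / z * ‖s1‖ := by
      rw [norm_mul, norm_div, norm_mul, norm_mul, norm_pow, norm_pow, hnpi, Complex.norm_real,
        Real.norm_eq_abs, abs_of_pos hz, show ‖(16 : ℂ)‖ = 16 by norm_num]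
      ring
    rw [hn, div_mul_eq_mul_div, div_le_iff₀ hz]
    calc 16 * (π ^ 2) ^ 2 * ‖(1 - (y : ℂ) * I)‖ ^ 4 * ‖s1‖
        ≤ 16 * (9.8697) ^ 2 * 4 * (1.001 * (3e-7 * z)) := by
          gcongr
          exact h1.trans (by gcongr)
      _ ≤ 0.00189 * z := by nlinarith
  have hb : ‖8 * (π : ℂ) ^ 2 * (1 - y * I) ^ 3 * s0‖ ≤ 0.0002 := by
    have hn : ‖8 * (π : ℂ) ^ 2 * (1 - y * I) ^ 3 * s0‖ =
        8 * π ^ 2 * ‖(1 - (y : ℂ) * I)‖ ^ 3 * ‖s0‖ := by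
      rw [norm_mul, norm_mul, norm_mul, norm_pow, norm_pow, hnpi, show ‖(8 : ℂ)‖ = 8 by norm_num]
    rw [hn]
    calc 8 * π ^ 2 * ‖(1 - (y : ℂ) * I)‖ ^ 3 * ‖s0‖
        ≤ 8 * 9.8697 * 3 * (1.001 * 0.36788 ^ 14) := by
          gcongr
          exact h0.trans (by gcongr)
      _ ≤ 0.0002 := by norm_num
  rw [T1]
  refine (norm_sub_le _ _).trans ?_
  linarith

/-- `ρ = - Im S 1 s₀` -/
noncomputable def rho (δ y : ℝ) : ℝ := -(S 1 ((δ : ℂ) + δ * y * I)).im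

lemma Sad.main_split {lam δ y z : ℝ} (_ : Sad lam δ y z) :
    (π : ℂ) ^ 2 / 3 * (1 - y * I) ^ 3 - z * (1 - y * I) ^ 2 / 2 =
      ((π ^ 2 / 3 * (1 - 3 * y ^ 2) - z * (1 - y ^ 2) / 2 : ℝ) : ℂ) +
      ((-(π ^ 2 / 3 * (y * (3 - y ^ 2)) - z * y) : ℝ) : ℂ) * I := by
  push_cast
  have h3 : (1 - (y : ℂ) * I) ^ 3 = (1 - 3 * y ^ 2) - (y * (3 - y ^ 2)) * I := by
    ring_nf
    rw [Complex.I_sq, Complex.I_pow_three]
    ring
  have h2 : (1 - (y : ℂ) * I) ^ 2 = (1 - y ^ 2) - 2 * y * I := by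
    ring_nf
    rw [Complex.I_sq]
    ring
  rw [h3, h2]
  ring

lemma Sad.re1 {lam δ y z : ℝ} (h : Sad lam δ y z) :
    |z ^ 3 * (S 1 ((δ : ℂ) + δ * y * I)).re -
      (π ^ 2 / 3 * (1 - 3 * y ^ 2) - z * (1 - y ^ 2) / 2)| ≤ 0.0021 := by
  have h1 := congrArg Complex.re h.S1_eq
  rw [h.main_split] at h1
  have e1 : ((z : ℂ) ^ 3 * S 1 ((δ : ℂ) + δ * y * I)).re =
      z ^ 3 * (S 1 ((δ : ℂ) + δ * y * I)).re := by
    rw [← Complex.ofReal_pow, Complex.re_ofReal_mul]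
  rw [e1, Complex.add_re, Complex.add_re, Complex.ofReal_re, Complex.re_ofReal_mul, Complex.I_re,
    mul_zero, add_zero] at h1
  rw [h1]
  have := (Complex.abs_re_le_norm (T1 δ y z)).trans h.T1_le
  simpa using this

lemma Sad.im1 {lam δ y z : ℝ} (h : Sad lam δ y z) :
    |z ^ 3 * rho δ y - (π ^ 2 / 3 * (y * (3 - y ^ 2)) - z * y)| ≤ 0.0021 := by
  have h1 := congrArg Complex.im h.S1_eq
  rw [h.main_split] at h1
  have e1 : ((z : ℂ) ^ 3 * S 1 ((δ : ℂ) + δ * y * I)).im =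
      z ^ 3 * (S 1 ((δ : ℂ) + δ * y * I)).im := by
    rw [← Complex.ofReal_pow, Complex.im_ofReal_mul]
  rw [e1, Complex.add_im, Complex.add_im, Complex.ofReal_im, Complex.im_ofReal_mul, Complex.I_im,
    mul_one, zero_add] at h1
  have h2 := (Complex.abs_im_le_norm (T1 δ y z)).trans h.T1_le
  rw [rho, mul_neg, h1]
  rw [show -(-(π ^ 2 / 3 * (y * (3 - y ^ 2)) - z * y) + (T1 δ y z).im) -
    (π ^ 2 / 3 * (y * (3 - y ^ 2)) - z * y) = -(T1 δ y z).im by ring, abs_neg]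
  exact h2

/-- lower bound for `R3 = z ^ 3 * ρ` -/
lemma Sad.R3_ge {lam δ y z : ℝ} (h : Sad lam δ y z) :
    9.8696 / 3 * (y * (3 - y ^ 2)) - 4.278 * ((1 - y ^ 2) * y) - 0.0021 ≤ z ^ 3 * rho δ y := by
  have h1 := (abs_le.1 h.im1).1
  have hlo := pisq_lo
  have hz := h.z_le
  have hy := h.hy
  have hy1 := h.y_lt_one
  have h2 : 9.8696 / 3 * (y * (3 - y ^ 2)) ≤ π ^ 2 / 3 * (y * (3 - y ^ 2)) := by
    have : 0 ≤ y * (3 - y ^ 2) := mul_nonneg hy.le (by nlinarith)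
    gcongr
  have h3 : z * y ≤ 4.278 * ((1 - y ^ 2) * y) := by
    rw [← mul_assoc]
    gcongr
  linarith

lemma Sad.R3_ge' {lam δ y z : ℝ} (h : Sad lam δ y z) : 3.4 ≤ z ^ 3 * rho δ y := by
  refine le_trans ?_ h.R3_ge
  have hy := h.y_ge
  have hy1 := h.y_lt_one
  nlinarith [mul_nonneg (sub_nonneg.2 hy) (sub_nonneg.2 hy), pow_pos h.hy 3, pow_pos h.hy 2]

lemma Sad.R3_le {lam δ y z : ℝ} (h : Sad lam δ y z) :
    z ^ 3 * rho δ y ≤ 9.8697 / 3 * (y * (3 - y ^ 2)) - 3.289 * ((1 - y ^ 2) * y) + 0.0021 := by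
  have h1 := (abs_le.1 h.im1).2
  have hhi := pisq_hi
  have hz := h.z_ge
  have hy := h.hy
  have hy1 := h.y_lt_one
  have h2 : π ^ 2 / 3 * (y * (3 - y ^ 2)) ≤ 9.8697 / 3 * (y * (3 - y ^ 2)) := by
    have : 0 ≤ y * (3 - y ^ 2) := mul_nonneg hy.le (by nlinarith)
    gcongr
  have h3 : 3.289 * ((1 - y ^ 2) * y) ≤ z * y := by
    rw [← mul_assoc]
    gcongr
  linarith

lemma Sad.rho_pos {lam δ y z : ℝ} (h : Sad lam δ y z) : 0 < rho δ y := by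
  have h1 := h.R3_ge'
  have hz : 0 < z ^ 3 := pow_pos h.z_pos 3
  by_contra hcon
  push Not at hcon
  nlinarith

/-- the imaginary part dominates -/
lemma Sad.norm_S1 {lam δ y z : ℝ} (h : Sad lam δ y z) :
    0.69 * ‖S 1 ((δ : ℂ) + δ * y * I)‖ ≤ rho δ y := by
  have hr := h.rho_pos
  have hy := h.y_ge
  have hy1 := h.y_lt_one
  have hz := h.z_pos
  have hzle := h.z_le
  have hlo := pisq_lo
  have hhi := pisq_hi
  have hR := h.R3_ge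
  have hR' := h.R3_ge'
  have hre1 := (abs_le.1 h.re1).1
  have hre2 := (abs_le.1 h.re1).2
  have hp := poly1 hy hy1.le
  have hz3 : 0 < z ^ 3 := pow_pos hz 3
  set M := z ^ 3 * (S 1 ((δ : ℂ) + δ * y * I)).re with hM
  set R := z ^ 3 * rho δ y with hRdef
  -- upper bound of M
  have hM1 : M ≤ 1.0488 * R := by
    have : π ^ 2 / 3 * (1 - 3 * y ^ 2) ≤ 0 := by
      apply mul_nonpos_of_nonneg_of_nonpos (by positivity)
      nlinarith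
    have : 0 ≤ z * (1 - y ^ 2) / 2 := by
      have : 0 ≤ 1 - y ^ 2 := by nlinarith
      positivity
    linarith
  have hM2 : -(1.0488 * R) ≤ M := by
    have e1 : 0 ≤ (π ^ 2 - 9.8696) / 3 * (1.0488 * (y * (3 - y ^ 2)) + (1 - 3 * y ^ 2)) := by
      apply mul_nonneg (by linarith)
      have : 0 ≤ (1 - y) * (y - 0.593) := mul_nonneg (by linarith) (by linarith)
      have h3 : y ^ 3 ≤ y ^ 2 := by nlinarith [mul_pos h.hy h.hy]
      nlinarith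
    have e2 : 0 ≤ (4.278 * (1 - y ^ 2) - z) * (0.5 * (1 - y ^ 2) + 1.0488 * y) := by
      apply mul_nonneg (by linarith)
      have : 0 ≤ 1 - y ^ 2 := by nlinarith
      have := h.hy
      positivity
    have him := (abs_le.1 h.im1).1
    nlinarith
  have hsq : M ^ 2 ≤ 1.1 * R ^ 2 := by
    have : M ^ 2 ≤ (1.0488 * R) ^ 2 := sq_le_sq' hM2 hM1
    nlinarith
  have hn : ‖S 1 ((δ : ℂ) + δ * y * I)‖ ^ 2 =
      (S 1 ((δ : ℂ) + δ * y * I)).re ^ 2 + rho δ y ^ 2 := by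
    rw [Complex.sq_norm, Complex.normSq_apply, rho]
    ring
  have hn2 : (0.69 * ‖S 1 ((δ : ℂ) + δ * y * I)‖) ^ 2 ≤ rho δ y ^ 2 := by
    have e : (S 1 ((δ : ℂ) + δ * y * I)).re ^ 2 ≤ 1.1 * rho δ y ^ 2 := by
      have : (z ^ 3) ^ 2 * (S 1 ((δ : ℂ) + δ * y * I)).re ^ 2 ≤
          (z ^ 3) ^ 2 * (1.1 * rho δ y ^ 2) := by
        rw [hM, hRdef] at hsq
        nlinarith
      exact le_of_mul_le_mul_left this (by positivity)
    rw [mul_pow, hn]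
    nlinarith
  exact le_of_sq_le_sq hn2 hr.le

lemma Sad.lam_le {lam δ y z : ℝ} (h : Sad lam δ y z) {c : ℝ} (hc : c ≤ z) :
    lam * z ^ 2 ≤ 9.8697 / 3 * y - c / 2 * y + 0.0001 := by
  have h1 := (abs_le.1 h.im_eq).2
  have hhi := pisq_hi
  have hy := h.hy
  have hy1 := h.y_lt_one
  have hz2 := h.hz2
  have hz := h.z_pos
  have h2 : π ^ 2 / 3 * y ≤ 9.8697 / 3 * y := by gcongr
  have h3 : 1.2e-5 * (1 + y ^ 2) * z ≤ 0.0001 := by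
    have : y ^ 2 ≤ 1 := by nlinarith
    have : (1 + y ^ 2) * z ≤ 2 * 2.77 := by
      apply mul_le_mul (by linarith) hz2 hz.le (by norm_num)
    nlinarith
  nlinarith

/-- the scaled quantity `ρ δ ^ 2` -/
lemma Sad.rho_sq {lam δ y z : ℝ} (h : Sad lam δ y z) {k : ℝ}
    (hk : k * ((1 + y ^ 2) ^ 4 * (lam * z ^ 2)) ≤ (z ^ 3 * rho δ y) ^ 2) :
    k * lam ≤ (rho δ y * δ ^ 2) ^ 2 := by
  have hz := h.z_pos
  have hpos : 0 < (1 + y ^ 2) ^ 4 * z ^ 2 := by positivity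
  have e : (z ^ 3 * rho δ y) ^ 2 = (rho δ y * δ ^ 2) ^ 2 * ((1 + y ^ 2) ^ 4 * z ^ 2) := by
    rw [h.hz]; ring
  rw [e] at hk
  refine le_of_mul_le_mul_right ?_ hpos
  calc k * lam * ((1 + y ^ 2) ^ 4 * z ^ 2) = k * ((1 + y ^ 2) ^ 4 * (lam * z ^ 2)) := by ring
    _ ≤ _ := hk

lemma Sad.rho_sq1 {lam δ y z : ℝ} (h : Sad lam δ y z) :
    0.7921 * lam ≤ (rho δ y * δ ^ 2) ^ 2 := by
  apply h.rho_sq
  have hy := h.y_ge
  have hy1 := h.y_lt_one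
  have hp := poly3 hy hy1.le
  have hl := h.lam_le h.z_ge
  have hR := h.R3_ge
  have hR0 : 0 ≤ 9.8696 / 3 * (y * (3 - y ^ 2)) - 4.278 * ((1 - y ^ 2) * y) - 0.0021 := by
    nlinarith [pow_pos h.hy 3, pow_pos h.hy 2]
  have h1 : (9.8696 / 3 * (y * (3 - y ^ 2)) - 4.278 * ((1 - y ^ 2) * y) - 0.0021) ^ 2 ≤
      (z ^ 3 * rho δ y) ^ 2 := by gcongr
  have h2 : 0.7921 * ((1 + y ^ 2) ^ 4 * (lam * z ^ 2)) ≤
      0.7921 * ((1 + y ^ 2) ^ 4 * (9.8697 / 3 * y - 3.289 / 2 * ((1 - y ^ 2) * y) + 0.0001)) := by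
    gcongr
    linarith
  linarith

lemma Sad.rho_sq2 {lam δ y z : ℝ} (h : Sad lam δ y z) (hδ : 1.2 ≤ δ) :
    1.96 * lam ≤ (rho δ y * δ ^ 2) ^ 2 := by
  apply h.rho_sq
  have hy := h.y_ge
  have hy1 := h.y_lt_one
  have hz12 : 1.2 * (1 + y ^ 2) ≤ z := by
    rw [h.hz]; gcongr
  have hy2 : y ≤ 0.7285 := by
    have hr := (abs_le.1 h.rel).1
    have hhi := pisq_hi
    have hz2 := h.hz2
    by_contra hcon
    push Not at hcon
    have h53 : 0.53 < y ^ 2 := by nlinarith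
    have hy21 : y ^ 2 < 1 := by nlinarith
    have e1 : π ^ 2 / 6 * (1 - y ^ 2) ≤ 9.8697 / 6 * (1 - y ^ 2) := by
      have : 0 ≤ 1 - y ^ 2 := by linarith
      gcongr
    have e2 : 0 ≤ (z - 1.2 * (1 + y ^ 2)) * (1 / 2 - (z + 1.2 * (1 + y ^ 2)) / 24) := by
      apply mul_nonneg (by linarith)
      linarith
    generalize y ^ 2 = w at *
    nlinarith
  have hp := poly4 hy hy2
  have hl := h.lam_le hz12
  have hR := h.R3_ge
  have hR0 : 0 ≤ 9.8696 / 3 * (y * (3 - y ^ 2)) - 4.278 * ((1 - y ^ 2) * y) - 0.0021 := by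
    nlinarith [pow_pos h.hy 3, pow_pos h.hy 2]
  have h1 : (9.8696 / 3 * (y * (3 - y ^ 2)) - 4.278 * ((1 - y ^ 2) * y) - 0.0021) ^ 2 ≤
      (z ^ 3 * rho δ y) ^ 2 := by gcongr
  have h2 : 1.96 * ((1 + y ^ 2) ^ 4 * (lam * z ^ 2)) ≤
      1.96 * ((1 + y ^ 2) ^ 4 * (9.8697 / 3 * y - 0.6 * ((1 + y ^ 2) * y) + 0.0001)) := by
    gcongr
    linarith
  linarith

lemma Sad.rho_cube_le {lam δ y z : ℝ} (h : Sad lam δ y z) (hδ : δ ≤ 1.2) :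
    rho δ y * δ ^ 3 ≤ 1.5 := by
  have hy1 := h.y_lt_one
  have hy := h.hy
  have hz12 : z ≤ 1.2 * (1 + y ^ 2) := by
    rw [h.hz]; gcongr
  have hy2 : 0.68 ≤ y := by
    have := h.z_ge
    by_contra hcon
    push Not at hcon
    nlinarith
  have hp := poly5 hy2 hy1.le
  have hR := h.R3_le
  have e : z ^ 3 * rho δ y = rho δ y * δ ^ 3 * (1 + y ^ 2) ^ 3 := by rw [h.hz]; ring
  rw [e] at hR
  refine le_of_mul_le_mul_right (a := (1 + y ^ 2) ^ 3) ?_ (by positivity)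
  linarith

lemma Sad.rho_cube_ge {lam δ y z : ℝ} (h : Sad lam δ y z) :
    0.425 ≤ rho δ y * δ ^ 3 := by
  have hy1 := h.y_lt_one
  have hy := h.hy
  have hR := h.R3_ge'
  have e : z ^ 3 * rho δ y = rho δ y * δ ^ 3 * (1 + y ^ 2) ^ 3 := by rw [h.hz]; ring
  rw [e] at hR
  have h8 : (1 + y ^ 2) ^ 3 ≤ 8 := by
    have : 1 + y ^ 2 ≤ 2 := by nlinarith
    calc (1 + y ^ 2) ^ 3 ≤ 2 ^ 3 := by gcongr
      _ = 8 := by norm_num
  have hpos : 0 < rho δ y * δ ^ 3 := mul_pos h.rho_pos (pow_pos h.hδ 3)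
  nlinarith

end Pool.Agent.T6.H86.DA
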