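import Pool.Agent.T6.H86.DA.Est2

/-!
# The third derivative near the saddle point
-/

set_option autoImplicit false

namespace Pool.Agent.T6.H86.DA

open scoped ArithmeticFunction.sigma Real
open Complex

lemma norm_path_sq (δ φ : ℝ) : ‖(δ : ℂ) + φ * I‖ ^ 2 = δ ^ 2 + φ ^ 2 := by
  rw [Complex.sq_norm, Complex.normSq_apply]
  simp
  ring

lemma W_re_path (δ φ : ℝ) : (W ((δ : ℂ) + φ * I)).re = 4 * π ^ 2 * δ / (δ ^ 2 + φ ^ 2) := by
  rw [W_re, ← Complex.sq_norm, norm_path_sq]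
  simp

/-- general bound for `S 2` when `Re (W s) ≥ 11` -/
lemma S2_general {δ φ : ℝ} (hδ : 0 < δ) (hr : ‖(δ : ℂ) + φ * I‖ ≤ 1.5625 * δ)
    (hx : 11 ≤ (W ((δ : ℂ) + φ * I)).re) :
    ‖S 2 ((δ : ℂ) + φ * I)‖ ≤ (1.0271 * π ^ 2 + ‖(δ : ℂ) + φ * I‖) / ‖(δ : ℂ) + φ * I‖ ^ 4 := by
  have hre : 0 < ((δ : ℂ) + φ * I).re := by simpa using hδ
  have h1 := S2_modular hre
  have hW := W_re_path δ φ
  have hn := norm_path_sq δ φ
  set s := (δ : ℂ) + φ * I with hs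
  have hs0 := ne_zero_of_re hre
  set r := ‖s‖ with hrdef
  have hr0 : 0 < r := norm_pos_iff.2 hs0
  set x := (W s).re with hxdef
  have hx0 : 0 < x := by linarith
  have hpix : π ^ 2 = x * r ^ 2 / (4 * δ) := by
    rw [hW, hn]
    have : 0 < δ ^ 2 + φ ^ 2 := by positivity
    field_simp
  have hxexp : Real.exp (-x) ≤ 0.36788 ^ 11 := by
    refine (Real.exp_le_exp.2 ?_).trans (exp_neg_nat 11)
    push_cast; linarith
  have he0 := Real.exp_pos (-x)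
  have hA : ∀ j : ℕ, j ≤ 2 → ‖S j (W s)‖ ≤ 1.0003 * Real.exp (-x) := by
    intro j hj
    have hp : (2 : ℝ) ^ (j + 2) ≤ 16 := by
      calc (2 : ℝ) ^ (j + 2) ≤ 2 ^ 4 := by
            apply pow_le_pow_right₀ (by norm_num); omega
        _ = 16 := by norm_num
    have hs' : (2 : ℝ) ^ (j + 2) * Real.exp (-x) ≤ 16 * 0.36788 ^ 11 := by
      gcongr
    have hs2 : (16 : ℝ) * 0.36788 ^ 11 < 0.00027 := by norm_num
    have hb := norm_S_bound j (W_re_pos hre) (by rw [← hxdef]; linarith)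
    refine hb.trans ?_
    rw [← hxdef, div_le_iff₀ (by linarith)]
    nlinarith
  have hnpi : ‖(π : ℂ)‖ = π := by
    rw [Complex.norm_real, Real.norm_eq_abs, abs_of_pos Real.pi_pos]
  have n1 : ‖(π : ℂ) ^ 2 / s ^ 4‖ = π ^ 2 / r ^ 4 := by
    rw [norm_div, norm_pow, norm_pow, hnpi]
  have n2 : ‖1 / s ^ 3‖ = 1 / r ^ 3 := by
    rw [norm_div, norm_pow, norm_one]
  have n3 : ‖24 * (π : ℂ) ^ 2 / s ^ 4 * S 0 (W s)‖ ≤ 24 * π ^ 2 / r ^ 4 * (1.0003 * Real.exp (-x)) := by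
    rw [norm_mul, norm_div, norm_mul, norm_pow, norm_pow, hnpi, show ‖(24 : ℂ)‖ = 24 by norm_num]
    gcongr
    exact hA 0 (by norm_num)
  have n4 : ‖96 * (π : ℂ) ^ 4 / s ^ 5 * S 1 (W s)‖ ≤ 96 * π ^ 4 / r ^ 5 * (1.0003 * Real.exp (-x)) := by
    rw [norm_mul, norm_div, norm_mul, norm_pow, norm_pow, hnpi, show ‖(96 : ℂ)‖ = 96 by norm_num]
    gcongr
    exact hA 1 (by norm_num)
  have n5 : ‖64 * (π : ℂ) ^ 6 / s ^ 6 * S 2 (W s)‖ ≤ 64 * π ^ 6 / r ^ 6 * (1.0003 * Real.exp (-x)) := by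
    rw [norm_mul, norm_div, norm_mul, norm_pow, norm_pow, hnpi, show ‖(64 : ℂ)‖ = 64 by norm_num]
    gcongr
    exact hA 2 (by norm_num)
  have htot : ‖S 2 s‖ ≤ π ^ 2 / r ^ 4 + 1 / r ^ 3 + 24 * π ^ 2 / r ^ 4 * (1.0003 * Real.exp (-x)) +
      96 * π ^ 4 / r ^ 5 * (1.0003 * Real.exp (-x)) +
      64 * π ^ 6 / r ^ 6 * (1.0003 * Real.exp (-x)) := by
    rw [h1]
    refine (norm_sub_le _ _).trans ?_
    refine add_le_add ?_ n5
    refine (norm_add_le _ _).trans ?_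
    refine add_le_add ?_ n4
    refine (norm_sub_le _ _).trans ?_
    refine add_le_add ?_ n3
    refine (norm_sub_le _ _).trans ?_
    rw [n1, n2]
  -- the factor
  have x1 : x * Real.exp (-x) ≤ 11 * 0.36788 ^ 11 := by
    have := pow_mul_exp_neg_le 1 (c := 11) (x := x) (by norm_num) (by norm_num) hx
    rw [pow_one, pow_one] at this
    refine this.trans ?_
    have h2 := exp_neg_nat 11
    push_cast at h2
    gcongr
  have x2 : x ^ 2 * Real.exp (-x) ≤ 121 * 0.36788 ^ 11 := by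
    have := pow_mul_exp_neg_le 2 (c := 11) (x := x) (by norm_num) (by norm_num) hx
    refine this.trans ?_
    have h2 := exp_neg_nat 11
    push_cast at h2
    have : (11 : ℝ) ^ 2 = 121 := by norm_num
    rw [this]
    gcongr
  have hfac : 24 * π ^ 2 / r ^ 4 * (1.0003 * Real.exp (-x)) +
      96 * π ^ 4 / r ^ 5 * (1.0003 * Real.exp (-x)) +
      64 * π ^ 6 / r ^ 6 * (1.0003 * Real.exp (-x)) =
      π ^ 2 / r ^ 4 * (1.0003 * (24 * Real.exp (-x) + 24 * (r / δ) * (x * Real.exp (-x)) +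
        4 * (r / δ) ^ 2 * (x ^ 2 * Real.exp (-x)))) := by
    have e4 : π ^ 4 = π ^ 2 * (x * r ^ 2 / (4 * δ)) := by
      rw [← hpix]; ring
    have e6 : π ^ 6 = π ^ 2 * (x * r ^ 2 / (4 * δ)) ^ 2 := by
      rw [← hpix]; ring
    rw [e4, e6]
    field_simp
    ring
  have hrd : r / δ ≤ 1.5625 := by rw [div_le_iff₀ hδ]; exact hr
  have hrd0 : 0 ≤ r / δ := by positivity
  have hle : 1.0003 * (24 * Real.exp (-x) + 24 * (r / δ) * (x * Real.exp (-x)) +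
        4 * (r / δ) ^ 2 * (x ^ 2 * Real.exp (-x))) ≤ 0.0271 := by
    have c1 : 24 * (r / δ) * (x * Real.exp (-x)) ≤ 24 * 1.5625 * (11 * 0.36788 ^ 11) := by
      gcongr
    have c2 : 4 * (r / δ) ^ 2 * (x ^ 2 * Real.exp (-x)) ≤ 4 * 1.5625 ^ 2 * (121 * 0.36788 ^ 11) := by
      gcongr
    have c3 : 24 * Real.exp (-x) ≤ 24 * 0.36788 ^ 11 := by gcongr
    have c4 : (1.0003 : ℝ) * (24 * 0.36788 ^ 11 + 24 * 1.5625 * (11 * 0.36788 ^ 11) +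
      4 * 1.5625 ^ 2 * (121 * 0.36788 ^ 11)) ≤ 0.0271 := by norm_num
    linarith
  have hfin : π ^ 2 / r ^ 4 * (1.0003 * (24 * Real.exp (-x) + 24 * (r / δ) * (x * Real.exp (-x)) +
        4 * (r / δ) ^ 2 * (x ^ 2 * Real.exp (-x)))) ≤ π ^ 2 / r ^ 4 * 0.0271 := by
    gcongr
  have e : (1.0271 * π ^ 2 + r) / r ^ 4 = π ^ 2 / r ^ 4 + 1 / r ^ 3 + π ^ 2 / r ^ 4 * 0.0271 := by
    field_simp
    ring
  rw [e]
  linarith

/-- the bound of the third derivative near the saddle point -/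
lemma Sad.S2_le {lam δ y z : ℝ} (h : Sad lam δ y z) {φ : ℝ} (h1 : δ * y - δ / 5 ≤ φ)
    (h2 : φ ≤ δ * y + δ / 5) : ‖S 2 ((δ : ℂ) + φ * I)‖ ≤ 6.8 * rho δ y / δ := by
  have hδ := h.hδ
  have hy := h.y_ge
  have hy1 := h.y_lt_one
  have hz := h.z_pos
  have hzle := h.z_le
  have hhi := pisq_hi
  have hlo := pisq_lo
  have hn := norm_path_sq δ φ
  have hW := W_re_path δ φ
  have hre : 0 < ((δ : ℂ) + φ * I).re := by simpa using hδ
  have hφ0 : 0 ≤ φ := by nlinarith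
  have hφu : φ ^ 2 ≤ δ ^ 2 * (y + 0.2) ^ 2 := by
    rw [← mul_pow]
    apply pow_le_pow_left₀ hφ0
    linarith
  have hφl : δ ^ 2 * (y - 0.2) ^ 2 ≤ φ ^ 2 := by
    rw [← mul_pow]
    apply pow_le_pow_left₀ (by nlinarith)
    linarith
  have hr1 : ‖(δ : ℂ) + φ * I‖ ≤ 1.5625 * δ := by
    apply le_of_sq_le_sq _ (by positivity)
    rw [hn]
    nlinarith [sq_nonneg δ, mul_pos hδ hδ]
  have hx : 11 ≤ (W ((δ : ℂ) + φ * I)).re := by
    rw [hW, le_div_iff₀ (by positivity)]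
    have e1 : δ ^ 2 + φ ^ 2 ≤ δ ^ 2 * (1 + (y + 0.2) ^ 2) := by linarith
    have e2 : 11 * (z * (1 + (y + 0.2) ^ 2)) ≤ 4 * 9.8696 * (1 + y ^ 2) := by
      have : z * (1 + (y + 0.2) ^ 2) ≤ 4.278 * (1 - y ^ 2) * (1 + (y + 0.2) ^ 2) := by gcongr
      nlinarith [mul_nonneg (sub_nonneg.2 hy) (sub_nonneg.2 hy1.le),
        mul_nonneg (sub_nonneg.2 hy) h.hy.le, pow_pos h.hy 3, pow_pos h.hy 2]
    have e3 : 11 * (δ * (1 + (y + 0.2) ^ 2)) ≤ 4 * 9.8696 := by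
      rw [h.hz] at e2
      have hp : 0 < 1 + y ^ 2 := by positivity
      refine le_of_mul_le_mul_right ?_ hp
      linarith
    have e4 : 11 * (δ ^ 2 * (1 + (y + 0.2) ^ 2)) ≤ 4 * 9.8696 * δ := by nlinarith
    nlinarith
  have hgen := S2_general hδ hr1 hx
  have hs0 := ne_zero_of_re hre
  set r := ‖(δ : ℂ) + φ * I‖ with hrdef
  have hr0 : 0 < r := norm_pos_iff.2 hs0
  refine hgen.trans ?_
  set L := 1 + (y - 0.2) ^ 2 with hL
  have hL0 : 0 < L := by positivity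
  have hq : δ ^ 2 * L ≤ r ^ 2 := by rw [hn, hL]; linarith
  have hstep : (1.0271 * π ^ 2 + r) / r ^ 4 ≤
      1.0271 * π ^ 2 / (r ^ 2) ^ 2 + 1 / (2 * δ * r ^ 2) + δ / (2 * (r ^ 2) ^ 2) := by
    have e : 1.0271 * π ^ 2 / (r ^ 2) ^ 2 + 1 / (2 * δ * r ^ 2) + δ / (2 * (r ^ 2) ^ 2) =
        (1.0271 * π ^ 2 + (r ^ 2 / δ + δ) / 2) / r ^ 4 := by
      field_simp
      ring
    rw [e]
    gcongr
    rw [le_div_iff₀ (by norm_num : (0:ℝ) < 2)]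
    have : r ^ 2 / δ + δ - r * 2 = (r - δ) ^ 2 / δ := by field_simp; ring
    have : 0 ≤ (r - δ) ^ 2 / δ := by positivity
    linarith
  refine hstep.trans ?_
  have hmono : 1.0271 * π ^ 2 / (r ^ 2) ^ 2 + 1 / (2 * δ * r ^ 2) + δ / (2 * (r ^ 2) ^ 2) ≤
      1.0271 * 9.8697 / (δ ^ 2 * L) ^ 2 + 1 / (2 * δ * (δ ^ 2 * L)) + δ / (2 * (δ ^ 2 * L) ^ 2) := by
    gcongr
  refine hmono.trans ?_
  have hp6 := poly6 hy hy1.le
  rw [← hL] at hp6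
  have hR := h.R3_ge
  have eR : z ^ 3 * rho δ y = rho δ y * δ ^ 3 * (1 + y ^ 2) ^ 3 := by rw [h.hz]; ring
  have hkey : 1.0271 * 9.8697 + δ * (1 + L) / 2 ≤ 6.8 * (rho δ y * δ ^ 3) * L ^ 2 := by
    have hp : 0 < (1 + y ^ 2) ^ 3 := by positivity
    refine le_of_mul_le_mul_right ?_ hp
    have k1 : (1.0271 * 9.8697 + δ * (1 + L) / 2) * (1 + y ^ 2) ^ 3 =
        (1.0271 * 9.8697 * (1 + y ^ 2) + z * (1 + L) / 2) * (1 + y ^ 2) ^ 2 := by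
      rw [h.hz]; ring
    have k2 : 6.8 * (rho δ y * δ ^ 3) * L ^ 2 * (1 + y ^ 2) ^ 3 =
        6.8 * (L ^ 2 * (z ^ 3 * rho δ y)) := by rw [eR]; ring
    rw [k1, k2]
    have k3 : (1.0271 * 9.8697 * (1 + y ^ 2) + z * (1 + L) / 2) * (1 + y ^ 2) ^ 2 ≤
        (1.0271 * 9.8697 * (1 + y ^ 2) + 4.278 / 2 * ((1 - y ^ 2) * (1 + L))) *
          (1 + y ^ 2) ^ 2 := by
      gcongr ?_ * _
      have : z * (1 + L) ≤ 4.278 * (1 - y ^ 2) * (1 + L) := by gcongr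
      linarith
    have k4 : 6.8 * (L ^ 2 * (9.8696 / 3 * (y * (3 - y ^ 2)) - 4.278 * ((1 - y ^ 2) * y) - 0.0021))
        ≤ 6.8 * (L ^ 2 * (z ^ 3 * rho δ y)) := by gcongr
    linarith
  have e : 1.0271 * 9.8697 / (δ ^ 2 * L) ^ 2 + 1 / (2 * δ * (δ ^ 2 * L)) +
      δ / (2 * (δ ^ 2 * L) ^ 2) = (1.0271 * 9.8697 + δ * (1 + L) / 2) / (δ ^ 4 * L ^ 2) := by
    field_simp
    ring
  rw [e, div_le_div_iff₀ (by positivity) hδ]
  calc (1.0271 * 9.8697 + δ * (1 + L) / 2) * δ ≤ 6.8 * (rho δ y * δ ^ 3) * L ^ 2 * δ := by gcongr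
    _ = 6.8 * rho δ y * (δ ^ 4 * L ^ 2) := by ring

end Pool.Agent.T6.H86.DA
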