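import Pool.Agent.T6.H86.DA.Saddle

/-!
# Module M11: the value of `g` far from the saddle
-/

set_option autoImplicit false

namespace Pool.Agent.T6.H86.DA

open scoped ArithmeticFunction.sigma Real
open Complex

lemma norm_g_small {s : ℂ} (hs : 13 ≤ s.re) : ‖g s‖ ≤ 0.00001 := by
  have he : Real.exp (-s.re) ≤ 1 / 440000 := by
    refine le_trans (Real.exp_le_exp.2 (by linarith)) exp_neg_thirteen.le
  have hpos := Real.exp_pos (-s.re)
  refine (norm_g_bound (by linarith) (by linarith)).trans ?_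
  rw [div_le_iff₀ (by linarith)]
  linarith

theorem far_g {δ : ℝ} (hδ : 0 < δ) (h : δ ≤ 1.2) :
    -0.0465 ≤ -(g (δ + δ * Complex.I)).im - (g δ - g (2 * δ)).re := by
  have hlo := pisq_lo
  have hpi3 := Real.pi_lt_d4
  have hlog := Real.log_two_gt_d9
  -- the three points
  have hs1 : 0 < ((δ : ℂ) + δ * Complex.I).re := by simpa using hδ
  have hs2 : 0 < ((δ : ℂ)).re := by simpa using hδ
  have hs3 : 0 < ((2 * δ : ℂ)).re := by simpa using hδ
  have hN : normSq ((δ : ℂ) + δ * Complex.I) = 2 * δ ^ 2 := by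
    rw [Complex.normSq_apply]; simp; ring
  have hN2 : normSq ((δ : ℂ)) = δ ^ 2 := by
    rw [Complex.normSq_apply]; simp; ring
  have hN3 : normSq ((2 * δ : ℂ)) = 4 * δ ^ 2 := by
    rw [Complex.normSq_apply]; simp; ring
  have hq : 13 ≤ 2 * π ^ 2 / δ := by
    rw [le_div_iff₀ hδ]; nlinarith
  have hq2 : 13 ≤ 4 * π ^ 2 / δ := by
    rw [le_div_iff₀ hδ]; nlinarith
  have hW1 : 13 ≤ (W ((δ : ℂ) + δ * Complex.I)).re := by
    rw [W_re, hN]
    have : ((δ : ℂ) + δ * Complex.I).re = δ := by simp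
    rw [this]
    refine hq.trans (le_of_eq ?_)
    field_simp
    ring
  have hW2 : 13 ≤ (W ((δ : ℂ))).re := by
    rw [W_re, hN2]
    have : ((δ : ℂ)).re = δ := by simp
    rw [this]
    refine hq2.trans (le_of_eq ?_)
    field_simp
  have hW3 : 13 ≤ (W ((2 * δ : ℂ))).re := by
    rw [W_re, hN3]
    have : ((2 * δ : ℂ)).re = 2 * δ := by simp
    rw [this]
    refine hq.trans (le_of_eq ?_)
    field_simp
    try ring
  have hg1 := (Complex.abs_im_le_norm _).trans (norm_g_small hW1)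
  have hg2 := (Complex.abs_re_le_norm _).trans (norm_g_small hW2)
  have hg3 := (Complex.abs_re_le_norm _).trans (norm_g_small hW3)
  rw [abs_le] at hg1 hg2 hg3
  -- the three values
  have e1 : (g ((δ : ℂ) + δ * Complex.I)).im = -(π ^ 2 / (12 * δ)) + π / 8 - δ / 24
      + (g (W ((δ : ℂ) + δ * Complex.I))).im := by
    rw [g_modular hs1]
    have a1 : ((π : ℂ) ^ 2 / (6 * ((δ : ℂ) + δ * Complex.I))).im = -(π ^ 2 / (12 * δ)) := by
      have : (π : ℂ) ^ 2 / (6 * ((δ : ℂ) + δ * Complex.I))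
          = ((π ^ 2 / 6 : ℝ) : ℂ) * ((δ : ℂ) + δ * Complex.I)⁻¹ := by
        push_cast; rw [div_mul_eq_div_div, div_eq_mul_inv]
      rw [this, Complex.im_ofReal_mul, Complex.inv_im, hN]
      simp
      field_simp
      ring
    have a2 : (1 / 2 * Complex.log ((δ : ℂ) + δ * Complex.I)).im = π / 8 := by
      have : (1 / 2 * Complex.log ((δ : ℂ) + δ * Complex.I))
          = ((1 / 2 : ℝ) : ℂ) * Complex.log ((δ : ℂ) + δ * Complex.I) := by push_cast; rfl
      rw [this, Complex.im_ofReal_mul, Complex.log_im]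
      have harg : arg ((δ : ℂ) + δ * Complex.I) = π / 4 := by
        have h2 : ((δ : ℂ) + δ * Complex.I) = ((Real.sqrt 2 * δ : ℝ) : ℂ) *
            (Real.cos (π / 4) + Real.sin (π / 4) * Complex.I) := by
          rw [Real.cos_pi_div_four, Real.sin_pi_div_four]
          have h3 : (Real.sqrt 2 * δ) * (Real.sqrt 2 / 2) = δ := by
            have := Real.mul_self_sqrt (show (0:ℝ) ≤ 2 by norm_num)
            nlinarith
          have h4 : (((Real.sqrt 2 * δ : ℝ) : ℂ) * ((Real.sqrt 2 / 2 : ℝ) : ℂ)) = δ := by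
            rw [← Complex.ofReal_mul, h3]
          rw [mul_add, ← mul_assoc, h4]
        rw [h2, Complex.ofReal_cos, Complex.ofReal_sin]
        exact Complex.arg_mul_cos_add_sin_mul_I (r := Real.sqrt 2 * δ) (θ := π / 4) (by positivity)
          ⟨by linarith [Real.pi_pos], by linarith [Real.pi_pos]⟩
      rw [harg]
      ring
    have a3 : (((δ : ℂ) + δ * Complex.I) / 24).im = δ / 24 := by
      have : ((δ : ℂ) + δ * Complex.I) / 24 = ((1 / 24 : ℝ) : ℂ) * ((δ : ℂ) + δ * Complex.I) := by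
        push_cast; ring
      rw [this, Complex.im_ofReal_mul]
      simp
      ring
    rw [Complex.sub_im, Complex.add_im, Complex.sub_im, Complex.add_im, a1, a2, a3,
      Complex.ofReal_im]
    ring
  have e2 : (g ((δ : ℂ))).re = π ^ 2 / (6 * δ) + 1 / 2 * Real.log δ - δ / 24
      + (g (W (δ : ℂ))).re - 1 / 2 * Real.log (2 * π) := by
    rw [g_modular hs2]
    have a1 : ((π : ℂ) ^ 2 / (6 * (δ : ℂ))) = ((π ^ 2 / (6 * δ) : ℝ) : ℂ) := by
      push_cast; rfl
    have a2 : (1 / 2 * Complex.log (δ : ℂ)) = ((1 / 2 * Real.log δ : ℝ) : ℂ) := by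
      rw [← Complex.ofReal_log hδ.le]; push_cast; rfl
    have a3 : ((δ : ℂ) / 24) = ((δ / 24 : ℝ) : ℂ) := by push_cast; rfl
    rw [a1, a2, a3]
    rw [Complex.sub_re, Complex.add_re, Complex.sub_re, Complex.add_re]
    simp only [Complex.ofReal_re]
  have e3 : (g ((2 * δ : ℂ))).re = π ^ 2 / (6 * (2 * δ)) + 1 / 2 * Real.log (2 * δ) - (2 * δ) / 24
      + (g (W (2 * δ : ℂ))).re - 1 / 2 * Real.log (2 * π) := by
    rw [g_modular hs3]
    have a1 : ((π : ℂ) ^ 2 / (6 * (2 * δ : ℂ))) = ((π ^ 2 / (6 * (2 * δ)) : ℝ) : ℂ) := by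
      push_cast; rfl
    have a2 : (1 / 2 * Complex.log (2 * δ : ℂ)) = ((1 / 2 * Real.log (2 * δ) : ℝ) : ℂ) := by
      have : (2 * δ : ℂ) = ((2 * δ : ℝ) : ℂ) := by push_cast; rfl
      rw [this, ← Complex.ofReal_log (by positivity)]; push_cast; rfl
    have a3 : ((2 * δ : ℂ) / 24) = (((2 * δ) / 24 : ℝ) : ℂ) := by push_cast; rfl
    rw [a1, a2, a3]
    rw [Complex.sub_re, Complex.add_re, Complex.sub_re, Complex.add_re]
    simp only [Complex.ofReal_re]
  have e4 : Real.log (2 * δ) = Real.log 2 + Real.log δ :=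
    Real.log_mul (by norm_num) hδ.ne'
  have e5 : π ^ 2 / (6 * δ) = 2 * (π ^ 2 / (12 * δ)) := by field_simp; norm_num
  have e6 : π ^ 2 / (6 * (2 * δ)) = π ^ 2 / (12 * δ) := by
    rw [show 6 * (2 * δ) = 12 * δ by ring]
  rw [Complex.sub_re, e1, e2, e3, e4, e5, e6]
  linarith [hg1.1, hg1.2, hg2.1, hg2.2, hg3.1, hg3.2]

end Pool.Agent.T6.H86.DA
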