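import Pool.Agent.T6.H86.DA.Est

/-!
# The sign of `Re S 0` away from the saddle point
-/

set_option autoImplicit false

namespace Pool.Agent.T6.H86.DA

open scoped ArithmeticFunction.sigma Real
open Complex

/-- the main term of `X ^ 2 * Re S 0` -/
noncomputable def NN (δ X : ℝ) : ℝ := π ^ 2 / 6 * (2 * δ ^ 2 - X) - δ * X / 2 + X ^ 2 / 24

/-- the modular transformation in real form -/
lemma re_S0_sub_NN {δ φ : ℝ} (hδ : 0 < δ) :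
    |(δ ^ 2 + φ ^ 2) ^ 2 * (S 0 (δ + φ * I)).re - NN δ (δ ^ 2 + φ ^ 2)| ≤
      4 * π ^ 2 * (δ ^ 2 + φ ^ 2) * ‖S 0 (W (δ + φ * I))‖ := by
  set s : ℂ := (δ : ℂ) + φ * I with hs
  have hre : s.re = δ := by simp [hs]
  have him : s.im = φ := by simp [hs]
  have hpos : 0 < s.re := by rw [hre]; exact hδ
  have hs0 : s ≠ 0 := ne_zero_of_re hpos
  set X : ℝ := δ ^ 2 + φ ^ 2 with hX
  have hX0 : 0 < X := by positivity
  set t : ℂ := (δ : ℂ) - φ * I with ht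
  have hst : s * t = (X : ℂ) := by
    rw [hs, ht, hX]
    push_cast
    ring_nf
    rw [Complex.I_sq]
    ring
  have hmod := S0_modular hpos
  have hXc : (X : ℂ) ≠ 0 := by exact_mod_cast hX0.ne'
  have hkey : (X : ℂ) ^ 2 * S 0 s = ((NN δ X : ℝ) : ℂ) +
      ((-(π ^ 2 / 6 * (2 * δ * φ)) + X * φ / 2 : ℝ) : ℂ) * I
      - 4 * π ^ 2 * t ^ 2 * S 0 (W s) := by
    have e1 : (X : ℂ) ^ 2 * S 0 s = π ^ 2 / 6 * t ^ 2 - X * t / 2 + X ^ 2 / 24 -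
        4 * π ^ 2 * t ^ 2 * S 0 (W s) := by
      rw [hmod, ← hst]
      field_simp
    rw [e1, NN, ht]
    push_cast
    have hXe : (X : ℂ) = (δ : ℂ) ^ 2 + (φ : ℂ) ^ 2 := by rw [hX]; push_cast; ring
    rw [hXe]
    ring_nf
    rw [Complex.I_sq]
    ring
  have h1 := congrArg Complex.re hkey
  have e2 : ((X : ℂ) ^ 2 * S 0 s).re = X ^ 2 * (S 0 s).re := by
    rw [show (X : ℂ) ^ 2 = ((X ^ 2 : ℝ) : ℂ) by push_cast; ring, Complex.re_ofReal_mul]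
  rw [e2, Complex.sub_re, Complex.add_re, Complex.ofReal_re, Complex.re_ofReal_mul, Complex.I_re,
    mul_zero, add_zero] at h1
  have hnt : ‖t‖ ^ 2 = X := by
    rw [Complex.sq_norm, Complex.normSq_apply]
    simp [ht, hX]
    ring
  have hb : ‖4 * (π : ℂ) ^ 2 * t ^ 2 * S 0 (W s)‖ = 4 * π ^ 2 * X * ‖S 0 (W s)‖ := by
    rw [norm_mul, norm_mul, norm_mul, norm_pow, norm_pow, hnt, Complex.norm_real,
      Real.norm_eq_abs, abs_of_pos Real.pi_pos]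
    norm_num
  rw [← hb, h1]
  have : NN δ X - (4 * (π : ℂ) ^ 2 * t ^ 2 * S 0 (W s)).re - NN δ X =
      -(4 * (π : ℂ) ^ 2 * t ^ 2 * S 0 (W s)).re := by ring
  rw [this, abs_neg]
  exact Complex.abs_re_le_norm _

lemma W_re' {δ φ : ℝ} : (W ((δ : ℂ) + φ * I)).re = 4 * π ^ 2 * δ / (δ ^ 2 + φ ^ 2) := by
  rw [W_re, Complex.normSq_apply]
  simp
  ring_nf

lemma norm_SW_le {δ φ c : ℝ} (hδ : 0 < δ) (n : ℕ)
    (hn : (n : ℝ) * (δ ^ 2 + φ ^ 2) ≤ 4 * π ^ 2 * δ)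
    (h4 : 4 * (0.36788 : ℝ) ^ n < 1) (hc : (0.36788 : ℝ) ^ n ≤ c * (1 - 4 * (0.36788 : ℝ) ^ n)) :
    ‖S 0 (W (δ + φ * I))‖ ≤ c := by
  have hX : 0 < δ ^ 2 + φ ^ 2 := by positivity
  have hW : (n : ℝ) ≤ (W ((δ : ℂ) + φ * I)).re := by
    rw [W_re', le_div_iff₀ hX]; exact hn
  have hpos : 0 < (W ((δ : ℂ) + φ * I)).re := by
    rw [W_re']
    have := Real.pi_pos
    positivity
  have he : Real.exp (-(W ((δ : ℂ) + φ * I)).re) ≤ 0.36788 ^ n :=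
    (Real.exp_le_exp.2 (by linarith)).trans (exp_neg_nat n)
  have h2 : (2 : ℝ) ^ (0 + 2) = 4 := by norm_num
  have hb := norm_S_bound 0 hpos (by rw [h2]; linarith)
  rw [h2] at hb
  refine hb.trans ?_
  have he0 := Real.exp_pos (-(W ((δ : ℂ) + φ * I)).re)
  rw [div_le_iff₀ (by linarith)]
  have hp : (0 : ℝ) < 0.36788 ^ n := by positivity
  have hc0 : 0 ≤ c := by
    by_contra hneg
    push Not at hneg
    have : c * (1 - 4 * (0.36788 : ℝ) ^ n) < 0 := mul_neg_of_neg_of_pos hneg (by linarith)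
    linarith
  nlinarith

/-- the main term vanishes at the saddle point up to a tiny error -/
lemma Sad.NN_saddle {lam δ y z : ℝ} (h : Sad lam δ y z) :
    |NN δ (δ ^ 2 + (δ * y) ^ 2)| ≤ 1e-4 * δ ^ 2 := by
  have hδ := h.hδ
  have h1 := re_S0_sub_NN (δ := δ) (φ := δ * y) hδ
  have h2 := h.SW 0 (by norm_num)
  have hS := h.hS
  have hc : ((δ * y : ℝ) : ℂ) = δ * y := by push_cast; ring
  rw [hc, hS] at h1
  have hre0 : (-((lam : ℂ) * I)).re = 0 := by simp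
  rw [hre0, mul_zero, zero_sub, abs_neg] at h1
  refine h1.trans ?_
  have hx := h.xexp
  have hz := h.z_pos
  have hz2 := h.hz2
  have hy := h.hy
  have hy1 := h.y_lt_one
  have hhi := pisq_hi
  have hXle : δ ^ 2 + (δ * y) ^ 2 ≤ 2 * δ ^ 2 := by
    have : y ^ 2 ≤ 1 := by nlinarith
    nlinarith [mul_le_mul_of_nonneg_left this (sq_nonneg δ)]
  have h3 : ‖S 0 (W ((δ : ℂ) + δ * y * I))‖ ≤ 1.001 * (3e-7 * 2.77) := by
    refine h2.trans ?_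
    have : Real.exp (-(4 * π ^ 2 / z)) ≤ 3e-7 * 2.77 := by nlinarith
    linarith
  calc 4 * π ^ 2 * (δ ^ 2 + (δ * y) ^ 2) * ‖S 0 (W ((δ : ℂ) + δ * y * I))‖
      ≤ 4 * 9.8697 * (2 * δ ^ 2) * (1.001 * (3e-7 * 2.77)) := by gcongr
    _ ≤ 1e-4 * δ ^ 2 := by nlinarith [sq_nonneg δ]

lemma NN_sub (δ X X0 : ℝ) :
    NN δ X = NN δ X0 - (X - X0) * (π ^ 2 / 6 + δ / 2 - (X + X0) / 24) := by
  rw [NN, NN]; ring

lemma Sad.zδ {lam δ y z : ℝ} (h : Sad lam δ y z) : δ ^ 2 + (δ * y) ^ 2 = δ * z := by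
  rw [h.hz]; ring

theorem S0_pos_left {lam δ y z : ℝ} (h : Sad lam δ y z) {φ : ℝ} (h0 : 0 ≤ φ)
    (h1 : φ ≤ δ * y - δ / 5) : 0 < (S 0 (δ + φ * Complex.I)).re := by
  have hδ := h.hδ
  have hy := h.y_ge
  have hy1 := h.y_lt_one
  have hz := h.z_pos
  have hz2 := h.hz2
  have hlo := pisq_lo
  have hhi := pisq_hi
  have hXX := h.zδ
  have hN := h.NN_saddle
  have hmain := re_S0_sub_NN (δ := δ) (φ := φ) hδ
  set X := δ ^ 2 + φ ^ 2 with hX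
  set X0 := δ ^ 2 + (δ * y) ^ 2 with hX0
  have hXpos : 0 < X := by positivity
  have hdiff : 0.19 * δ ^ 2 ≤ X0 - X := by
    have e : φ ^ 2 ≤ (δ * y - δ / 5) ^ 2 := pow_le_pow_left₀ h0 h1 2
    have e2 : (δ * y) ^ 2 - (δ * y - δ / 5) ^ 2 = δ ^ 2 * (2 / 5 * y - 1 / 25) := by ring
    have e3 : 0.19 * δ ^ 2 ≤ δ ^ 2 * (2 / 5 * y - 1 / 25) := by nlinarith [sq_nonneg δ]
    rw [hX, hX0]
    linarith
  have hX0le : X0 ≤ 2 * δ ^ 2 := by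
    rw [hX0]
    have : y ^ 2 ≤ 1 := by nlinarith
    nlinarith [mul_le_mul_of_nonneg_left this (sq_nonneg δ)]
  have hd2 : 0 < δ ^ 2 := by positivity
  -- the error term
  have hSW : ‖S 0 (W ((δ : ℂ) + φ * I))‖ ≤ 1e-5 := by
    refine norm_SW_le hδ 14 ?_ (by norm_num) (by norm_num)
    have h3 : X ≤ δ * z := by rw [← hXX]; linarith
    have h4 : δ * z ≤ δ * 2.77 := by gcongr
    push_cast
    nlinarith
  have herr : 4 * π ^ 2 * X * ‖S 0 (W ((δ : ℂ) + φ * I))‖ ≤ 0.001 * δ ^ 2 := by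
    calc 4 * π ^ 2 * X * ‖S 0 (W ((δ : ℂ) + φ * I))‖ ≤ 4 * 9.8697 * (2 * δ ^ 2) * 1e-5 := by
          gcongr
          linarith
      _ ≤ _ := by nlinarith
  -- the bracket
  have hb : 1.6 ≤ π ^ 2 / 6 + δ / 2 - (X + X0) / 24 := by
    have : X0 ≤ δ * 2.77 := by rw [hXX]; gcongr
    linarith
  have hNN : 0.3 * δ ^ 2 ≤ NN δ X := by
    rw [NN_sub δ X X0]
    have e1 := (abs_le.1 hN).1
    have e3 : 0 ≤ X0 - X := by linarith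
    have e2 : 0.19 * δ ^ 2 * 1.6 ≤ (X0 - X) * (π ^ 2 / 6 + δ / 2 - (X + X0) / 24) := by gcongr
    linarith
  have hfin : 0 < X ^ 2 * (S 0 (δ + φ * Complex.I)).re := by
    have := (abs_le.1 hmain).1
    linarith
  have hX2 : 0 < X ^ 2 := by positivity
  exact (pos_iff_pos_of_mul_pos hfin).1 hX2

/-- the common part of the two statements on the right of the saddle point -/
lemma Sad.right {lam δ y z : ℝ} (h : Sad lam δ y z) {φ b c : ℝ} (h1 : δ * y + δ / 5 ≤ φ)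
    (hb : b ≤ π ^ 2 / 6 + δ / 2 - (δ ^ 2 + φ ^ 2 + (δ ^ 2 + (δ * y) ^ 2)) / 24)
    (hc : 4 * π ^ 2 * (δ ^ 2 + φ ^ 2) * ‖S 0 (W (δ + φ * I))‖ ≤
      c * (δ ^ 2 + φ ^ 2 - (δ ^ 2 + (δ * y) ^ 2))) (hbc : c + 0.001 ≤ b) :
    (S 0 (δ + φ * Complex.I)).re < 0 := by
  have hδ := h.hδ
  have hy := h.y_ge
  have hN := h.NN_saddle
  have hmain := re_S0_sub_NN (δ := δ) (φ := φ) hδ
  set X := δ ^ 2 + φ ^ 2 with hX
  set X0 := δ ^ 2 + (δ * y) ^ 2 with hX0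
  have hd2 : 0 < δ ^ 2 := by positivity
  have hdiff : 0.277 * δ ^ 2 ≤ X - X0 := by
    have e : (δ * y + δ / 5) ^ 2 ≤ φ ^ 2 := pow_le_pow_left₀ (by positivity) h1 2
    have e2 : (δ * y + δ / 5) ^ 2 - (δ * y) ^ 2 = δ ^ 2 * (2 / 5 * y + 1 / 25) := by ring
    have e3 : 0.277 * δ ^ 2 ≤ δ ^ 2 * (2 / 5 * y + 1 / 25) := by nlinarith [sq_nonneg δ]
    rw [hX, hX0]
    linarith
  have hdpos : 0 < X - X0 := by nlinarith
  have hNN : NN δ X ≤ 1e-4 * δ ^ 2 - b * (X - X0) := by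
    rw [NN_sub δ X X0]
    have e1 := (abs_le.1 hN).2
    have e2 : b * (X - X0) ≤ (X - X0) * (π ^ 2 / 6 + δ / 2 - (X + X0) / 24) := by
      rw [mul_comm b]
      gcongr
    linarith
  have h5 : 1e-4 * δ ^ 2 < 0.001 * (X - X0) := by linarith
  have hfin : X ^ 2 * (S 0 (δ + φ * Complex.I)).re < 0 := by
    have h6 := (abs_le.1 hmain).2
    have h7 : (c + 0.001) * (X - X0) ≤ b * (X - X0) := by gcongr
    linarith
  have hX2 : 0 < X ^ 2 := by positivity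
  by_contra hcon
  push Not at hcon
  have := mul_nonneg hX2.le hcon
  linarith

theorem S0_neg_right {lam δ y z : ℝ} (h : Sad lam δ y z) {φ : ℝ} (h1 : δ * y + δ / 5 ≤ φ)
    (h2 : φ ≤ 2 * δ) (hδ : δ ≤ 1.2) : (S 0 (δ + φ * Complex.I)).re < 0 := by
  have hδ0 := h.hδ
  have hy := h.y_ge
  have hy1 := h.y_lt_one
  have hz := h.z_pos
  have hz2 := h.hz2
  have hlo := pisq_lo
  have hhi := pisq_hi
  have hXX := h.zδ
  have hφ0 : 0 ≤ φ := le_trans (by positivity) h1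
  have hd2 : 0 < δ ^ 2 := by positivity
  have hX5 : δ ^ 2 + φ ^ 2 ≤ 5 * δ ^ 2 := by
    have : φ ^ 2 ≤ (2 * δ) ^ 2 := pow_le_pow_left₀ hφ0 h2 2
    nlinarith
  have h5 : 5 * δ ^ 2 ≤ 6 * δ := by nlinarith
  have hdiff : 0.277 * δ ^ 2 ≤ (δ ^ 2 + φ ^ 2) - (δ ^ 2 + (δ * y) ^ 2) := by
    have e : (δ * y + δ / 5) ^ 2 ≤ φ ^ 2 := pow_le_pow_left₀ (by positivity) h1 2
    have e2 : (δ * y + δ / 5) ^ 2 - (δ * y) ^ 2 = δ ^ 2 * (2 / 5 * y + 1 / 25) := by ring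
    have e3 : 0.277 * δ ^ 2 ≤ δ ^ 2 * (2 / 5 * y + 1 / 25) := by nlinarith [sq_nonneg δ]
    linarith
  have hX0le : δ ^ 2 + (δ * y) ^ 2 ≤ 2 * δ ^ 2 := by
    have : y ^ 2 ≤ 1 := by nlinarith
    nlinarith [mul_le_mul_of_nonneg_left this (sq_nonneg δ)]
  have hX0z : δ ^ 2 + (δ * y) ^ 2 ≤ δ * 2.77 := by rw [hXX]; gcongr
  refine h.right h1 (b := 1.6) (c := 1) ?_ ?_ (by norm_num)
  · linarith
  · have hSW : ‖S 0 (W ((δ : ℂ) + φ * I))‖ ≤ 0.00251 := by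
      refine norm_SW_le hδ0 6 ?_ (by norm_num) (by norm_num)
      push_cast
      nlinarith
    have hXX2 : δ ^ 2 + φ ^ 2 ≤ 8.3 * ((δ ^ 2 + φ ^ 2) - (δ ^ 2 + (δ * y) ^ 2)) := by
      linarith
    calc 4 * π ^ 2 * (δ ^ 2 + φ ^ 2) * ‖S 0 (W ((δ : ℂ) + φ * I))‖
        ≤ 4 * 9.8697 * (8.3 * ((δ ^ 2 + φ ^ 2) - (δ ^ 2 + (δ * y) ^ 2))) * 0.00251 := by
          have : 0 ≤ 8.3 * ((δ ^ 2 + φ ^ 2) - (δ ^ 2 + (δ * y) ^ 2)) := by linarith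
          gcongr
      _ ≤ _ := by linarith

theorem S0_neg_right' {lam δ y z : ℝ} (h : Sad lam δ y z) {φ : ℝ} (h1 : δ * y + δ / 5 ≤ φ)
    (h2 : φ ≤ Real.pi) (hδ : 1.2 ≤ δ) : (S 0 (δ + φ * Complex.I)).re < 0 := by
  have hδ0 := h.hδ
  have hy := h.y_ge
  have hy1 := h.y_lt_one
  have hz := h.z_pos
  have hz2 := h.hz2
  have hlo := pisq_lo
  have hhi := pisq_hi
  have hXX := h.zδ
  have hφ0 : 0 ≤ φ := le_trans (by positivity) h1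
  have hd2 : 0 < δ ^ 2 := by positivity
  have hδ2 : δ ≤ 2.05 := by
    have e := h.hz
    have : 1.35 ≤ 1 + y ^ 2 := by nlinarith
    nlinarith
  have hXpi : δ ^ 2 + φ ^ 2 ≤ δ ^ 2 + π ^ 2 := by
    have : φ ^ 2 ≤ π ^ 2 := pow_le_pow_left₀ hφ0 h2 2
    linarith
  have hdiff : 0.277 * δ ^ 2 ≤ (δ ^ 2 + φ ^ 2) - (δ ^ 2 + (δ * y) ^ 2) := by
    have e : (δ * y + δ / 5) ^ 2 ≤ φ ^ 2 := pow_le_pow_left₀ (by positivity) h1 2
    have e2 : (δ * y + δ / 5) ^ 2 - (δ * y) ^ 2 = δ ^ 2 * (2 / 5 * y + 1 / 25) := by ring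
    have e3 : 0.277 * δ ^ 2 ≤ δ ^ 2 * (2 / 5 * y + 1 / 25) := by nlinarith [sq_nonneg δ]
    linarith
  have hX0le : δ ^ 2 + (δ * y) ^ 2 ≤ 2 * δ ^ 2 := by
    have : y ^ 2 ≤ 1 := by nlinarith
    nlinarith [mul_le_mul_of_nonneg_left this (sq_nonneg δ)]
  have hX0z : δ ^ 2 + (δ * y) ^ 2 ≤ δ * 2.77 := by rw [hXX]; gcongr
  have hb : 1.6 ≤ π ^ 2 / 6 + δ / 2 - (δ ^ 2 + φ ^ 2 + (δ ^ 2 + (δ * y) ^ 2)) / 24 := by
    nlinarith
  rcases le_total (δ ^ 2 + φ ^ 2) (2 * (δ ^ 2 + (δ * y) ^ 2)) with hc | hc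
  · refine h.right h1 (b := 1.6) (c := 1) hb ?_ (by norm_num)
    have hSW : ‖S 0 (W ((δ : ℂ) + φ * I))‖ ≤ 0.001 := by
      refine norm_SW_le hδ0 7 ?_ (by norm_num) (by norm_num)
      push_cast
      nlinarith
    have hXX2 : δ ^ 2 + φ ^ 2 ≤ 8.3 * ((δ ^ 2 + φ ^ 2) - (δ ^ 2 + (δ * y) ^ 2)) := by
      linarith
    calc 4 * π ^ 2 * (δ ^ 2 + φ ^ 2) * ‖S 0 (W ((δ : ℂ) + φ * I))‖
        ≤ 4 * 9.8697 * (8.3 * ((δ ^ 2 + φ ^ 2) - (δ ^ 2 + (δ * y) ^ 2))) * 0.001 := by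
          have : 0 ≤ 8.3 * ((δ ^ 2 + φ ^ 2) - (δ ^ 2 + (δ * y) ^ 2)) := by linarith
          gcongr
      _ ≤ _ := by linarith
  · refine h.right h1 (b := 1.6) (c := 1.58) hb ?_ (by norm_num)
    have hSW : ‖S 0 (W ((δ : ℂ) + φ * I))‖ ≤ 0.0198 := by
      refine norm_SW_le hδ0 4 ?_ (by norm_num) (by norm_num)
      push_cast
      nlinarith
    have hXX2 : δ ^ 2 + φ ^ 2 ≤ 2 * ((δ ^ 2 + φ ^ 2) - (δ ^ 2 + (δ * y) ^ 2)) := by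
      linarith
    calc 4 * π ^ 2 * (δ ^ 2 + φ ^ 2) * ‖S 0 (W ((δ : ℂ) + φ * I))‖
        ≤ 4 * 9.8697 * (2 * ((δ ^ 2 + φ ^ 2) - (δ ^ 2 + (δ * y) ^ 2))) * 0.0198 := by
          have : 0 ≤ 2 * ((δ ^ 2 + φ ^ 2) - (δ ^ 2 + (δ * y) ^ 2)) := by linarith
          gcongr
      _ ≤ _ := by linarith

end Pool.Agent.T6.H86.DA
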