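import Pool.Agent.T6.H86.DA.Ser

/-!
# D'Arcais polynomials on the imaginary axis: the Lambert series bound
-/

set_option autoImplicit false

namespace Pool.Agent.T6.H86.DA

open scoped ArithmeticFunction.sigma Real
open Complex

lemma norm_q_lt {s : ℂ} (hs : 0 < s.re) : ‖exp (-s)‖ < 1 := by
  rw [Complex.norm_exp, Real.exp_lt_one_iff]; simpa using hs

lemma summable_pair {q : ℂ} (hq : ‖q‖ < 1) :
    Summable fun c : ℕ+ × ℕ+ => ((c.1 : ℕ) : ℂ)⁻¹ * q ^ ((c.1 : ℕ) * (c.2 : ℕ)) := by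
  have h := (summable_prod_mul_pow 0 hq).norm
  refine Summable.of_norm_bounded h fun c => ?_
  rw [norm_mul, norm_mul, norm_inv, Complex.norm_natCast]
  have h1 : ((c.1 : ℕ) : ℝ)⁻¹ ≤ 1 := by
    apply inv_le_one_of_one_le₀
    exact_mod_cast c.1.pos
  have h2 : ‖((c.2 : ℕ) : ℂ) ^ 0‖ = 1 := by simp
  rw [h2]
  gcongr

lemma summable_sig {q : ℂ} (hq : ‖q‖ < 1) :
    Summable fun c : (Σ n : ℕ+, Nat.divisorsAntidiagonal n) =>
      ((c.2.1.1 : ℕ) : ℂ)⁻¹ * q ^ ((c.2.1.1 : ℕ) * (c.2.1.2 : ℕ)) := by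
  have h := (sigmaAntidiagonalEquivProd.summable_iff).2 (summable_pair hq)
  exact h

lemma sum_antidiag (n : ℕ+) (q : ℂ) :
    ∑' c : Nat.divisorsAntidiagonal n, ((c.1.1 : ℕ) : ℂ)⁻¹ * q ^ ((c.1.1 : ℕ) * (c.1.2 : ℕ)) =
      (σ 1 n : ℂ) / (n : ℂ) * q ^ (n : ℕ) := by
  rw [tsum_fintype, Finset.univ_eq_attach,
    Finset.sum_attach (Nat.divisorsAntidiagonal n)
      (fun c : ℕ × ℕ => ((c.1 : ℕ) : ℂ)⁻¹ * q ^ (c.1 * c.2))]
  have h1 : ∀ c ∈ Nat.divisorsAntidiagonal n, ((c.1 : ℕ) : ℂ)⁻¹ * q ^ (c.1 * c.2) =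
      (c.2 : ℂ) / (n : ℂ) * q ^ (n : ℕ) := by
    intro c hc
    have h2 := Nat.mem_divisorsAntidiagonal.1 hc
    have h3 : (c.1 : ℂ) ≠ 0 := by
      intro h
      have : c.1 = 0 := by exact_mod_cast h
      rw [this, zero_mul] at h2
      exact h2.2 h2.1.symm
    have h4 : (n : ℂ) = (c.1 : ℂ) * (c.2 : ℂ) := by
      have : ((n : ℕ) : ℂ) = ((c.1 * c.2 : ℕ) : ℂ) := by rw [h2.1]
      rw [← Nat.cast_mul]
      exact this
    have h5 : (c.2 : ℂ) ≠ 0 := by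
      intro h
      have : c.2 = 0 := by exact_mod_cast h
      rw [this, mul_zero] at h2
      exact h2.2 h2.1.symm
    rw [h2.1, h4]
    field_simp
  rw [Finset.sum_congr rfl h1, ← Finset.sum_mul, ← Finset.sum_div]
  congr 2
  rw [Nat.sum_divisorsAntidiagonal' (fun _ d => (d : ℂ)), ArithmeticFunction.sigma_one_apply]
  push_cast
  rfl

theorem lambert {s : ℂ} (hs : 0 < s.re) :
    HasSum (fun a : ℕ => ((a : ℂ) + 1)⁻¹ * (exp (((a : ℂ) + 1) * s) - 1)⁻¹) (g s) := by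
  set q := exp (-s) with hq
  have hq1 : ‖q‖ < 1 := norm_q_lt hs
  have hsp := summable_pair hq1
  -- inner sums
  have hin : ∀ a : ℕ+, HasSum (fun b : ℕ+ => ((a : ℕ) : ℂ)⁻¹ * q ^ ((a : ℕ) * (b : ℕ)))
      (((a : ℕ) : ℂ)⁻¹ * (exp ((a : ℕ) * s) - 1)⁻¹) := by
    intro a
    refine HasSum.mul_left _ ?_
    have ha : ‖q ^ (a : ℕ)‖ < 1 := by
      rw [norm_pow]
      exact pow_lt_one₀ (norm_nonneg _) hq1 a.pos.ne'
    have h1 := hasSum_geometric_of_norm_lt_one ha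
    have h2 : HasSum (fun b : ℕ => (q ^ (a : ℕ)) ^ (b + 1)) ((1 - q ^ (a : ℕ))⁻¹ * q ^ (a : ℕ)) := by
      have := h1.mul_right (q ^ (a : ℕ))
      simpa [pow_succ] using this
    have h3 : (1 - q ^ (a : ℕ))⁻¹ * q ^ (a : ℕ) = (exp ((a : ℕ) * s) - 1)⁻¹ := by
      have e1 : q ^ (a : ℕ) * exp ((a : ℕ) * s) = 1 := by
        rw [hq, ← Complex.exp_nat_mul, ← Complex.exp_add]
        rw [show ((a : ℕ) : ℂ) * -s + ((a : ℕ) : ℂ) * s = 0 by ring, Complex.exp_zero]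
      have e2 : q ^ (a : ℕ) ≠ 0 := by
        intro h; rw [h, zero_mul] at e1; exact zero_ne_one e1
      have e3 : exp ((a : ℕ) * s) = (q ^ (a : ℕ))⁻¹ := eq_inv_of_mul_eq_one_right e1
      have e4 : (1 : ℂ) - q ^ (a : ℕ) ≠ 0 := by
        intro h
        have : q ^ (a : ℕ) = 1 := (sub_eq_zero.1 h).symm
        rw [this, norm_one] at ha
        exact lt_irrefl _ ha
      rw [e3]
      field_simp
    rw [h3] at h2
    have h4 : HasSum (fun b : ℕ+ => (q ^ (a : ℕ)) ^ (b : ℕ)) (exp ((a : ℕ) * s) - 1)⁻¹ := by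
      have := (Equiv.pnatEquivNat.hasSum_iff
        (f := fun b : ℕ => (q ^ (a : ℕ)) ^ (b + 1)) (a := (exp ((a : ℕ) * s) - 1)⁻¹)).2 h2
      refine this.congr_fun ?_ |> fun h => h
      intro b
      simp [Equiv.pnatEquivNat]
    refine h4.congr_fun ?_ |> fun h => h
    intro b
    rw [pow_mul]
  have htot : ∑' c : ℕ+ × ℕ+, ((c.1 : ℕ) : ℂ)⁻¹ * q ^ ((c.1 : ℕ) * (c.2 : ℕ)) = g s := by
    rw [← sigmaAntidiagonalEquivProd.tsum_eq]
    have e1 : ∀ c : (Σ n : ℕ+, Nat.divisorsAntidiagonal n),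
        (((sigmaAntidiagonalEquivProd c).1 : ℕ) : ℂ)⁻¹ *
          q ^ (((sigmaAntidiagonalEquivProd c).1 : ℕ) * ((sigmaAntidiagonalEquivProd c).2 : ℕ)) =
        ((c.2.1.1 : ℕ) : ℂ)⁻¹ * q ^ ((c.2.1.1 : ℕ) * (c.2.1.2 : ℕ)) := fun c => rfl
    rw [tsum_congr e1, (summable_sig hq1).tsum_sigma, tsum_congr fun n => sum_antidiag n q]
    rw [g, ← Equiv.pnatEquivNat.tsum_eq]
    refine tsum_congr fun n => ?_
    have h1 : Equiv.pnatEquivNat n = n.natPred := rfl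
    have h2 : (n : ℕ) = n.natPred + 1 := (PNat.natPred_add_one n).symm
    rw [h1]
    rw [h2]
    rw [hq, ← Complex.exp_nat_mul]
    push_cast
    congr 2
    ring
  have h5 := hsp.hasSum.prod_fiberwise hin
  rw [htot] at h5
  have h6 := (Equiv.pnatEquivNat.symm.hasSum_iff
    (f := fun a : ℕ+ => ((a : ℕ) : ℂ)⁻¹ * (exp ((a : ℕ) * s) - 1)⁻¹) (a := g s)).2 h5
  refine h6.congr_fun ?_ |> fun h => h
  intro a
  simp only [Function.comp_apply, Equiv.pnatEquivNat_symm_apply, Nat.succPNat_coe]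
  push_cast
  rfl

/-- the imaginary part of `1 / (e^z - 1)` -/
lemma im_inv_exp {x y : ℝ} (hx : 0 < x) :
    ((exp (x + y * I) - 1)⁻¹).im = -(1 / 2 * (Real.sin y / (Real.cosh x - Real.cos y))) := by
  have hc : 1 < Real.cosh x := Real.one_lt_cosh.2 hx.ne'
  have h1 : 0 < Real.cosh x - Real.cos y := by linarith [Real.cos_le_one y]
  have hre : (exp (x + y * I) - 1).re = Real.exp x * Real.cos y - 1 := by
    rw [Complex.sub_re, Complex.exp_re]
    simp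
  have him : (exp (x + y * I) - 1).im = Real.exp x * Real.sin y := by
    rw [Complex.sub_im, Complex.exp_im]
    simp
  have hn : normSq (exp (x + y * I) - 1) = 2 * Real.exp x * (Real.cosh x - Real.cos y) := by
    rw [Complex.normSq_apply, hre, him, Real.cosh_eq]
    have e1 := Real.sin_sq_add_cos_sq y
    have e2 : Real.exp x * Real.exp (-x) = 1 := by rw [← Real.exp_add]; simp
    linear_combination (Real.exp x) ^ 2 * e1 - e2
  rw [Complex.inv_im, hn, him]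
  have := Real.exp_pos x
  field_simp

lemma sin_div_le {x y : ℝ} (hx : 0 < x) :
    Real.sin y / (Real.cosh x - Real.cos y) ≤ 1 / Real.sinh x := by
  have hc : 1 < Real.cosh x := Real.one_lt_cosh.2 hx.ne'
  have h1 : 0 < Real.cosh x - Real.cos y := by linarith [Real.cos_le_one y]
  have h2 : 0 < Real.sinh x := Real.sinh_pos_iff.2 hx
  rw [div_le_div_iff₀ h1 h2]
  have h3 := Real.cosh_sq x
  have h4 := Real.sin_sq_add_cos_sq y
  have h5 : (Real.sinh x * Real.sin y + Real.cos y) ^ 2 ≤ Real.cosh x ^ 2 := by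
    rw [h3]
    nlinarith [sq_nonneg (Real.sinh x * Real.cos y - Real.sin y)]
  have h6 := (abs_le.1 (abs_le_of_sq_le_sq h5 (by linarith))).2
  linarith [h6]

lemma inv_two_sinh {x : ℝ} (hx : 0 < x) :
    (Real.exp x - 1)⁻¹ - (Real.exp (2 * x) - 1)⁻¹ = 1 / 2 / Real.sinh x := by
  have h1 : 1 < Real.exp x := Real.one_lt_exp_iff.2 hx
  have h2 : Real.exp (2 * x) = Real.exp x ^ 2 := by rw [← Real.exp_nat_mul]; norm_num
  have h3 : Real.sinh x = (Real.exp x ^ 2 - 1) / (2 * Real.exp x) := by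
    rw [Real.sinh_eq, Real.exp_neg]
    have := Real.exp_pos x
    field_simp
  rw [h2, h3]
  have h4 : Real.exp x - 1 ≠ 0 := by linarith
  have h5 : Real.exp x ^ 2 - 1 ≠ 0 := by nlinarith
  have h6 := (Real.exp_pos x).ne'
  field_simp
  ring

theorem im_bound {δ : ℝ} (hδ : 0 < δ) (φ : ℝ) : -(g (δ + φ * I)).im ≤
    1 / 2 * (Real.sin φ / (Real.cosh δ - Real.cos φ)) - 1 / 2 / Real.sinh δ +
      (g δ - g (2 * δ)).re := by
  have hs : 0 < ((δ : ℂ) + φ * I).re := by simpa using hδ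
  -- the series of the imaginary parts
  have h1 : HasSum (fun a : ℕ => ((a : ℝ) + 1)⁻¹ * (1 / 2 * (Real.sin (((a : ℝ) + 1) * φ) /
      (Real.cosh (((a : ℝ) + 1) * δ) - Real.cos (((a : ℝ) + 1) * φ)))))
      (-(g (δ + φ * I)).im) := by
    have h := (Complex.hasSum_im (lambert hs)).neg
    refine h.congr_fun ?_ |> fun h => h
    intro a
    have hpos : 0 < ((a : ℝ) + 1) * δ := by positivity
    have e1 : ((a : ℂ) + 1) * (δ + φ * I) =
        ((((a : ℝ) + 1) * δ : ℝ) : ℂ) + ((((a : ℝ) + 1) * φ : ℝ) : ℂ) * I := by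
      push_cast; ring
    have e2 : ((a : ℂ) + 1)⁻¹ = ((((a : ℝ) + 1)⁻¹ : ℝ) : ℂ) := by push_cast; rfl
    rw [e1, e2, Complex.im_ofReal_mul, im_inv_exp hpos]
    ring
  -- the series for `g δ - g (2 δ)`
  have h2 : HasSum (fun a : ℕ => ((a : ℝ) + 1)⁻¹ * (1 / 2 / Real.sinh (((a : ℝ) + 1) * δ)))
      (g δ - g (2 * δ)).re := by
    have ha : 0 < ((δ : ℂ)).re := by simpa using hδ
    have hb : 0 < ((2 * (δ : ℂ))).re := by simpa using hδ
    have h := Complex.hasSum_re ((lambert ha).sub (lambert hb))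
    refine h.congr_fun ?_ |> fun h => h
    intro a
    have hpos : 0 < ((a : ℝ) + 1) * δ := by positivity
    rw [← inv_two_sinh hpos, ← mul_sub, ← Complex.ofReal_re (((a : ℝ) + 1)⁻¹ *
      ((Real.exp (((a : ℝ) + 1) * δ) - 1)⁻¹ - (Real.exp (2 * (((a : ℝ) + 1) * δ)) - 1)⁻¹))]
    congr 1
    push_cast
    congr 4
    ring_nf
  -- comparison
  have h3 : HasSum (fun a : ℕ => if a = 0 then
      1 / 2 * (Real.sin φ / (Real.cosh δ - Real.cos φ)) - 1 / 2 / Real.sinh δ else 0)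
      (1 / 2 * (Real.sin φ / (Real.cosh δ - Real.cos φ)) - 1 / 2 / Real.sinh δ) :=
    hasSum_ite_eq 0 _
  refine hasSum_le ?_ h1 (h3.add h2)
  intro a
  by_cases ha : a = 0
  · subst ha
    simp
  · rw [if_neg ha, zero_add]
    have hpos : 0 < ((a : ℝ) + 1) * δ := by positivity
    have h4 := sin_div_le (y := ((a : ℝ) + 1) * φ) hpos
    have h5 : 0 < ((a : ℝ) + 1)⁻¹ := by positivity
    have h6 : 1 / 2 / Real.sinh (((a : ℝ) + 1) * δ) = 1 / 2 * (1 / Real.sinh (((a : ℝ) + 1) * δ)) := by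
      ring
    rw [h6]
    gcongr

end Pool.Agent.T6.H86.DA
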