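import Mathlib

/-!
# A real inequality used far from the saddle point
-/

set_option autoImplicit false

namespace Pool.Agent.T6.H86.DA

lemma six_pow_le_factorial (n : ℕ) : (6 : ℝ) ^ n ≤ ((2 * n + 1).factorial : ℝ) := by
  induction n with
  | zero => simp
  | succ n ih =>
    have h : (2 * (n + 1) + 1).factorial = (2 * n + 3) * ((2 * n + 2) * (2 * n + 1).factorial) := by
      rw [show 2 * (n + 1) + 1 = (2 * n + 2) + 1 by ring, Nat.factorial_succ,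
        show 2 * n + 2 = (2 * n + 1) + 1 by ring, Nat.factorial_succ]
    rw [h, pow_succ]
    push_cast
    have h0 : (0 : ℝ) ≤ ((2 * n + 1).factorial : ℝ) := by positivity
    have h1 : (0 : ℝ) ≤ n := by positivity
    have h2 : (6 : ℝ) ≤ (2 * n + 3) * (2 * n + 2) := by nlinarith
    calc (6 : ℝ) ^ n * 6 ≤ ((2 * n + 1).factorial : ℝ) * ((2 * n + 3) * (2 * n + 2)) := by gcongr
      _ = _ := by ring

lemma sinh_mul_le {x : ℝ} (hx : 0 < x) (h : x ^ 2 < 6) : Real.sinh x * (1 - x ^ 2 / 6) ≤ x := by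
  have hr : |x ^ 2 / 6| < 1 := by
    rw [abs_of_nonneg (by positivity)]; linarith
  have h1 : HasSum (fun n : ℕ => x * (x ^ 2 / 6) ^ n) (x * (1 - x ^ 2 / 6)⁻¹) :=
    (hasSum_geometric_of_abs_lt_one hr).mul_left x
  have h2 := Real.hasSum_sinh x
  have h3 : Real.sinh x ≤ x * (1 - x ^ 2 / 6)⁻¹ := by
    refine hasSum_le (fun n => ?_) h2 h1
    have h4 := six_pow_le_factorial n
    rw [div_le_iff₀ (by positivity), div_pow]
    calc x ^ (2 * n + 1) = x * ((x ^ 2) ^ n / 6 ^ n) * 6 ^ n := by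
          field_simp
          ring
      _ ≤ _ := by gcongr
  have h5 : 0 < 1 - x ^ 2 / 6 := by linarith
  calc Real.sinh x * (1 - x ^ 2 / 6) ≤ x * (1 - x ^ 2 / 6)⁻¹ * (1 - x ^ 2 / 6) := by gcongr
    _ = x := by rw [mul_assoc, inv_mul_cancel₀ h5.ne', mul_one]

lemma cosh_lower {x : ℝ} (hx : 0 ≤ x) : 1 + x ^ 2 / 2 ≤ Real.cosh x := by
  have h1 : Real.cosh x = 1 + 2 * Real.sinh (x / 2) ^ 2 := by
    have h2 := Real.cosh_two_mul (x / 2)
    have h3 := Real.cosh_sq (x / 2)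
    rw [show 2 * (x / 2) = x by ring] at h2
    rw [h2, h3]; ring
  have h4 : x / 2 ≤ Real.sinh (x / 2) := Real.self_le_sinh_iff.2 (by positivity)
  have h5 : (x / 2) ^ 2 ≤ Real.sinh (x / 2) ^ 2 := pow_le_pow_left₀ (by positivity) h4 2
  rw [h1]
  nlinarith

lemma mul_cos_le_sin {x : ℝ} (h0 : 0 ≤ x) (h1 : x < Real.pi / 2) :
    x * Real.cos x ≤ Real.sin x := by
  have hc : 0 < Real.cos x := Real.cos_pos_of_mem_Ioo ⟨by linarith, h1⟩
  have h2 := Real.le_tan h0 h1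
  rw [Real.tan_eq_sin_div_cos, le_div_iff₀ hc] at h2
  exact h2

/-- `tan x ≥ x + x ^ 3 / 3` -/
lemma cubic_mul_cos_le_sin {x : ℝ} (h0 : 0 ≤ x) (h1 : x < Real.pi / 2) :
    (x + x ^ 3 / 3) * Real.cos x ≤ Real.sin x := by
  have hd : ∀ t : ℝ, HasDerivAt (fun t : ℝ => Real.sin t - (t + t ^ 3 / 3) * Real.cos t)
      (Real.cos t - ((1 + t ^ 2) * Real.cos t + (t + t ^ 3 / 3) * (-Real.sin t))) t := by
    intro t
    have e := (((hasDerivAt_id t).add (((hasDerivAt_id t).pow 3).div_const 3)).mul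
      (Real.hasDerivAt_cos t))
    have e2 := (Real.hasDerivAt_sin t).sub e
    refine e2.congr_deriv ?_
    simp
  have hm : MonotoneOn (fun t : ℝ => Real.sin t - (t + t ^ 3 / 3) * Real.cos t)
      (Set.Icc 0 x) := by
    apply monotoneOn_of_deriv_nonneg (convex_Icc 0 x)
    · exact fun t _ => (hd t).continuousAt.continuousWithinAt
    · exact fun t _ => (hd t).differentiableAt.differentiableWithinAt
    · intro t ht
      rw [interior_Icc] at ht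
      rw [(hd t).deriv]
      have ht0 : 0 ≤ t := ht.1.le
      have ht1 : t < Real.pi / 2 := ht.2.trans h1
      have h2 := mul_cos_le_sin ht0 ht1
      have hs : 0 ≤ Real.sin t := Real.sin_nonneg_of_nonneg_of_le_pi ht0 (by linarith)
      have h3 : 0 ≤ t * (Real.sin t - t * Real.cos t) := mul_nonneg ht0 (by linarith)
      have h4 : 0 ≤ t ^ 3 / 3 * Real.sin t := by positivity
      nlinarith
  have := hm (Set.left_mem_Icc.2 h0) (Set.right_mem_Icc.2 h0) h0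
  simp at this
  linarith

theorem far_real {δ : ℝ} (hδ : 0 < δ) (h : δ ≤ 1.2) {φ : ℝ} (hφ : 2 * δ ≤ φ) (hπ : φ ≤ Real.pi) :
    Real.sin φ / (Real.cosh δ - Real.cos φ) + 0.2 / δ ≤ 1 / Real.sinh δ := by
  have hpi3 := Real.pi_gt_three
  set c := Real.cos (φ / 2) with hc
  set s := Real.sin (φ / 2) with hs
  have hcs : c ^ 2 + s ^ 2 = 1 := Real.cos_sq_add_sin_sq (φ / 2)
  have hc0 : 0 ≤ c := Real.cos_nonneg_of_mem_Icc ⟨by linarith, by linarith⟩
  have hs0 : 0 < s := Real.sin_pos_of_pos_of_lt_pi (by linarith) (by linarith)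
  have e1 : Real.sin φ = 2 * s * c := by
    rw [hc, hs, ← Real.sin_two_mul]; ring_nf
  have e2 : Real.cos φ = c ^ 2 - s ^ 2 := by
    rw [hc, hs, ← Real.cos_two_mul']; ring_nf
  have hcosh : 1 + δ ^ 2 / 2 ≤ Real.cosh δ := cosh_lower hδ.le
  set D : ℝ := δ ^ 2 / 2 * c ^ 2 + (2 + δ ^ 2 / 2) * s ^ 2 with hD
  have hD0 : 0 < D := by positivity
  have hDle : D ≤ Real.cosh δ - Real.cos φ := by
    rw [e2, hD]
    nlinarith
  have hsinh0 : 0 < Real.sinh δ := Real.sinh_pos_iff.2 hδ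
  have hsinh : (1 - δ ^ 2 / 6) / δ ≤ 1 / Real.sinh δ := by
    rw [div_le_div_iff₀ hδ hsinh0]
    have := sinh_mul_le hδ (by nlinarith)
    linarith
  -- the tangent
  have ht : (δ + δ ^ 3 / 3) * c ≤ s := by
    have h1 := cubic_mul_cos_le_sin hδ.le (by linarith : δ < Real.pi / 2)
    have h2 : 0 ≤ Real.sin (φ / 2 - δ) :=
      Real.sin_nonneg_of_nonneg_of_le_pi (by linarith) (by linarith)
    rw [Real.sin_sub, ← hc, ← hs] at h2
    have hcd : 0 < Real.cos δ := Real.cos_pos_of_mem_Ioo ⟨by linarith, by linarith⟩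
    have h3 : (δ + δ ^ 3 / 3) * c * Real.cos δ ≤ s * Real.cos δ := by
      have := mul_le_mul_of_nonneg_left h1 hc0
      linarith
    exact le_of_mul_le_mul_right h3 hcd
  obtain ⟨r, hr0, hr⟩ : ∃ r : ℝ, 0 ≤ r ∧ s = (δ + δ ^ 3 / 3) * c + r :=
    ⟨s - (δ + δ ^ 3 / 3) * c, by linarith, by ring⟩
  have hw0 : 0 ≤ δ ^ 2 := by positivity
  have hw1 : δ ^ 2 ≤ 1.44 := by nlinarith
  have hkey : 2 * s * c * δ ≤ (0.8 - δ ^ 2 / 6) * D := by
    rw [hD, hr]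
    have k1 : 0 ≤ δ ^ 2 * (1.15 * (δ ^ 2 / 3) + 1.25 * (δ ^ 2 / 3) ^ 2 - 1.3 * (δ ^ 2 / 3) ^ 3 -
        0.75 * (δ ^ 2 / 3) ^ 4) := by
      apply mul_nonneg hw0
      set w := δ ^ 2 / 3 with hw
      have hw2 : 0 ≤ w := by positivity
      have hw3 : w ≤ 0.48 := by linarith
      have : 0 ≤ w * (1.15 + 1.25 * w - 1.3 * w ^ 2 - 0.75 * w ^ 3) := by
        apply mul_nonneg hw2
        nlinarith [mul_nonneg hw2 hw2, mul_nonneg (mul_nonneg hw2 hw2) hw2]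
      linarith
    have k2 : 0 ≤ δ * ((0.8 - δ ^ 2 / 6) * (1 + δ ^ 2 / 3) * (2 + δ ^ 2 / 2) - 1) := by
      apply mul_nonneg hδ.le
      have : (0.56 : ℝ) ≤ 0.8 - δ ^ 2 / 6 := by linarith
      have h2 : (0.56 : ℝ) * 1 * 2 ≤ (0.8 - δ ^ 2 / 6) * (1 + δ ^ 2 / 3) * (2 + δ ^ 2 / 2) := by
        gcongr <;> linarith
      linarith
    have k3 : 0 ≤ (0.8 - δ ^ 2 / 6) * (2 + δ ^ 2 / 2) := by
      apply mul_nonneg <;> linarith
    have m1 := mul_nonneg k1 (sq_nonneg c)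
    have m2 := mul_nonneg k2 (mul_nonneg hr0 hc0)
    have m3 := mul_nonneg k3 (sq_nonneg r)
    have : (0.8 - δ ^ 2 / 6) * (δ ^ 2 / 2 * c ^ 2 + (2 + δ ^ 2 / 2) *
        ((δ + δ ^ 3 / 3) * c + r) ^ 2) - 2 * ((δ + δ ^ 3 / 3) * c + r) * c * δ =
        δ ^ 2 * (1.15 * (δ ^ 2 / 3) + 1.25 * (δ ^ 2 / 3) ^ 2 - 1.3 * (δ ^ 2 / 3) ^ 3 -
        0.75 * (δ ^ 2 / 3) ^ 4) * c ^ 2 +
        2 * (δ * ((0.8 - δ ^ 2 / 6) * (1 + δ ^ 2 / 3) * (2 + δ ^ 2 / 2) - 1) * (r * c)) +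
        (0.8 - δ ^ 2 / 6) * (2 + δ ^ 2 / 2) * r ^ 2 := by
      ring
    linarith
  have h5 : Real.sin φ / (Real.cosh δ - Real.cos φ) ≤ 2 * s * c / D := by
    rw [e1]
    apply div_le_div_of_nonneg_left _ hD0 hDle
    positivity
  have h6 : 2 * s * c / D ≤ (0.8 - δ ^ 2 / 6) / δ := by
    rw [div_le_div_iff₀ hD0 hδ]
    exact hkey
  have h7 : (0.8 - δ ^ 2 / 6) / δ + 0.2 / δ = (1 - δ ^ 2 / 6) / δ := by
    rw [← add_div]; ring_nf
  linarith

end Pool.Agent.T6.H86.DA
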