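import Pool.Agent.T6.H86.DA.Dev
import Pool.Agent.T6.H86.DA.M1
import Pool.Agent.T6.H86.DA.M3
import Pool.Agent.T6.H86.DA.M8
import Pool.Agent.T6.H86.DA.M11
import Pool.Agent.T6.H86.DA.M12

/-!
# The exponent away from the saddle point
-/

set_option autoImplicit false

namespace Pool.Agent.T6.H86.DA

open scoped ArithmeticFunction.sigma Real
open Complex

lemma g_conj (s : ℂ) : g ((starRingEnd ℂ) s) = (starRingEnd ℂ) (g s) := by
  unfold g
  rw [Complex.conj_tsum]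
  congr 1
  funext m
  generalize σ 1 (m + 1) = k
  simp only [map_mul, map_div₀, map_add, map_natCast, map_one, ← Complex.exp_conj, map_neg]

/-- `v φ = - Im g (δ + φ i)` -/
noncomputable def v (δ φ : ℝ) : ℝ := -(g ((δ : ℂ) + φ * I)).im

lemma v_neg (δ φ : ℝ) : v δ (-φ) = -v δ φ := by
  unfold v
  have : (δ : ℂ) + ((-φ : ℝ) : ℂ) * I = (starRingEnd ℂ) ((δ : ℂ) + φ * I) := by
    simp
  rw [this, g_conj, Complex.conj_im]

lemma v_zero (δ : ℝ) : v δ 0 = 0 := by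
  have := v_neg δ 0
  rw [neg_zero] at this
  linarith

lemma v_pi (δ : ℝ) : v δ π = 0 := by
  have h1 := v_neg δ π
  have h2 : v δ (-π) = v δ π := by
    unfold v
    have := M1.g_periodic ((δ : ℂ) + ((-π : ℝ) : ℂ) * I)
    rw [← this]
    congr 3
    push_cast
    ring
  linarith

lemma hasDerivAt_v {δ : ℝ} (hδ : 0 < δ) (φ : ℝ) :
    HasDerivAt (fun x : ℝ => v δ x) (S 0 ((δ : ℂ) + φ * I)).re φ := by
  have h := hasDerivAt_g_path hδ φ
  have h2 := (Complex.imCLM.hasFDerivAt.comp_hasDerivAt φ h).neg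
  refine h2.congr_deriv ?_
  simp

lemma continuous_v {δ : ℝ} (hδ : 0 < δ) : Continuous (fun x : ℝ => v δ x) :=
  continuous_iff_continuousAt.2 fun x => (hasDerivAt_v hδ x).continuousAt

lemma v_mono {δ a b : ℝ} (hδ : 0 < δ)
    (h : ∀ φ, a < φ → φ < b → 0 ≤ (S 0 ((δ : ℂ) + φ * I)).re) :
    MonotoneOn (fun x : ℝ => v δ x) (Set.Icc a b) := by
  apply monotoneOn_of_deriv_nonneg (convex_Icc a b) (continuous_v hδ).continuousOn
  · intro x _
    exact (hasDerivAt_v hδ x).differentiableAt.differentiableWithinAt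
  · intro x hx
    rw [interior_Icc] at hx
    rw [(hasDerivAt_v hδ x).deriv]
    exact h x hx.1 hx.2

lemma v_anti {δ a b : ℝ} (hδ : 0 < δ)
    (h : ∀ φ, a < φ → φ < b → (S 0 ((δ : ℂ) + φ * I)).re ≤ 0) :
    AntitoneOn (fun x : ℝ => v δ x) (Set.Icc a b) := by
  apply antitoneOn_of_deriv_nonpos (convex_Icc a b) (continuous_v hδ).continuousOn
  · intro x _
    exact (hasDerivAt_v hδ x).differentiableAt.differentiableWithinAt
  · intro x hx
    rw [interior_Icc] at hx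
    rw [(hasDerivAt_v hδ x).deriv]
    exact h x hx.1 hx.2

/-- first order Taylor bound for `S 0` -/
lemma Sad.taylor1 {lam δ y z : ℝ} (h : Sad lam δ y z) {u : ℝ} (hu : |u| ≤ δ / 5) :
    |(S 0 ((δ : ℂ) + ((δ * y + u : ℝ) : ℂ) * I)).re + rho δ y * u| ≤
      6.8 * rho δ y / δ / 2 * |u| ^ 2 := by
  have hδ := h.hδ
  set K := 6.8 * rho δ y / δ with hK
  have hS2 : ∀ u : ℝ, |u| ≤ δ / 5 → ‖S 2 ((δ : ℂ) + ((δ * y + u : ℝ) : ℂ) * I)‖ ≤ K := by
    intro u hu
    have := abs_le.1 hu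
    exact h.S2_le (by linarith) (by linarith)
  have h1 := norm_le_of_deriv (a := δ / 5) (C := K) 0
    (f := fun x : ℝ => -I * (S 1 ((δ : ℂ) + ((δ * y + x : ℝ) : ℂ) * I) -
      S 1 ((δ : ℂ) + δ * y * I)))
    (f' := fun x : ℝ => -S 2 ((δ : ℂ) + ((δ * y + x : ℝ) : ℂ) * I))
    (fun x _ => by
      have := (((hasDerivAt_shift (hasDerivAt_S_path 1 hδ (δ * y + x))).sub_const
        (S 1 ((δ : ℂ) + δ * y * I))).const_mul (-I))
      refine this.congr_deriv ?_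
      linear_combination (S 2 ((δ : ℂ) + ((δ * y + x : ℝ) : ℂ) * I)) * Complex.I_sq)
    (by simp only [cast_path, sub_self, mul_zero])
    (fun x hx => by
      rw [norm_neg, pow_zero, mul_one]
      exact hS2 x hx)
  have h2 := norm_le_of_deriv (a := δ / 5) (C := K) 1
    (f := fun x : ℝ => (S 0 ((δ : ℂ) + ((δ * y + x : ℝ) : ℂ) * I) + lam * I) +
      I * S 1 ((δ : ℂ) + δ * y * I) * x)
    (f' := fun x : ℝ => -I * (S 1 ((δ : ℂ) + ((δ * y + x : ℝ) : ℂ) * I) -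
      S 1 ((δ : ℂ) + δ * y * I)))
    (fun x _ => by
      have a1 := (hasDerivAt_shift (hasDerivAt_S_path 0 hδ (δ * y + x))).add_const ((lam : ℂ) * I)
      have a2 := ((hasDerivAt_id x).ofReal_comp).const_mul (I * S 1 ((δ : ℂ) + δ * y * I))
      refine (a1.add a2).congr_deriv ?_
      simp
      ring)
    (by
      simp only [cast_path, h.hS]
      simp)
    (fun x hx => by
      have := h1 x hx
      simpa using this)
  have h3 := (Complex.abs_re_le_norm _).trans (h2 u hu)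
  have e : (I * S 1 ((δ : ℂ) + δ * y * I) * (u : ℂ)).re = rho δ y * u := by
    rw [mul_comm, Complex.re_ofReal_mul, Complex.I_mul_re, rho]
    ring
  have e2 : ((lam : ℂ) * I).re = 0 := by
    rw [Complex.re_ofReal_mul, Complex.I_re, mul_zero]
  rw [Complex.add_re, Complex.add_re, e, e2, add_zero] at h3
  norm_num at h3 ⊢
  exact h3

lemma Sad.S0_near_nonneg {lam δ y z : ℝ} (h : Sad lam δ y z) {φ : ℝ} (h1 : δ * y - δ / 5 ≤ φ)
    (h2 : φ ≤ δ * y) : 0 ≤ (S 0 ((δ : ℂ) + φ * I)).re := by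
  have hδ := h.hδ
  have hr := h.rho_pos
  have ht := h.taylor1 (u := φ - δ * y) (by rw [abs_le]; constructor <;> linarith)
  rw [show δ * y + (φ - δ * y) = φ by ring] at ht
  have h3 := (abs_le.1 ht).1
  have h4 : 6.8 * rho δ y / δ / 2 * |φ - δ * y| ^ 2 ≤ rho δ y * (δ * y - φ) := by
    rw [abs_of_nonpos (by linarith)]
    have e : 6.8 * rho δ y / δ / 2 * (-(φ - δ * y)) ^ 2 =
        rho δ y * (δ * y - φ) * (3.4 * (δ * y - φ) / δ) := by field_simp; ring
    rw [e]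
    have : 3.4 * (δ * y - φ) / δ ≤ 1 := by rw [div_le_one hδ]; linarith
    have h0 : 0 ≤ rho δ y * (δ * y - φ) := mul_nonneg hr.le (by linarith)
    nlinarith
  linarith

lemma Sad.S0_near_nonpos {lam δ y z : ℝ} (h : Sad lam δ y z) {φ : ℝ} (h1 : δ * y ≤ φ)
    (h2 : φ ≤ δ * y + δ / 5) : (S 0 ((δ : ℂ) + φ * I)).re ≤ 0 := by
  have hδ := h.hδ
  have hr := h.rho_pos
  have ht := h.taylor1 (u := φ - δ * y) (by rw [abs_le]; constructor <;> linarith)
  rw [show δ * y + (φ - δ * y) = φ by ring] at ht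
  have h3 := (abs_le.1 ht).2
  have h4 : 6.8 * rho δ y / δ / 2 * |φ - δ * y| ^ 2 ≤ rho δ y * (φ - δ * y) := by
    rw [abs_of_nonneg (by linarith)]
    have e : 6.8 * rho δ y / δ / 2 * (φ - δ * y) ^ 2 =
        rho δ y * (φ - δ * y) * (3.4 * (φ - δ * y) / δ) := by field_simp; ring
    rw [e]
    have : 3.4 * (φ - δ * y) / δ ≤ 1 := by rw [div_le_one hδ]; linarith
    have h0 : 0 ≤ rho δ y * (φ - δ * y) := mul_nonneg hr.le (by linarith)
    nlinarith
  linarith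

lemma Sad.mono {lam δ y z : ℝ} (h : Sad lam δ y z) :
    MonotoneOn (fun x : ℝ => v δ x) (Set.Icc 0 (δ * y)) := by
  apply v_mono h.hδ
  intro φ h1 h2
  rcases le_total φ (δ * y - δ / 5) with h3 | h3
  · exact (S0_pos_left h h1.le h3).le
  · exact h.S0_near_nonneg h3 h2.le

lemma Sad.anti {lam δ y z : ℝ} (h : Sad lam δ y z) (hδ : δ ≤ 1.2) :
    AntitoneOn (fun x : ℝ => v δ x) (Set.Icc (δ * y) (2 * δ)) := by
  apply v_anti h.hδ
  intro φ h1 h2
  rcases le_total φ (δ * y + δ / 5) with h3 | h3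
  · exact h.S0_near_nonpos h1.le h3
  · exact (S0_neg_right h h3 h2.le hδ).le

lemma Sad.anti' {lam δ y z : ℝ} (h : Sad lam δ y z) (hδ : 1.2 ≤ δ) :
    AntitoneOn (fun x : ℝ => v δ x) (Set.Icc (δ * y) π) := by
  apply v_anti h.hδ
  intro φ h1 h2
  rcases le_total φ (δ * y + δ / 5) with h3 | h3
  · exact h.S0_near_nonpos h1.le h3
  · exact (S0_neg_right' h h3 h2.le hδ).le

lemma Sad.dy_lt {lam δ y z : ℝ} (h : Sad lam δ y z) : δ * y + δ / 5 < π := by
  have h1 := h.hz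
  have h2 := h.hz2
  have hy := h.hy
  have hδ := h.hδ
  have hpi := Real.pi_gt_three
  -- `δ (y + 0.2) ≤ δ (1 + y^2)`
  have : δ * (y + 0.2) ≤ δ * (1 + y ^ 2) := by
    apply mul_le_mul_of_nonneg_left _ hδ.le
    nlinarith [sq_nonneg (y - 1 / 2)]
  linarith

/-- the drop at distance `δ / 5` -/
lemma Sad.drop_left {lam δ y z : ℝ} (h : Sad lam δ y z) :
    v δ (δ * y - δ / 5) - v δ (δ * y) ≤ -(0.2733 * rho δ y) * (δ / 5) ^ 2 := by
  have hδ := h.hδ
  have h1 := h.E1_le (u := -(δ / 5)) (by rw [abs_neg, abs_of_pos (by positivity)])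
  rw [h.E1_re, neg_sq] at h1
  have e : (δ : ℂ) + δ * y * I = (δ : ℂ) + ((δ * y : ℝ) : ℂ) * I := by push_cast; ring
  rw [e] at h1
  unfold v
  rw [show δ * y - δ / 5 = δ * y + -(δ / 5) by ring]
  linarith

lemma Sad.drop_right {lam δ y z : ℝ} (h : Sad lam δ y z) :
    v δ (δ * y + δ / 5) - v δ (δ * y) ≤ -(0.2733 * rho δ y) * (δ / 5) ^ 2 := by
  have hδ := h.hδ
  have h1 := h.E1_le (u := δ / 5) (by rw [abs_of_pos (by positivity)])
  rw [h.E1_re] at h1
  have e : (δ : ℂ) + δ * y * I = (δ : ℂ) + ((δ * y : ℝ) : ℂ) * I := by push_cast; ring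
  rw [e] at h1
  unfold v
  linarith

lemma Sad.mid_left {lam δ y z : ℝ} (h : Sad lam δ y z) {φ : ℝ} (h0 : 0 ≤ φ)
    (h1 : φ ≤ δ * y - δ / 5) :
    v δ φ - v δ (δ * y) ≤ -(0.2733 * rho δ y) * (δ / 5) ^ 2 := by
  have hδ := h.hδ
  have h2 := h.mono (a := φ) ⟨h0, by linarith⟩ (b := δ * y - δ / 5) ⟨by linarith, by linarith⟩ h1
  have h3 := h.drop_left
  simp only at h2
  linarith

lemma Sad.mid_right {lam δ y z : ℝ} (h : Sad lam δ y z) (hd : δ ≤ 1.2) {φ : ℝ}
    (h1 : δ * y + δ / 5 ≤ φ) (h2 : φ ≤ 2 * δ) :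
    v δ φ - v δ (δ * y) ≤ -(0.2733 * rho δ y) * (δ / 5) ^ 2 := by
  have hδ := h.hδ
  have h2 := h.anti hd (a := δ * y + δ / 5) ⟨by linarith, by linarith⟩ (b := φ)
    ⟨by linarith, by linarith⟩ h1
  have h3 := h.drop_right
  simp only at h2
  linarith

/-- all far points, `δ ≥ 1.2` -/
lemma Sad.far_big {lam δ y z : ℝ} (h : Sad lam δ y z) (hd : 1.2 ≤ δ) {φ : ℝ}
    (h1 : -π ≤ φ) (h2 : φ ≤ π) (h3 : φ ≤ δ * y - δ / 5 ∨ δ * y + δ / 5 ≤ φ) :
    v δ φ - v δ (δ * y) ≤ -(0.2733 * rho δ y) * (δ / 5) ^ 2 := by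
  have hδ := h.hδ
  have hy := h.hy
  have hyg := h.y_ge
  have hdy := h.dy_lt
  have hdy0 : 0 ≤ δ * y := by positivity
  have hnn : ∀ x, 0 ≤ x → x ≤ π → 0 ≤ v δ x := by
    intro x hx0 hx1
    rcases le_total x (δ * y) with hx | hx
    · have := h.mono (a := 0) ⟨le_refl _, hdy0⟩ (b := x) ⟨hx0, hx⟩ hx0
      simp only [v_zero] at this
      exact this
    · have := h.anti' hd (a := x) ⟨hx, hx1⟩ (b := π) ⟨by linarith, le_refl _⟩ hx1
      simp only [v_pi] at this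
      exact this
  have hleft : v δ 0 - v δ (δ * y) ≤ -(0.2733 * rho δ y) * (δ / 5) ^ 2 :=
    h.mid_left (le_refl 0) (by nlinarith)
  rcases le_total φ 0 with h0 | h0
  · have h4 := hnn (-φ) (by linarith) (by linarith)
    rw [v_neg] at h4
    rw [v_zero] at hleft
    linarith
  · rcases h3 with h3 | h3
    · exact h.mid_left h0 h3
    · have h4 := h.anti' hd (a := δ * y + δ / 5) ⟨by linarith, by linarith⟩ (b := φ)
        ⟨by linarith, by linarith⟩ h3
      have h5 := h.drop_right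
      simp only at h4
      linarith

/-- the very far points, `δ ≤ 1.2` -/
lemma Sad.far_small {lam δ y z : ℝ} (h : Sad lam δ y z) (hd : δ ≤ 1.2) {φ : ℝ}
    (h1 : -π ≤ φ) (h2 : φ ≤ π) (h3 : φ ≤ 0 ∨ 2 * δ ≤ φ) :
    v δ φ - v δ (δ * y) ≤ -(0.1 / δ - 0.0465) := by
  have hδ := h.hδ
  have hy := h.hy
  have hy1 := h.y_lt_one
  have hpi := Real.pi_gt_three
  -- value at the saddle
  have hva : v δ δ ≤ v δ (δ * y) := by
    have := h.anti hd (a := δ * y) ⟨le_refl _, by nlinarith⟩ (b := δ) ⟨by nlinarith, by linarith⟩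
      (by nlinarith)
    simpa using this
  have hfg := far_g hδ hd
  have hib := im_bound hδ φ
  have hreal : Real.sin φ / (Real.cosh δ - Real.cos φ) + 0.2 / δ ≤ 1 / Real.sinh δ := by
    rcases h3 with h3 | h3
    · have hs : Real.sin φ ≤ 0 := Real.sin_nonpos_of_nonpos_of_neg_pi_le h3 h1
      have hc : 0 < Real.cosh δ - Real.cos φ := by
        have : 1 < Real.cosh δ := Real.one_lt_cosh.2 hδ.ne'
        linarith [Real.cos_le_one φ]
      have h4 : Real.sin φ / (Real.cosh δ - Real.cos φ) ≤ 0 := div_nonpos_of_nonpos_of_nonneg hs hc.le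
      have h5 := far_real hδ hd (φ := π) (by linarith) (le_refl _)
      rw [Real.sin_pi, zero_div, zero_add] at h5
      linarith
    · exact far_real hδ hd h3 h2
  have e : v δ φ = -(g (δ + φ * I)).im := rfl
  have e2 : v δ δ = -(g (δ + δ * I)).im := rfl
  rw [← e] at hib
  rw [← e2] at hfg
  have e3 : (0.1 : ℝ) / δ = 0.2 / δ / 2 := by ring
  have e4 : 1 / 2 / Real.sinh δ = 1 / Real.sinh δ / 2 := by ring
  rw [e3]
  rw [e4] at hib
  linarith

end Pool.Agent.T6.H86.DA
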