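import Pool.Agent.T6.H86.DA.M7e

/-!
# Finite verification: `P_n (18 k i) ≠ 0` for `0.15 * 18 k < n`, `k n < 8889`
-/

set_option autoImplicit false

namespace Pool.Agent.T6.H86.DA

open scoped ArithmeticFunction.sigma
open Finset

namespace M7

/-- `n! P_n (X)` in the Gaussian integers -/
def GB (X : GaussianInt) : ℕ → GaussianInt
  | 0 => 1
  | n + 1 => X * ∑ k : Fin (n + 1), ((σ 1 ((k : ℕ) + 1) : ℕ) : GaussianInt) *
      ((n.descFactorial k : ℕ) : GaussianInt) * GB X (n - k)

theorem toC (X : GaussianInt) (n : ℕ) :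
    GaussianInt.toComplex (GB X n) = (n.factorial : ℂ) * P (GaussianInt.toComplex X) n := by
  induction n using Nat.strong_induction_on with
  | _ n ih =>
    cases n with
    | zero => simp [GB, P]
    | succ n =>
      rw [GB, P, map_mul, map_sum, Nat.factorial_succ]
      have h0 : ((n : ℂ) + 1) ≠ 0 := by exact_mod_cast Nat.succ_ne_zero n
      have h1 : ∑ k : Fin (n + 1), GaussianInt.toComplex
          (((σ 1 ((k : ℕ) + 1) : ℕ) : GaussianInt) * ((n.descFactorial k : ℕ) : GaussianInt) *
            GB X (n - k)) = (n.factorial : ℂ) * ∑ k : Fin (n + 1), (σ 1 ((k : ℕ) + 1) : ℂ) *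
              P (GaussianInt.toComplex X) (n - k) := by
        rw [mul_sum]
        refine sum_congr rfl fun k _ => ?_
        rw [map_mul, map_mul, map_natCast, map_natCast, ih (n - k) (by omega)]
        have hk : (k : ℕ) ≤ n := Nat.lt_succ_iff.1 k.2
        have h2 : (((n - k).factorial : ℕ) : ℂ) * ((n.descFactorial k : ℕ) : ℂ) =
            (n.factorial : ℂ) := by
          exact_mod_cast Nat.factorial_mul_descFactorial hk
        rw [← h2]
        ring
      rw [h1]
      push_cast
      field_simp

theorem toZ {R : Type*} [CommRing R] (φ : GaussianInt →+* R) (X : GaussianInt) (h : ℕ → ℕ) (N : ℕ)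
    (h0 : ((h 0 : ℕ) : R) = 1) (hrec : ∀ i, i < N → φ X * (((∑ x ∈ antidiagonal i, σ 1 x.1 * h x.2 : ℕ)) : R) =
      (i : R) * ((h i : ℕ) : R)) (n : ℕ) (hn : n < N) :
    φ (GB X n) = ((n.factorial : ℕ) : R) * ((h n : ℕ) : R) := by
  induction n using Nat.strong_induction_on with
  | _ n ih =>
    cases n with
    | zero => simp [GB, h0]
    | succ n =>
      rw [GB, map_mul, map_sum, Nat.factorial_succ]
      have h1 : ∑ k : Fin (n + 1), φ
          (((σ 1 ((k : ℕ) + 1) : ℕ) : GaussianInt) * ((n.descFactorial k : ℕ) : GaussianInt) *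
            GB X (n - k)) = ((n.factorial : ℕ) : R) *
              ((∑ k : Fin (n + 1), σ 1 ((k : ℕ) + 1) * h (n - k) : ℕ) : R) := by
        push_cast
        rw [mul_sum]
        refine sum_congr rfl fun k _ => ?_
        rw [map_mul, map_mul, map_natCast, map_natCast, ih (n - k) (by omega) (by omega)]
        have hk : (k : ℕ) ≤ n := Nat.lt_succ_iff.1 k.2
        have h2 : (((n - k).factorial : ℕ) : R) * ((n.descFactorial k : ℕ) : R) =
            ((n.factorial : ℕ) : R) := by
          exact_mod_cast congrArg (fun m : ℕ => (m : R)) (Nat.factorial_mul_descFactorial hk)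
        rw [← h2]
        ring
      have h3 : ∑ k : Fin (n + 1), σ 1 ((k : ℕ) + 1) * h (n - k) =
          ∑ x ∈ antidiagonal (n + 1), σ 1 x.1 * h x.2 := by
        rw [Finset.Nat.sum_antidiagonal_succ]
        have e0 : σ 1 0 = 0 := rfl
        simp only [e0, zero_mul, zero_add]
        rw [Finset.Nat.sum_antidiagonal_eq_sum_range_succ (fun a b => σ 1 (a + 1) * h b) n,
          ← Fin.sum_univ_eq_sum_range (fun a => σ 1 (a + 1) * h (n - a)) (n + 1)]
      rw [h1, h3]
      have h4 := hrec (n + 1) hn
      rw [mul_left_comm, h4]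
      push_cast
      ring

/-- trial division -/
def trial (p : ℕ) : ℕ → Bool
  | 0 => true
  | d + 1 => (p % (d + 2) != 0) && trial p d

theorem trial_spec (p : ℕ) : ∀ f, trial p f = true → ∀ d, d < f → p % (d + 2) ≠ 0 := by
  intro f
  induction f with
  | zero => intro _ d hd; omega
  | succ f ih =>
    intro h d hd
    simp only [trial, Bool.and_eq_true, bne_iff_ne, ne_eq] at h
    rcases Nat.lt_succ_iff_lt_or_eq.1 hd with h1 | h1
    · exact ih h.2 d h1
    · rw [h1]
      exact h.1

theorem trial_pr : trial 1000203877 31625 = true := by decide +kernel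

theorem prime_pr : Nat.Prime pr := by
  rw [Nat.prime_def_le_sqrt]
  refine ⟨by unfold pr; norm_num, fun m hm hs hd => ?_⟩
  have h1 : m ≤ 31626 := by
    have h2 : m * m ≤ pr := Nat.le_sqrt.1 hs
    by_contra hcon
    push Not at hcon
    have h3 : 31627 * 31627 ≤ m * m := Nat.mul_le_mul hcon hcon
    unfold pr at h2
    omega
  obtain ⟨d, rfl⟩ : ∃ d, m = d + 2 := ⟨m - 2, by omega⟩
  exact trial_spec 1000203877 31625 trial_pr d (by omega) (Nat.mod_eq_zero_of_dvd hd)

/-- the homomorphism `i ↦ 31626` -/
noncomputable def phi : GaussianInt →+* ZMod pr :=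
  Zsqrtd.lift ⟨(31626 : ZMod pr), by
    have h : ((31626 * 31626 + 1 : ℕ) : ZMod pr) = 0 := by
      rw [ZMod.natCast_eq_zero_iff]
      exact ⟨1, by unfold pr; norm_num⟩
    push_cast at h ⊢
    linear_combination h⟩

theorem phi_X (m : ℕ) : phi ⟨0, m⟩ = ((m * 31626 : ℕ) : ZMod pr) := by
  unfold phi
  rw [Zsqrtd.lift_apply_apply]
  push_cast
  ring

theorem main (k f U : ℕ) (hf : f ≤ 8889) (h0 : U % W = 1)
    (h : chkB (18 * k * 31626) (f / 64) (f % 64) 0 (Sbig * U) U = true) (n : ℕ) (hn : n < f) :
    P (((18 * k : ℕ) : ℂ) * Complex.I) n ≠ 0 := by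
  have hs := table
  have hc := chkB_spec (18 * k * 31626) (f % 64) (by omega) (f / 64) 0 (Sbig * U) U h
  rw [Nat.div_add_mod f 64] at hc
  have hcf : ∀ m, m < f → cf Sbig U m = ∑ x ∈ antidiagonal m, σ 1 x.1 * dig U x.2 := by
    intro m hm
    refine sum_congr rfl fun x hx => ?_
    have hx' := mem_antidiagonal.1 hx
    rw [(hs x.1 (by omega)).1]
  have hb : ∀ m, m < f → cf Sbig U m < W := by
    intro m hm
    have h1 : cf Sbig U m ≤ ∑ x ∈ antidiagonal m, 32768 * pr := by
      refine sum_le_sum fun x hx => ?_
      have hx' := mem_antidiagonal.1 hx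
      exact Nat.mul_le_mul (hs x.1 (by omega)).2.le (hc x.2 (by omega)).2.2.le
    rw [sum_const, Finset.Nat.card_antidiagonal, smul_eq_mul] at h1
    have h2 : (m + 1) * (32768 * pr) ≤ 8889 * (32768 * pr) := Nat.mul_le_mul_right _ (by omega)
    have h3 : 8889 * (32768 * pr) < W := by
      unfold pr W
      norm_num
    omega
  have hrec : ∀ i, i < f → phi ⟨0, ((18 * k : ℕ) : ℤ)⟩ *
      (((∑ x ∈ antidiagonal i, σ 1 x.1 * dig U x.2 : ℕ)) : ZMod pr) =
        (i : ZMod pr) * ((dig U i : ℕ) : ZMod pr) := by
    intro i hi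
    have h1 := (hc i hi).1
    rw [dig_mul hb hi, hcf i hi, zero_add] at h1
    have h2 := (ZMod.natCast_eq_natCast_iff' _ _ pr).2 h1
    rw [phi_X]
    push_cast at h2 ⊢
    exact h2
  have hu0 : ((dig U 0 : ℕ) : ZMod pr) = 1 := by
    rw [dig_zero, h0, Nat.cast_one]
  have hZ := toZ phi ⟨0, ((18 * k : ℕ) : ℤ)⟩ (dig U) f hu0 hrec n hn
  have hC := toC ⟨0, ((18 * k : ℕ) : ℤ)⟩ n
  have hX : GaussianInt.toComplex ⟨0, ((18 * k : ℕ) : ℤ)⟩ = ((18 * k : ℕ) : ℂ) * Complex.I := by
    rw [GaussianInt.toComplex_def]
    push_cast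
    ring
  intro hP
  rw [hX, hP, mul_zero] at hC
  have h1 : GB ⟨0, ((18 * k : ℕ) : ℤ)⟩ n = 0 := by
    rwa [GaussianInt.toComplex_eq_zero] at hC
  rw [h1, map_zero] at hZ
  have hfact : Fact (Nat.Prime pr) := ⟨prime_pr⟩
  have h2 : ((n.factorial : ℕ) : ZMod pr) ≠ 0 := by
    rw [Ne, ZMod.natCast_eq_zero_iff, prime_pr.dvd_factorial]
    unfold pr
    omega
  have h3 : ((dig U n : ℕ) : ZMod pr) ≠ 0 := by
    rw [Ne, ZMod.natCast_eq_zero_iff]
    intro h4
    have h5 := Nat.le_of_dvd (Nat.pos_of_ne_zero (hc n hn).2.1) h4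
    have h6 := (hc n hn).2.2
    omega
  exact (mul_ne_zero h2 h3) hZ.symm

end M7

open M7 in
/-- **The finite verification.** -/
theorem finite_ne (k n : ℕ) (hk : 1 ≤ k) (h : 18 * k * n < 160000)
    (h2 : 0.15 * ((18 * k : ℕ) : ℝ) < n) : P (((18 * k : ℕ) : ℂ) * Complex.I) n ≠ 0 := by
  have h3 : k * n < 8889 := by
    by_contra hcon
    push Not at hcon
    have : 18 * 8889 ≤ 18 * (k * n) := Nat.mul_le_mul_left _ hcon
    rw [← mul_assoc] at this
    omega
  have h4 : 27 * k < 10 * n := by
    have h5 : (27 * k : ℝ) < 10 * n := by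
      push_cast at h2
      norm_num at h2
      linarith
    exact_mod_cast h5
  have h5 : k ≤ 57 := by
    by_contra hcon
    push Not at hcon
    have h6 : 58 * n ≤ k * n := Nat.mul_le_mul_right _ (by omega)
    have h7 : n ≤ 153 := by omega
    omega
  interval_cases k
  · exact main 1 8889 H1 (by norm_num) (by decide +kernel) c1 n (by omega)
  · exact main 2 4445 H2 (by norm_num) (by decide +kernel) c2 n (by omega)
  · exact main 3 2963 H3 (by norm_num) (by decide +kernel) c3 n (by omega)
  · exact main 4 2223 H4 (by norm_num) (by decide +kernel) c4 n (by omega)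
  · exact main 5 1778 H5 (by norm_num) (by decide +kernel) c5 n (by omega)
  · exact main 6 1482 H6 (by norm_num) (by decide +kernel) c6 n (by omega)
  · exact main 7 1270 H7 (by norm_num) (by decide +kernel) c7 n (by omega)
  · exact main 8 1112 H8 (by norm_num) (by decide +kernel) c8 n (by omega)
  · exact main 9 988 H9 (by norm_num) (by decide +kernel) c9 n (by omega)
  · exact main 10 889 H10 (by norm_num) (by decide +kernel) c10 n (by omega)
  · exact main 11 809 H11 (by norm_num) (by decide +kernel) c11 n (by omega)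
  · exact main 12 741 H12 (by norm_num) (by decide +kernel) c12 n (by omega)
  · exact main 13 684 H13 (by norm_num) (by decide +kernel) c13 n (by omega)
  · exact main 14 635 H14 (by norm_num) (by decide +kernel) c14 n (by omega)
  · exact main 15 593 H15 (by norm_num) (by decide +kernel) c15 n (by omega)
  · exact main 16 556 H16 (by norm_num) (by decide +kernel) c16 n (by omega)
  · exact main 17 523 H17 (by norm_num) (by decide +kernel) c17 n (by omega)
  · exact main 18 494 H18 (by norm_num) (by decide +kernel) c18 n (by omega)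
  · exact main 19 468 H19 (by norm_num) (by decide +kernel) c19 n (by omega)
  · exact main 20 445 H20 (by norm_num) (by decide +kernel) c20 n (by omega)
  · exact main 21 424 H21 (by norm_num) (by decide +kernel) c21 n (by omega)
  · exact main 22 405 H22 (by norm_num) (by decide +kernel) c22 n (by omega)
  · exact main 23 387 H23 (by norm_num) (by decide +kernel) c23 n (by omega)
  · exact main 24 371 H24 (by norm_num) (by decide +kernel) c24 n (by omega)
  · exact main 25 356 H25 (by norm_num) (by decide +kernel) c25 n (by omega)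
  · exact main 26 342 H26 (by norm_num) (by decide +kernel) c26 n (by omega)
  · exact main 27 330 H27 (by norm_num) (by decide +kernel) c27 n (by omega)
  · exact main 28 318 H28 (by norm_num) (by decide +kernel) c28 n (by omega)
  · exact main 29 307 H29 (by norm_num) (by decide +kernel) c29 n (by omega)
  · exact main 30 297 H30 (by norm_num) (by decide +kernel) c30 n (by omega)
  · exact main 31 287 H31 (by norm_num) (by decide +kernel) c31 n (by omega)
  · exact main 32 278 H32 (by norm_num) (by decide +kernel) c32 n (by omega)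
  · exact main 33 270 H33 (by norm_num) (by decide +kernel) c33 n (by omega)
  · exact main 34 262 H34 (by norm_num) (by decide +kernel) c34 n (by omega)
  · exact main 35 254 H35 (by norm_num) (by decide +kernel) c35 n (by omega)
  · exact main 36 247 H36 (by norm_num) (by decide +kernel) c36 n (by omega)
  · exact main 37 241 H37 (by norm_num) (by decide +kernel) c37 n (by omega)
  · exact main 38 234 H38 (by norm_num) (by decide +kernel) c38 n (by omega)
  · exact main 39 228 H39 (by norm_num) (by decide +kernel) c39 n (by omega)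
  · exact main 40 223 H40 (by norm_num) (by decide +kernel) c40 n (by omega)
  · exact main 41 217 H41 (by norm_num) (by decide +kernel) c41 n (by omega)
  · exact main 42 212 H42 (by norm_num) (by decide +kernel) c42 n (by omega)
  · exact main 43 207 H43 (by norm_num) (by decide +kernel) c43 n (by omega)
  · exact main 44 203 H44 (by norm_num) (by decide +kernel) c44 n (by omega)
  · exact main 45 198 H45 (by norm_num) (by decide +kernel) c45 n (by omega)
  · exact main 46 194 H46 (by norm_num) (by decide +kernel) c46 n (by omega)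
  · exact main 47 190 H47 (by norm_num) (by decide +kernel) c47 n (by omega)
  · exact main 48 186 H48 (by norm_num) (by decide +kernel) c48 n (by omega)
  · exact main 49 182 H49 (by norm_num) (by decide +kernel) c49 n (by omega)
  · exact main 50 178 H50 (by norm_num) (by decide +kernel) c50 n (by omega)
  · exact main 51 175 H51 (by norm_num) (by decide +kernel) c51 n (by omega)
  · exact main 52 171 H52 (by norm_num) (by decide +kernel) c52 n (by omega)
  · exact main 53 168 H53 (by norm_num) (by decide +kernel) c53 n (by omega)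
  · exact main 54 165 H54 (by norm_num) (by decide +kernel) c54 n (by omega)
  · exact main 55 162 H55 (by norm_num) (by decide +kernel) c55 n (by omega)
  · exact main 56 159 H56 (by norm_num) (by decide +kernel) c56 n (by omega)
  · exact main 57 156 H57 (by norm_num) (by decide +kernel) c57 n (by omega)

end Pool.Agent.T6.H86.DA
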