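import Pool.Agent.T6.H86.DA.FinalReal
import Pool.Agent.T6.H86.DA.M7
import Pool.Agent.R326.DArcais6

/-!
# Nonvanishing of the D'Arcais polynomials at nonzero integer multiples of `i`
-/

set_option autoImplicit false

namespace Pool.Agent.T6.H86.DA

open scoped ArithmeticFunction.sigma
open Complex Polynomial

lemma P_eq_av (x : ℂ) (n : ℕ) : (n.factorial : ℂ) * P x n = Pool.Agent.R326.av x n := by
  induction n using Nat.strong_induction_on with
  | _ n ih =>
    cases n with
    | zero => simp [P_zero, Pool.Agent.R326.av_zero]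
    | succ n =>
      have hn : ((n : ℂ) + 1) ≠ 0 := by exact_mod_cast Nat.succ_ne_zero n
      rw [Pool.Agent.R326.av_succ, P, Finset.sum_range (fun k =>
        (ArithmeticFunction.sigma 1 (k + 1) : ℂ) * (n.descFactorial k : ℂ) *
          Pool.Agent.R326.av x (n - k))]
      rw [Nat.factorial_succ]
      push_cast
      have h1 : ((n : ℂ) + 1) * (n.factorial : ℂ) * (x / ((n : ℂ) + 1) *
          ∑ k : Fin (n + 1), (ArithmeticFunction.sigma 1 ((k : ℕ) + 1) : ℂ) * P x (n - k)) =
          x * ∑ k : Fin (n + 1), (n.factorial : ℂ) *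
            ((ArithmeticFunction.sigma 1 ((k : ℕ) + 1) : ℂ) * P x (n - k)) := by
        rw [← Finset.mul_sum]
        field_simp
      rw [h1]
      congr 1
      apply Finset.sum_congr rfl
      intro k _
      have hk : (k : ℕ) ≤ n := by have := k.2; omega
      rw [← ih (n - k) (by omega)]
      have h2 := Nat.factorial_mul_descFactorial hk
      have h3 : (n.factorial : ℂ) = ((n - k).factorial : ℂ) * (n.descFactorial k : ℂ) := by
        rw [← h2]; push_cast; ring
      rw [h3]
      ring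

theorem nat_ne {m : ℕ} (hm : 1 ≤ m) (n : ℕ) : P ((m : ℂ) * I) n ≠ 0 := by
  by_cases h18 : 18 ∣ m
  · obtain ⟨k, rfl⟩ := h18
    have hk : 1 ≤ k := by omega
    have hc : ((18 * k : ℕ) : ℂ) = (((18 * k : ℕ) : ℝ) : ℂ) := by push_cast; rfl
    rcases le_or_gt (n : ℝ) (0.15 * ((18 * k : ℕ) : ℝ)) with h1 | h1
    · rw [hc]
      apply small_ne _ _ _ h1
      exact_mod_cast hm
    · rcases lt_or_ge (18 * k * n) 160000 with h2 | h2
      · exact finite_ne k n hk h2 h1
      · rw [hc]
        apply real_ne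
        · exact_mod_cast hm
        · have : ((160000 : ℕ) : ℝ) ≤ ((18 * k * n : ℕ) : ℝ) := by exact_mod_cast h2
          push_cast at this ⊢
          linarith
  · have hx : ((m : ℂ) * I) ^ 2 = -((m ^ 2 : ℕ) : ℂ) := by
      rw [mul_pow, Complex.I_sq]; push_cast; ring
    have hd : (m ^ 2) % 4 = 1 ∨ (m ^ 2) % 4 = 2 ∨ (m ^ 2) % 3 = 1 ∨ (m ^ 2) % 27 = 9 := by
      rcases Nat.even_or_odd' m with ⟨a, ha | ha⟩
      · have h3 : m % 3 ≠ 0 ∨ m % 9 = 3 ∨ m % 9 = 6 := by omega
        rcases h3 with h3 | h3 | h3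
        · right; right; left
          rw [pow_two, Nat.mul_mod]
          have h4 : m % 3 = 1 ∨ m % 3 = 2 := by omega
          rcases h4 with h4 | h4 <;> rw [h4]
        · right; right; right
          obtain ⟨b, hb⟩ : ∃ b, m = 9 * b + 3 := ⟨m / 9, by omega⟩
          rw [hb, show (9 * b + 3) ^ 2 = 27 * (3 * b ^ 2 + 2 * b) + 9 by ring]
          omega
        · right; right; right
          obtain ⟨b, hb⟩ : ∃ b, m = 9 * b + 6 := ⟨m / 9, by omega⟩
          rw [hb, show (9 * b + 6) ^ 2 = 27 * (3 * b ^ 2 + 4 * b + 1) + 9 by ring]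
          omega
      · left
        rw [ha, show (2 * a + 1) ^ 2 = 4 * (a ^ 2 + a) + 1 by ring]
        omega
    have h := Pool.Agent.R326.av_ne_zero hd hx n
    rw [← P_eq_av] at h
    exact right_ne_zero_of_mul h

theorem int_ne {t : ℤ} (ht : t ≠ 0) (n : ℕ) : P (I * (t : ℂ)) n ≠ 0 := by
  obtain ⟨m, rfl | rfl⟩ := t.eq_nat_or_neg
  · have hm : 1 ≤ m := by
      rcases Nat.eq_zero_or_pos m with h | h
      · exact absurd (by rw [h]; rfl) ht
      · exact h
    rw [Int.cast_natCast, mul_comm]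
    exact nat_ne hm n
  · have hm : 1 ≤ m := by
      rcases Nat.eq_zero_or_pos m with h | h
      · exact absurd (by rw [h]; rfl) ht
      · exact h
    have h := nat_ne hm n
    have e : I * ((-(m : ℤ) : ℤ) : ℂ) = (starRingEnd ℂ) ((m : ℂ) * I) := by
      rw [map_mul, Complex.conj_I, Complex.conj_natCast]
      push_cast
      ring
    rw [e, P_conj]
    intro h0
    apply h
    exact (map_eq_zero _).1 h0

end Pool.Agent.T6.H86.DA
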