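import Pool.Agent.T6.H86.DA.Defs

/-!
# D'Arcais polynomials on the imaginary axis: the range `n ≤ 0.15 t`
-/

set_option autoImplicit false

namespace Pool.Agent.T6.H86.DA

open scoped ArithmeticFunction.sigma
open Complex

lemma sigma_le_sq (m : ℕ) : σ 1 m ≤ m ^ 2 := by
  rw [ArithmeticFunction.sigma_one_apply]
  calc ∑ d ∈ m.divisors, d ≤ ∑ d ∈ m.divisors, m :=
        Finset.sum_le_sum fun d hd => Nat.divisor_le hd
    _ = m.divisors.card * m := by rw [Finset.sum_const, smul_eq_mul]
    _ ≤ m * m := Nat.mul_le_mul_right _ (Nat.card_divisors_le_self m)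
    _ = m ^ 2 := by ring

lemma sigma_geom (k : ℕ) : (σ 1 (k + 4) : ℝ) ≤ 7 * (3 / 2 : ℝ) ^ k := by
  have hbig : ∀ j : ℕ, ((j : ℝ) + 12) ^ 2 ≤ 7 * (3 / 2 : ℝ) ^ (j + 8) := by
    intro j
    induction j with
    | zero => norm_num
    | succ j ih =>
      push_cast
      have h0 : (0 : ℝ) ≤ j := Nat.cast_nonneg j
      have : 7 * (3 / 2 : ℝ) ^ (j + 1 + 8) = 3 / 2 * (7 * (3 / 2 : ℝ) ^ (j + 8)) := by ring
      rw [this]
      nlinarith
  rcases Nat.lt_or_ge k 8 with h | h
  · have h1 : ∀ k < 8, (σ 1 (k + 4)) * 2 ^ k ≤ 7 * 3 ^ k := by decide +kernel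
    have h2 := h1 k h
    have h3 : ((σ 1 (k + 4) : ℕ) : ℝ) * 2 ^ k ≤ 7 * 3 ^ k := by exact_mod_cast h2
    rw [div_pow, ← mul_div_assoc, le_div_iff₀ (by positivity)]
    exact h3
  · obtain ⟨j, rfl⟩ := Nat.exists_eq_add_of_le h
    have h1 := hbig j
    have h2 : ((σ 1 (8 + j + 4) : ℕ) : ℝ) ≤ ((8 + j + 4 : ℕ) : ℝ) ^ 2 := by
      exact_mod_cast sigma_le_sq (8 + j + 4)
    have e : ((8 + j + 4 : ℕ) : ℝ) = (j : ℝ) + 12 := by push_cast; ring
    rw [e] at h2
    rw [add_comm 8 j]
    rw [add_comm 8 j] at h2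
    exact h2.trans h1

/-- The tail of the recursion. -/
lemma tail_bound (z : ℕ → ℂ) (u : ℝ) (hu : 0 ≤ u)
    (hz : ∀ k, ‖z (k + 3)‖ ≤ u * (1 / 5 : ℝ) ^ (k + 2)) (n : ℕ) :
    ‖∑ k ∈ Finset.range n, (σ 1 (k + 4) : ℂ) * z (k + 3)‖ ≤ 2 / 5 * u := by
  have h1 : ‖∑ k ∈ Finset.range n, (σ 1 (k + 4) : ℂ) * z (k + 3)‖ ≤
      ∑ k ∈ Finset.range n, (7 / 25 * u) * (3 / 10 : ℝ) ^ k := by
    refine (norm_sum_le _ _).trans (Finset.sum_le_sum fun k _ => ?_)
    rw [norm_mul, Complex.norm_natCast]
    calc (σ 1 (k + 4) : ℝ) * ‖z (k + 3)‖ ≤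
          (7 * (3 / 2 : ℝ) ^ k) * (u * (1 / 5 : ℝ) ^ (k + 2)) := by
          have := sigma_geom k
          have := hz k
          gcongr
      _ = (7 / 25 * u) * (3 / 10 : ℝ) ^ k := by
          have : (3 / 10 : ℝ) ^ k = (3 / 2 : ℝ) ^ k * (1 / 5 : ℝ) ^ k := by
            rw [← mul_pow]; norm_num
          rw [this]; ring
  have h2 : ∑ k ∈ Finset.range n, (7 / 25 * u) * (3 / 10 : ℝ) ^ k ≤ 2 / 5 * u := by
    rw [← Finset.mul_sum, geom_sum_eq (by norm_num)]
    have h3 : (0 : ℝ) ≤ (3 / 10 : ℝ) ^ n := by positivity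
    have h4 : ((3 / 10 : ℝ) ^ n - 1) / (3 / 10 - 1) = (1 - (3 / 10 : ℝ) ^ n) * (10 / 7) := by
      ring
    rw [h4]
    nlinarith [mul_nonneg hu h3]
  exact h1.trans h2

/-- The cone of the quotients. -/
def Cone (y : ℂ) : Prop := ‖y‖ ≤ 1 / 5 ∧ y.im ≤ 0 ∧ 0 ≤ y.re ∧ y.re ≤ 2 * (-y.im)

/-- One step. -/
lemma step (z : ℕ → ℂ) (u : ℂ) (hu : Cone u) (hz0 : z 0 = 1) (hz1 : z 1 = u)
    (hz2 : ‖z 2‖ ≤ 1 / 25 ∧ (z 2).im ≤ 0)
    (hz : ∀ k, ‖z (k + 3)‖ ≤ ‖u‖ * (1 / 5 : ℝ) ^ (k + 2)) (n : ℕ) (c : ℝ) (hc0 : 0 < c)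
    (hc : c ≤ 0.15) :
    (∑ k ∈ Finset.range (n + 3), (σ 1 (k + 1) : ℂ) * z k) ≠ 0 ∧
      Cone (-I * c / ∑ k ∈ Finset.range (n + 3), (σ 1 (k + 1) : ℂ) * z k) := by
  set T := ∑ k ∈ Finset.range n, (σ 1 (k + 4) : ℂ) * z (k + 3) with hT
  have hD : ∑ k ∈ Finset.range (n + 3), (σ 1 (k + 1) : ℂ) * z k = 1 + 3 * u + 4 * z 2 + T := by
    rw [Finset.sum_range_succ', Finset.sum_range_succ', Finset.sum_range_succ']
    have s1 : σ 1 1 = 1 := by decide +kernel
    have s2 : σ 1 2 = 3 := by decide +kernel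
    have s3 : σ 1 3 = 4 := by decide +kernel
    simp only [zero_add, hz0, hz1, s1, s2, s3]
    push_cast
    rw [hT]
    ring
  rw [hD]
  have hTb := tail_bound z ‖u‖ (norm_nonneg _) hz n
  rw [← hT] at hTb
  obtain ⟨hu1, hu2, hu3, hu4⟩ := hu
  set D := 1 + 3 * u + 4 * z 2 + T with hDdef
  have hre : D.re = 1 + 3 * u.re + 4 * (z 2).re + T.re := by
    rw [hDdef]; simp
  have him : D.im = 3 * u.im + 4 * (z 2).im + T.im := by
    rw [hDdef]; simp
  have hTre := (abs_le.1 (Complex.abs_re_le_norm T))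
  have hTim := (abs_le.1 (Complex.abs_im_le_norm T))
  have hzre := (abs_le.1 (Complex.abs_re_le_norm (z 2)))
  have hzim := (abs_le.1 (Complex.abs_im_le_norm (z 2)))
  have huim := (abs_le.1 (Complex.abs_im_le_norm u))
  have hnu : ‖u‖ ≤ u.re + -u.im := by
    have := Complex.norm_le_abs_re_add_abs_im u
    rwa [abs_of_nonneg hu3, abs_of_nonpos hu2] at this
  have hDre : 0.76 ≤ D.re := by
    rw [hre]; norm_num; linarith [hz2.1]
  have hDim : D.im ≤ 0 := by
    rw [him]; linarith [hz2.2]
  have hDim2 : -0.84 ≤ D.im := by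
    rw [him]; norm_num; linarith [hz2.1]
  have hD0 : D ≠ 0 := by
    intro h
    rw [h] at hDre
    norm_num at hDre
  refine ⟨hD0, ?_⟩
  have hns : 0 < Complex.normSq D := Complex.normSq_pos.2 hD0
  have hdiv : -I * c / D = ((-(c * D.im / normSq D) : ℝ) : ℂ) +
      ((-(c * D.re / normSq D) : ℝ) : ℂ) * I := by
    apply Complex.ext
    · have h := hns.ne'
      simp [Complex.div_re]
      field_simp
    · have h := hns.ne'
      simp [Complex.div_im]
      field_simp
  refine ⟨?_, ?_, ?_, ?_⟩
  · rw [norm_div, norm_mul, norm_neg, Complex.norm_I, one_mul, Complex.norm_real,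
      Real.norm_eq_abs, abs_of_pos hc0]
    have h1 : 0.76 ≤ ‖D‖ := hDre.trans ((le_abs_self _).trans (Complex.abs_re_le_norm D))
    rw [div_le_iff₀ (by linarith)]
    norm_num at hc h1 ⊢
    linarith
  · rw [hdiv]
    simp only [Complex.add_im, Complex.ofReal_im, Complex.mul_im, Complex.ofReal_re, Complex.I_im,
      Complex.I_re, mul_one, mul_zero, add_zero, zero_add]
    have : 0 ≤ c * D.re / normSq D := by
      have : 0 ≤ D.re := by linarith
      positivity
    linarith
  · rw [hdiv]
    simp only [Complex.add_re, Complex.ofReal_re, Complex.mul_re, Complex.ofReal_im, Complex.I_im,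
      Complex.I_re, mul_one, mul_zero, sub_zero, add_zero]
    have : c * D.im / normSq D ≤ 0 := by
      apply div_nonpos_of_nonpos_of_nonneg _ hns.le
      exact mul_nonpos_of_nonneg_of_nonpos hc0.le hDim
    linarith
  · rw [hdiv]
    simp only [Complex.add_re, Complex.ofReal_re, Complex.mul_re, Complex.ofReal_im, Complex.I_im,
      Complex.I_re, mul_one, mul_zero, sub_zero, add_zero, Complex.add_im, Complex.mul_im,
      zero_add, neg_neg]
    rw [← neg_div, ← mul_div_assoc]
    apply div_le_div_of_nonneg_right _ hns.le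
    nlinarith

/-- `P x (n + 1)` as a sum over a range -/
lemma P_succ (x : ℂ) (n : ℕ) : P x (n + 1) = x / ((n : ℂ) + 1) *
    ∑ k ∈ Finset.range (n + 1), (σ 1 (k + 1) : ℂ) * P x (n - k) := by
  rw [P, Finset.sum_range]

theorem small_ne (t : ℝ) (ht : 0 < t) (n : ℕ) (hn : (n : ℝ) ≤ 0.15 * t) : P (t * I) n ≠ 0 := by
  have key : ∀ m : ℕ, (m : ℝ) ≤ 0.15 * t → P (t * I) m ≠ 0 ∧
      (∀ j, m = j + 1 → Cone (P (t * I) j / P (t * I) m)) := by
    intro m
    induction m using Nat.strong_induction_on with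
    | _ m ih =>
      intro hm
      rcases m with _ | m
      · refine ⟨?_, fun j hj => by omega⟩
        rw [P]; exact one_ne_zero
      · have hm' : ∀ j ≤ m, (j : ℝ) ≤ 0.15 * t := by
          intro j hj
          have : (j : ℝ) ≤ ((m + 1 : ℕ) : ℝ) := by exact_mod_cast (by omega : j ≤ m + 1)
          linarith
        have hne : ∀ j ≤ m, P (t * I) j ≠ 0 := fun j hj => (ih j (by omega) (hm' j hj)).1
        have hcone : ∀ j < m, Cone (P (t * I) j / P (t * I) (j + 1)) := fun j hj =>
          (ih (j + 1) (by omega) (hm' _ (by omega))).2 j rfl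
        -- the quotients
        let z : ℕ → ℂ := fun k => if k ≤ m then P (t * I) (m - k) / P (t * I) m else 0
        have hz0 : z 0 = 1 := by
          simp only [z, zero_le, if_true, Nat.sub_zero]
          exact div_self (hne m le_rfl)
        have hzs : ∀ k, ‖z (k + 1)‖ ≤ ‖z k‖ * (1 / 5) := by
          intro k
          by_cases hk : k + 1 ≤ m
          · have e1 : z (k + 1) = (P (t * I) (m - (k + 1)) / P (t * I) (m - (k + 1) + 1)) * z k := by
              simp only [z, hk, (by omega : k ≤ m), if_true]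
              have : m - (k + 1) + 1 = m - k := by omega
              rw [this]
              have := hne (m - k) (by omega)
              have := hne m le_rfl
              field_simp
            rw [e1, norm_mul, mul_comm]
            have := (hcone (m - (k + 1)) (by omega)).1
            gcongr
          · have e1 : z (k + 1) = 0 := by simp only [z, hk, if_false]
            rw [e1, norm_zero]
            positivity
        have hcz1 : Cone (z 1) := by
          by_cases hk : 1 ≤ m
          · have e1 : z 1 = P (t * I) (m - 1) / P (t * I) (m - 1 + 1) := by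
              simp only [z, hk, if_true]
              rw [Nat.sub_add_cancel hk]
            rw [e1]
            exact hcone _ (by omega)
          · have e1 : z 1 = 0 := by simp only [z, hk, if_false]
            rw [e1]
            refine ⟨by norm_num, by simp, by simp, by simp⟩
        have hz2 : ‖z 2‖ ≤ 1 / 25 ∧ (z 2).im ≤ 0 := by
          constructor
          · have h1 := hzs 1
            have h2 := hcz1.1
            have h3 : ‖z 2‖ ≤ ‖z 1‖ * (1 / 5) := h1
            linarith
          · by_cases hk : 2 ≤ m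
            · have e1 : z 2 = (P (t * I) (m - 2) / P (t * I) (m - 2 + 1)) * z 1 := by
                simp only [z, hk, (by omega : 1 ≤ m), if_true]
                have : m - 2 + 1 = m - 1 := by omega
                rw [this]
                have := hne (m - 1) (by omega)
                have := hne m le_rfl
                field_simp
              rw [e1, Complex.mul_im]
              obtain ⟨_, a1, a2, _⟩ := hcone (m - 2) (by omega)
              obtain ⟨_, b1, b2, _⟩ := hcz1
              have h1 := mul_nonpos_of_nonneg_of_nonpos a2 b1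
              have h2 := mul_nonpos_of_nonpos_of_nonneg a1 b2
              linarith
            · have e1 : z 2 = 0 := by simp only [z, hk, if_false]
              rw [e1]; simp
        have hz3 : ∀ k, ‖z (k + 3)‖ ≤ ‖z 1‖ * (1 / 5 : ℝ) ^ (k + 2) := by
          have h1 : ∀ k, ‖z (k + 1)‖ ≤ ‖z 1‖ * (1 / 5 : ℝ) ^ k := by
            intro k
            induction k with
            | zero => simp
            | succ k ihk =>
              calc ‖z (k + 1 + 1)‖ ≤ ‖z (k + 1)‖ * (1 / 5) := hzs _
                _ ≤ ‖z 1‖ * (1 / 5 : ℝ) ^ k * (1 / 5) := by gcongr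
                _ = ‖z 1‖ * (1 / 5 : ℝ) ^ (k + 1) := by ring
          intro k
          exact h1 (k + 2)
        set c : ℝ := ((m : ℝ) + 1) / t with hcdef
        have hc0 : 0 < c := by positivity
        have hc : c ≤ 0.15 := by
          rw [hcdef, div_le_iff₀ ht]
          push_cast at hm
          exact hm
        obtain ⟨hD0, hD⟩ := step z (z 1) hcz1 hz0 rfl hz2 hz3 m c hc0 hc
        -- the sum
        have hsum : ∑ k ∈ Finset.range (m + 3), (σ 1 (k + 1) : ℂ) * z k =
            (∑ k ∈ Finset.range (m + 1), (σ 1 (k + 1) : ℂ) * P (t * I) (m - k)) / P (t * I) m := by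
          rw [Finset.sum_range_succ, Finset.sum_range_succ]
          have e1 : z (m + 1) = 0 := if_neg (by omega)
          have e2 : z (m + 1 + 1) = 0 := if_neg (by omega)
          rw [e1, e2, mul_zero, mul_zero, add_zero, add_zero, Finset.sum_div]
          refine Finset.sum_congr rfl fun k hk => ?_
          have : k ≤ m := by rw [Finset.mem_range] at hk; omega
          simp only [z, this, if_true]
          rw [mul_div_assoc]
        set D := ∑ k ∈ Finset.range (m + 3), (σ 1 (k + 1) : ℂ) * z k with hDdef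
        have hPm := hne m le_rfl
        have hS : ∑ k ∈ Finset.range (m + 1), (σ 1 (k + 1) : ℂ) * P (t * I) (m - k) =
            D * P (t * I) m := by
          rw [hsum]; field_simp
        have htc : (t : ℂ) ≠ 0 := by exact_mod_cast ht.ne'
        have hmc : ((m : ℂ) + 1) ≠ 0 := by exact_mod_cast Nat.succ_ne_zero m
        have hP : P (t * I) (m + 1) = (t * I) / ((m : ℂ) + 1) * (D * P (t * I) m) := by
          rw [P_succ, hS]
        have hPne : P (t * I) (m + 1) ≠ 0 := by
          rw [hP]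
          refine mul_ne_zero (div_ne_zero (mul_ne_zero htc I_ne_zero) hmc) (mul_ne_zero hD0 hPm)
        refine ⟨hPne, fun j hj => ?_⟩
        obtain rfl : j = m := by omega
        have e : P (t * I) j / P (t * I) (j + 1) = -I * c / D := by
          rw [hP, hcdef]
          push_cast
          have hI := I_ne_zero
          rw [div_eq_div_iff (by rw [← hP]; exact hPne) hD0]
          field_simp
          rw [Complex.I_sq]
          ring
        rw [e]
        exact hD
  exact (key n hn).1

end Pool.Agent.T6.H86.DA
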