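import Pool.Agent.T6.H86.DA.Core
import Pool.Agent.T6.H86.DA.M4

/-!
# Nonvanishing of the D'Arcais polynomials at `i t`, `t` real with `|t| ≥ 1`
-/

set_option autoImplicit false

namespace Pool.Agent.T6.H86.DA

open scoped ArithmeticFunction.sigma
open Complex

lemma P_zero (x : ℂ) : P x 0 = 1 := by rw [P]

lemma P_conj (x : ℂ) (n : ℕ) : P ((starRingEnd ℂ) x) n = (starRingEnd ℂ) (P x n) := by
  induction n using Nat.strong_induction_on with
  | _ n ih =>
    cases n with
    | zero => simp [P_zero]
    | succ n =>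
      rw [P, P, map_mul, map_div₀, map_sum, map_add, map_natCast, map_one]
      congr 1
      apply Finset.sum_congr rfl
      intro k _
      rw [map_mul, map_natCast, ih (n - k) (by omega)]

/-- real `t ≥ 1`: nonvanishing outside a bounded region -/
theorem real_ne {t : ℝ} {n : ℕ} (ht : 1 ≤ t) (hR : 160000 ≤ n * t) : P (t * I) n ≠ 0 := by
  rcases le_total (0.15 * t) n with h | h
  · exact core ht h hR
  · exact small_ne t (by linarith) n h

/-- real `t`, `|t| ≥ 1` -/
theorem real_ne' {t : ℝ} {n : ℕ} (ht : 1 ≤ |t|) (hR : 160000 ≤ n * |t|) : P (I * t) n ≠ 0 := by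
  rcases le_total 0 t with h0 | h0
  · rw [abs_of_nonneg h0] at ht hR
    rw [mul_comm]
    exact real_ne ht hR
  · rw [abs_of_nonpos h0] at ht hR
    have h := real_ne ht hR
    have e : I * (t : ℂ) = (starRingEnd ℂ) (((-t : ℝ) : ℂ) * I) := by
      rw [map_mul, Complex.conj_I, Complex.conj_ofReal]
      push_cast
      ring
    rw [e, P_conj]
    intro h1
    apply h
    exact (map_eq_zero _).1 h1

theorem small_ne' {t : ℝ} {n : ℕ} (ht : 0 < |t|) (hR : (n : ℝ) ≤ 0.15 * |t|) : P (I * t) n ≠ 0 := by
  rcases le_total 0 t with h0 | h0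
  · rw [abs_of_nonneg h0] at ht hR
    rw [mul_comm]
    exact small_ne t ht n hR
  · rw [abs_of_nonpos h0] at ht hR
    have h := small_ne (-t) ht n hR
    have e : I * (t : ℂ) = (starRingEnd ℂ) (((-t : ℝ) : ℂ) * I) := by
      rw [map_mul, Complex.conj_I, Complex.conj_ofReal]
      push_cast
      ring
    rw [e, P_conj]
    intro h1
    apply h
    exact (map_eq_zero _).1 h1

end Pool.Agent.T6.H86.DA
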