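import Pool.Agent.T6.H86.DA.Defs

/-!
# Finite verification: digits

The residues of `n! P_n (18 k i)` modulo the prime `p = 1000203877 = 31626² + 1` (`i ↦ 31626`) are the
digits of one natural number `U` in base `W = 2 ^ 60`; the recursion of `P` is checked by one
multiplication `Sbig * U`, where the digits of `Sbig` are the values of `σ`.
-/

set_option autoImplicit false

namespace Pool.Agent.T6.H86.DA.M7

open scoped ArithmeticFunction.sigma
open Finset

/-- the base -/
def W : ℕ := 1152921504606846976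

/-- the prime -/
def pr : ℕ := 1000203877

/-- the digits -/
def dig (A i : ℕ) : ℕ := A / W ^ i % W

theorem W_pos : 0 < W := by decide

theorem dig_lt (A i : ℕ) : dig A i < W := Nat.mod_lt _ W_pos

theorem dig_zero (A : ℕ) : dig A 0 = A % W := by simp [dig]

theorem dig_succ (A i : ℕ) : dig A (i + 1) = dig (A / W) i := by
  unfold dig
  rw [pow_succ', Nat.div_div_eq_div_mul]

theorem mod_eq (A N : ℕ) : A % W ^ N = ∑ j ∈ range N, dig A j * W ^ j := by
  induction N with
  | zero => simp [Nat.mod_one]
  | succ n ih =>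
    rw [Nat.mod_pow_succ, ih, sum_range_succ]
    unfold dig
    ring

/-- the coefficients of the product -/
def cf (A B m : ℕ) : ℕ := ∑ x ∈ antidiagonal m, dig A x.1 * dig B x.2

open Polynomial in
theorem mul_modEq (A B i : ℕ) : A * B ≡ ∑ m ∈ range i, cf A B m * W ^ m [MOD W ^ i] := by
  set PA : ℕ[X] := ∑ j ∈ range i, C (dig A j) * X ^ j with hPA
  set PB : ℕ[X] := ∑ j ∈ range i, C (dig B j) * X ^ j with hPB
  have hA : PA.eval W = A % W ^ i := by
    rw [mod_eq, hPA, eval_finsetSum]
    simp
  have hB : PB.eval W = B % W ^ i := by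
    rw [mod_eq, hPB, eval_finsetSum]
    simp
  have h1 : A * B ≡ (PA * PB).eval W [MOD W ^ i] := by
    rw [eval_mul, hA, hB]
    exact Nat.ModEq.mul (Nat.mod_modEq _ _).symm (Nat.mod_modEq _ _).symm
  refine h1.trans ?_
  have hc : ∀ m, m < i → (PA * PB).coeff m = cf A B m := by
    intro m hm
    rw [coeff_mul]
    refine sum_congr rfl fun x hx => ?_
    have hx' := mem_antidiagonal.1 hx
    have e1 : PA.coeff x.1 = dig A x.1 := by
      rw [hPA, finsetSum_coeff]
      simp only [coeff_C_mul_X_pow]
      rw [sum_ite_eq, if_pos (mem_range.2 (by omega))]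
    have e2 : PB.coeff x.2 = dig B x.2 := by
      rw [hPB, finsetSum_coeff]
      simp only [coeff_C_mul_X_pow]
      rw [sum_ite_eq, if_pos (mem_range.2 (by omega))]
    rw [e1, e2]
  rw [eval_eq_sum_range' (n := i + ((PA * PB).natDegree + 1)) (by omega), sum_range_add]
  have h2 : ∑ x ∈ range ((PA * PB).natDegree + 1), (PA * PB).coeff (i + x) * W ^ (i + x) ≡ 0
      [MOD W ^ i] := by
    refine (Nat.modEq_zero_iff_dvd).2 (dvd_sum fun x _ => ?_)
    rw [pow_add]
    exact Dvd.dvd.mul_left (dvd_mul_right _ _) _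
  have h3 : ∑ x ∈ range i, (PA * PB).coeff x * W ^ x = ∑ m ∈ range i, cf A B m * W ^ m :=
    sum_congr rfl fun m hm => by rw [hc m (mem_range.1 hm)]
  rw [h3]
  simpa using Nat.ModEq.add_left (∑ m ∈ range i, cf A B m * W ^ m) h2

theorem dig_mul {A B N : ℕ} (hc : ∀ m, m < N → cf A B m < W) {i : ℕ} (hi : i < N) :
    dig (A * B) i = cf A B i := by
  have h1 : ∀ j, j ≤ N → ∑ m ∈ range j, cf A B m * W ^ m < W ^ j := by
    intro j
    induction j with
    | zero => simp
    | succ j ih =>
      intro hj
      rw [sum_range_succ, pow_succ]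
      have h2 := ih (by omega)
      have h3 := hc j (by omega)
      have h4 : cf A B j * W ^ j ≤ (W - 1) * W ^ j := Nat.mul_le_mul_right _ (by omega)
      have h5 : W ^ j + (W - 1) * W ^ j = W ^ j * W := by
        obtain ⟨w, hw⟩ : ∃ w, W = w + 1 := ⟨W - 1, rfl⟩
        rw [hw, Nat.add_sub_cancel]
        ring
      omega
  have h2 : ∀ j, j ≤ N → (A * B) % W ^ j = ∑ m ∈ range j, cf A B m * W ^ m := by
    intro j hj
    have h3 := mul_modEq A B j
    unfold Nat.ModEq at h3
    rw [h3, Nat.mod_eq_of_lt (h1 j hj)]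
  have h3 := h2 (i + 1) (by omega)
  rw [Nat.mod_pow_succ, h2 i (by omega), sum_range_succ] at h3
  have h4 : W ^ i * (A * B / W ^ i % W) = cf A B i * W ^ i := by omega
  rw [mul_comm (cf A B i)] at h4
  exact Nat.eq_of_mul_eq_mul_left (pow_pos W_pos i) h4

/-- the check of the recursion -/
def chk (x : ℕ) : ℕ → ℕ → ℕ → ℕ → Bool
  | 0, _, _, _ => true
  | f + 1, n, T, U =>
    (x * (T % 1152921504606846976) % 1000203877 ==
        n * (U % 1152921504606846976) % 1000203877) &&
      (U % 1152921504606846976 != 0) && (decide (U % 1152921504606846976 < 1000203877)) &&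
        chk x f (n + 1) (T / 1152921504606846976) (U / 1152921504606846976)

theorem chk_spec (x : ℕ) : ∀ f n T U, chk x f n T U = true → ∀ i, i < f →
    (x * dig T i) % pr = ((n + i) * dig U i) % pr ∧ dig U i ≠ 0 ∧ dig U i < pr := by
  intro f
  induction f with
  | zero => intro n T U _ i hi; omega
  | succ f ih =>
    intro n T U h i hi
    simp only [chk, Bool.and_eq_true, beq_iff_eq, bne_iff_ne, ne_eq, decide_eq_true_eq] at h
    obtain ⟨⟨⟨h1, h2⟩, h3⟩, h4⟩ := h
    cases i with
    | zero => rw [dig_zero, dig_zero, add_zero]; exact ⟨h1, h2, h3⟩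
    | succ i =>
      have h5 := ih (n + 1) _ _ h4 i (by omega)
      rw [dig_succ, dig_succ, show n + (i + 1) = n + 1 + i by ring]
      exact h5

/-- fast `σ` -/
def sgm (n : ℕ) : ℕ → ℕ
  | 0 => 0
  | d + 1 => sgm n d + cond (n % (d + 1) == 0)
      (cond (Nat.blt ((d + 1) * (d + 1)) n) (d + 1 + n / (d + 1))
        (cond ((d + 1) * (d + 1) == n) (d + 1) 0)) 0

/-- the summand -/
def gg (n d : ℕ) : ℕ := if d * d < n then d + n / d else if d * d = n then d else 0

theorem sgm_eq (n D : ℕ) : sgm n D = ∑ d ∈ range D, if (d + 1) ∣ n then gg n (d + 1) else 0 := by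
  induction D with
  | zero => rfl
  | succ D ih =>
    rw [sum_range_succ, ← ih, sgm]
    congr 1
    unfold gg
    by_cases h1 : (D + 1) ∣ n
    · rw [if_pos h1, (beq_iff_eq).2 (Nat.mod_eq_zero_of_dvd h1), cond_true]
      by_cases h2 : (D + 1) * (D + 1) < n
      · rw [if_pos h2]
        have : Nat.blt ((D + 1) * (D + 1)) n = true := by simpa using h2
        rw [this, cond_true]
      · rw [if_neg h2]
        have : Nat.blt ((D + 1) * (D + 1)) n = false := by
          rw [Bool.eq_false_iff]
          intro h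
          exact h2 (by simpa using h)
        rw [this, cond_false]
        by_cases h3 : (D + 1) * (D + 1) = n
        · rw [if_pos h3, (beq_iff_eq).2 h3, cond_true]
        · rw [if_neg h3, (beq_eq_false_iff_ne).2 h3, cond_false]
    · rw [if_neg h1, (beq_eq_false_iff_ne).2, cond_false]
      intro h2
      exact h1 (Nat.dvd_of_mod_eq_zero h2)

theorem sigma_eq (n D : ℕ) (hD : n < (D + 1) * (D + 1)) : σ 1 n = sgm n D := by
  rcases Nat.eq_zero_or_pos n with rfl | hn
  · rw [sgm_eq]
    simp [gg]
  rw [ArithmeticFunction.sigma_one_apply, sgm_eq]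
  have h1 : ∑ d ∈ n.divisors, d = ∑ d ∈ n.divisors, gg n d := by
    have e1 : ∑ d ∈ n.divisors, (if n < d * d then d else 0) =
        ∑ d ∈ n.divisors, (if d * d < n then n / d else 0) := by
      rw [← Nat.sum_div_divisors n (fun d => if n < d * d then d else 0)]
      refine sum_congr rfl fun d hd => ?_
      have hd' := Nat.dvd_of_mem_divisors hd
      obtain ⟨e, rfl⟩ := hd'
      have hd0 : 0 < d := Nat.pos_of_ne_zero (by rintro rfl; simp at hn)
      have he0 : 0 < e := Nat.pos_of_ne_zero (by rintro rfl; simp at hn)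
      rw [Nat.mul_div_cancel_left _ hd0]
      by_cases h : d < e
      · rw [if_pos (Nat.mul_lt_mul_of_pos_right h he0), if_pos (Nat.mul_lt_mul_of_pos_left h hd0)]
      · rw [if_neg (not_lt.2 (Nat.mul_le_mul_right _ (not_lt.1 h))),
          if_neg (not_lt.2 (Nat.mul_le_mul_left _ (not_lt.1 h)))]
    have e2 : ∀ d ∈ n.divisors, d = (if d * d < n then d else 0) + (if d * d = n then d else 0) +
        (if n < d * d then d else 0) := by
      intro d _
      rcases lt_trichotomy (d * d) n with h | h | h
      · rw [if_pos h, if_neg h.ne, if_neg h.asymm]; rfl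
      · rw [if_neg h.not_lt, if_pos h, if_neg (by omega)]; omega
      · rw [if_neg h.asymm, if_neg h.ne', if_pos h]; omega
    rw [sum_congr rfl e2, sum_add_distrib, e1, ← sum_add_distrib]
    refine sum_congr rfl fun d _ => ?_
    unfold gg
    by_cases h : d * d < n
    · rw [if_pos h, if_pos h, if_pos h, if_neg h.ne]; omega
    · rw [if_neg h, if_neg h, if_neg h]; omega
  rw [h1, ← sum_filter]
  have h2 : ∑ d ∈ n.divisors, gg n d = ∑ d ∈ n.divisors.filter (fun d => d ≤ D), gg n d := by
    rw [sum_filter]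
    refine sum_congr rfl fun d _ => ?_
    by_cases h : d ≤ D
    · rw [if_pos h]
    · rw [if_neg h]
      have h3 : (D + 1) * (D + 1) ≤ d * d := Nat.mul_le_mul (by omega) (by omega)
      unfold gg
      rw [if_neg (by omega), if_neg (by omega)]
  rw [h2]
  symm
  refine sum_bij (fun d _ => d + 1) ?_ ?_ ?_ ?_
  · intro d hd
    rw [mem_filter, mem_range] at hd
    rw [mem_filter, Nat.mem_divisors]
    exact ⟨⟨hd.2, hn.ne'⟩, by omega⟩
  · intro a _ b _ h
    omega
  · intro d hd
    rw [mem_filter, Nat.mem_divisors] at hd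
    have hd0 : 0 < d := Nat.pos_of_dvd_of_pos hd.1.1 hn
    refine ⟨d - 1, ?_, by omega⟩
    rw [mem_filter, mem_range, Nat.sub_add_cancel hd0]
    exact ⟨by omega, hd.1.1⟩
  · intro d _
    rfl

/-- the check of the table of `σ` -/
def schk : ℕ → ℕ → ℕ → Bool
  | 0, _, _ => true
  | f + 1, n, T => (T % 1152921504606846976 == sgm n 94) &&
      (decide (T % 1152921504606846976 < 32768)) && schk f (n + 1) (T / 1152921504606846976)

theorem schk_spec : ∀ f n T, schk f n T = true → n + f ≤ 8889 → ∀ i, i < f →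
    dig T i = σ 1 (n + i) ∧ dig T i < 32768 := by
  intro f
  induction f with
  | zero => intro n T _ _ i hi; omega
  | succ f ih =>
    intro n T h hn i hi
    simp only [schk, Bool.and_eq_true, beq_iff_eq, decide_eq_true_eq] at h
    obtain ⟨⟨h1, h2⟩, h3⟩ := h
    cases i with
    | zero =>
      rw [dig_zero, add_zero, sigma_eq n 94 (by omega)]
      exact ⟨h1, h2⟩
    | succ i =>
      have h5 := ih (n + 1) _ h3 (by omega) i (by omega)
      rw [dig_succ, show n + (i + 1) = n + 1 + i by ring]
      exact h5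

end Pool.Agent.T6.H86.DA.M7
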