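import Pool.Agent.T6.H86.DA.M7a

/-!
# Finite verification: the checks in blocks of 64 digits

The same checks as `chk` and `schk`, but the big numbers are shifted by 64 digits at a time only,
which keeps the memory of the kernel small.
-/

set_option autoImplicit false

namespace Pool.Agent.T6.H86.DA.M7

open scoped ArithmeticFunction.sigma
open Finset

theorem dig_mod (A m i : ℕ) (h : i < m) : dig (A % W ^ m) i = dig A i := by
  unfold dig
  obtain ⟨k, rfl⟩ : ∃ k, m = i + (k + 1) := ⟨m - i - 1, by omega⟩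
  rw [pow_add, Nat.mod_mul_right_div_self, Nat.mod_mod_of_dvd _ (dvd_pow_self W (Nat.succ_ne_zero k))]

theorem dig_div (A m i : ℕ) : dig (A / W ^ m) i = dig A (m + i) := by
  unfold dig
  rw [Nat.div_div_eq_div_mul, pow_add]

/-- the check of the recursion, in blocks -/
def chkB (x : ℕ) : ℕ → ℕ → ℕ → ℕ → ℕ → Bool
  | 0, r, n, T, U => chk x r n (T % W ^ 64) (U % W ^ 64)
  | b + 1, r, n, T, U => chk x 64 n (T % W ^ 64) (U % W ^ 64) &&
      chkB x b r (n + 64) (T / W ^ 64) (U / W ^ 64)

theorem chkB_spec (x r : ℕ) (hr : r ≤ 64) : ∀ b n T U, chkB x b r n T U = true →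
    ∀ i, i < 64 * b + r →
      (x * dig T i) % pr = ((n + i) * dig U i) % pr ∧ dig U i ≠ 0 ∧ dig U i < pr := by
  intro b
  induction b with
  | zero =>
    intro n T U h i hi
    have h1 := chk_spec x r n _ _ h i (by omega)
    rw [dig_mod T 64 i (by omega), dig_mod U 64 i (by omega)] at h1
    exact h1
  | succ b ih =>
    intro n T U h i hi
    rw [chkB, Bool.and_eq_true] at h
    obtain ⟨h1, h2⟩ := h
    by_cases h3 : i < 64
    · have h4 := chk_spec x 64 n _ _ h1 i h3
      rw [dig_mod T 64 i h3, dig_mod U 64 i h3] at h4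
      exact h4
    · obtain ⟨j, rfl⟩ : ∃ j, i = 64 + j := ⟨i - 64, by omega⟩
      have h4 := ih (n + 64) _ _ h2 j (by omega)
      rw [dig_div, dig_div, show n + 64 + j = n + (64 + j) by ring] at h4
      exact h4

theorem schk_block (S N : ℕ)
    (h : ∀ b, b < N / 64 → schk 64 (64 * b) (S / W ^ (64 * b) % W ^ 64) = true)
    (h' : schk (N % 64) (64 * (N / 64)) (S / W ^ (64 * (N / 64)) % W ^ 64) = true)
    (hN : N ≤ 8889) (i : ℕ) (hi : i < N) : dig S i = σ 1 i ∧ dig S i < 32768 := by
  have hd := Nat.div_add_mod N 64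
  have hm := Nat.mod_lt N (show 0 < 64 by norm_num)
  have hdi := Nat.div_add_mod i 64
  have hmi := Nat.mod_lt i (show 0 < 64 by norm_num)
  have hle : i / 64 ≤ N / 64 := Nat.div_le_div_right hi.le
  rcases Nat.lt_or_ge (i / 64) (N / 64) with h1 | h1
  · have h2 := schk_spec 64 (64 * (i / 64)) _ (h _ h1) (by omega) (i % 64) hmi
    rw [dig_mod _ 64 _ hmi, dig_div, hdi] at h2
    exact h2
  · have h3 : i / 64 = N / 64 := le_antisymm hle h1
    have h2 := schk_spec (N % 64) (64 * (N / 64)) _ h' (by omega) (i % 64) (by omega)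
    rw [dig_mod _ 64 _ hmi, dig_div, ← h3, hdi] at h2
    exact h2

end Pool.Agent.T6.H86.DA.M7
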