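import Pool.Agent.T6.H86.DA.Bnd

/-!
# Existence of the saddle point
-/

set_option autoImplicit false

namespace Pool.Agent.T6.H86.DA

open scoped ArithmeticFunction.sigma Real
open Complex

lemma pisq_lo : (9.8696 : ℝ) < π ^ 2 := by
  have := Real.pi_gt_d6
  nlinarith

lemma pisq_hi : π ^ 2 < (9.8697 : ℝ) := by
  have := Real.pi_lt_d6
  have := Real.pi_pos
  nlinarith

lemma exp_neg_thirteen : Real.exp (-13) < 1 / 440000 := by
  rw [Real.exp_neg, ← one_div]
  apply one_div_lt_one_div_of_lt (by norm_num)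
  have h := Real.exp_one_gt_d9
  have h2 : Real.exp 13 = Real.exp 1 ^ 13 := by
    rw [← Real.exp_nat_mul]; norm_num
  rw [h2]
  calc (440000 : ℝ) < 2.718 ^ 13 := by norm_num
    _ ≤ Real.exp 1 ^ 13 := by
      apply pow_le_pow_left₀ (by norm_num)
      linarith

/-- the quadratic approximation has a root -/
lemma exists_root {lam : ℝ} (h : 0.15 ≤ lam) : ∃ p q : ℝ, 0.3625 ≤ p ∧ 0.2 ≤ q ∧ q ≤ p ∧
    π ^ 2 / 6 * (p ^ 2 - q ^ 2) - p / 2 + 1 / 24 = 0 ∧ q * (π ^ 2 / 3 * p - 1 / 2) = lam := by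
  have hlo := pisq_lo
  have hhi := pisq_hi
  have hpi : (0:ℝ) < π ^ 2 := by positivity
  set r : ℝ → ℝ := fun p => p ^ 2 - 6 / π ^ 2 * (p / 2 - 1 / 24) with hr
  have hinv1 : 6 / π ^ 2 < 0.60794 := by
    rw [div_lt_iff₀ hpi]; linarith
  have hinv2 : 0.60792 < 6 / π ^ 2 := by
    rw [lt_div_iff₀ hpi]; linarith
  have hc : Continuous fun p => Real.sqrt (r p) * (π ^ 2 / 3 * p - 1 / 2) := by
    apply Continuous.mul
    · apply Continuous.sqrt
      simp only [hr]
      fun_prop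
    · fun_prop
  have hab : (0.3625 : ℝ) ≤ lam + 1 := by linarith
  have h1 : Real.sqrt (r 0.3625) * (π ^ 2 / 3 * 0.3625 - 1 / 2) ≤ lam := by
    have h2 : Real.sqrt (r 0.3625) ≤ 0.2158 := by
      rw [Real.sqrt_le_left (by norm_num)]
      simp only [hr]
      nlinarith
    have h3 : π ^ 2 / 3 * 0.3625 - 1 / 2 ≤ 0.6926 := by linarith
    have h4 : 0 ≤ π ^ 2 / 3 * 0.3625 - 1 / 2 := by linarith
    nlinarith [Real.sqrt_nonneg (r 0.3625)]
  have h2 : lam ≤ Real.sqrt (r (lam + 1)) * (π ^ 2 / 3 * (lam + 1) - 1 / 2) := by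
    have h3 : 0.8 * (lam + 1) ≤ Real.sqrt (r (lam + 1)) := by
      apply Real.le_sqrt_of_sq_le
      simp only [hr]
      nlinarith
    have h4 : 2 ≤ π ^ 2 / 3 * (lam + 1) - 1 / 2 := by nlinarith
    nlinarith [Real.sqrt_nonneg (r (lam + 1))]
  obtain ⟨p, hp, hpe⟩ := intermediate_value_Icc hab hc.continuousOn ⟨h1, h2⟩
  have hp1 := hp.1
  have hrp : 0.04 ≤ r p := by
    simp only [hr]
    nlinarith
  have hrp2 : r p ≤ p ^ 2 := by
    simp only [hr]
    have : 0 ≤ 6 / π ^ 2 * (p / 2 - 1 / 24) := by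
      apply mul_nonneg (by positivity); linarith
    linarith
  refine ⟨p, Real.sqrt (r p), hp1, ?_, ?_, ?_, hpe⟩
  · apply Real.le_sqrt_of_sq_le
    norm_num at hrp ⊢
    linarith
  · rw [Real.sqrt_le_left (by linarith)]
    exact hrp2
  · rw [Real.sq_sqrt (by linarith)]
    simp only [hr]
    field_simp
    ring

/-- the function whose zero is the inverse of the saddle point -/
noncomputable def F (lam : ℝ) (w : ℂ) : ℂ :=
  π ^ 2 / 6 * w ^ 2 - w / 2 + 1 / 24 + lam * I - 4 * π ^ 2 * w ^ 2 * S 0 (4 * π ^ 2 * w)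

lemma four_pisq_mul_re (w : ℂ) : (4 * (π : ℂ) ^ 2 * w).re = 4 * π ^ 2 * w.re := by
  rw [show (4 * (π : ℂ) ^ 2 * w) = ((4 * π ^ 2 : ℝ) : ℂ) * w by push_cast; ring,
    Complex.re_ofReal_mul]

lemma E_bound {w : ℂ} (hw : 0.3615 ≤ w.re) (hn : ‖w‖ ≤ 1.5 * w.re) :
    ‖4 * (π : ℂ) ^ 2 * w ^ 2 * S 0 (4 * π ^ 2 * w)‖ < 0.00025 := by
  have hlo := pisq_lo
  have hhi := pisq_hi
  have hre := four_pisq_mul_re w
  have hpos : 0 < (4 * (π : ℂ) ^ 2 * w).re := by rw [hre]; nlinarith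
  set x := w.re with hx
  have h39 : 39 * x ≤ 4 * π ^ 2 * x := by nlinarith
  have he1 : Real.exp (-(4 * π ^ 2 * x)) ≤ Real.exp (-39 * x) := Real.exp_le_exp.2 (by linarith)
  have he2 : Real.exp (-39 * x) = Real.exp (-37 * x) * Real.exp (-x) ^ 2 := by
    rw [← Real.exp_nat_mul, ← Real.exp_add]; push_cast; ring_nf
  have he3 : Real.exp (-37 * x) ≤ Real.exp (-13) := Real.exp_le_exp.2 (by linarith)
  have he4 := exp_neg_thirteen
  have he5 : x * Real.exp (-x) ≤ 1 := by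
    have h1 : x ≤ Real.exp x := by linarith [Real.add_one_le_exp x]
    rw [Real.exp_neg, ← div_eq_mul_inv, div_le_one (Real.exp_pos x)]
    exact h1
  have hexp13 : Real.exp (-39 * x) ≤ Real.exp (-13) := Real.exp_le_exp.2 (by linarith)
  have hsmall : (2 : ℝ) ^ (0 + 2) * Real.exp (-(4 * (π : ℂ) ^ 2 * w).re) < 1 := by
    rw [hre]
    calc (2 : ℝ) ^ (0 + 2) * Real.exp (-(4 * π ^ 2 * x)) ≤ 4 * (1 / 440000) := by
          norm_num
          linarith
      _ < 1 := by norm_num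
  have hS := norm_S_bound 0 hpos hsmall
  rw [hre] at hS
  have hS2 : ‖S 0 (4 * π ^ 2 * w)‖ ≤ 1.01 * Real.exp (-(4 * π ^ 2 * x)) := by
    refine hS.trans ?_
    have hq : (2 : ℝ) ^ (0 + 2) * Real.exp (-(4 * π ^ 2 * x)) ≤ 4 * (1 / 440000) := by
      norm_num
      linarith
    rw [div_le_iff₀ (sub_pos.2 (lt_of_le_of_lt hq (by norm_num)))]
    have := Real.exp_pos (-(4 * π ^ 2 * x))
    nlinarith
  have hn4 : ‖(4 * (π : ℂ) ^ 2 * w ^ 2)‖ = 4 * π ^ 2 * ‖w‖ ^ 2 := by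
    rw [norm_mul, norm_pow, norm_mul, norm_pow, Complex.norm_real, Real.norm_eq_abs,
      abs_of_pos Real.pi_pos]
    norm_num
  rw [norm_mul, hn4]
  have hx0 : 0 < x := by linarith
  have hw2 : ‖w‖ ^ 2 ≤ 2.25 * x ^ 2 := by
    have := norm_nonneg w
    nlinarith
  calc 4 * π ^ 2 * ‖w‖ ^ 2 * ‖S 0 (4 * π ^ 2 * w)‖
      ≤ 4 * 9.8697 * (2.25 * x ^ 2) * (1.01 * Real.exp (-(4 * π ^ 2 * x))) := by
        gcongr
    _ ≤ 4 * 9.8697 * (2.25 * x ^ 2) * (1.01 * Real.exp (-39 * x)) := by gcongr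
    _ = 4 * 9.8697 * 2.25 * 1.01 * (x * Real.exp (-x)) ^ 2 * Real.exp (-37 * x) := by
        rw [he2]; ring
    _ ≤ 4 * 9.8697 * 2.25 * 1.01 * 1 ^ 2 * Real.exp (-13) := by
        gcongr
    _ < 0.00025 := by nlinarith

lemma F_diff {lam : ℝ} {w : ℂ} (hw : 0 < w.re) : DifferentiableAt ℂ (F lam) w := by
  have h1 : 0 < (4 * (π : ℂ) ^ 2 * w).re := by rw [four_pisq_mul_re]; positivity
  have h2 := (hasDerivAt_S 0 h1).differentiableAt
  have h3 : DifferentiableAt ℂ (fun w : ℂ => S 0 (4 * π ^ 2 * w)) w :=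
    DifferentiableAt.comp w h2 (by fun_prop)
  unfold F
  fun_prop

theorem exists_saddle {lam : ℝ} (h : 0.15 ≤ lam) : ∃ δ y : ℝ, 0 < δ ∧ 0 < y ∧
    δ * (1 + y ^ 2) ≤ 2.77 ∧ S 0 (δ + δ * y * I) = -(lam * I) := by
  have hlo := pisq_lo
  have hhi := pisq_hi
  obtain ⟨p, q, hp, hq, hqp, h1, h2⟩ := exists_root h
  set w1 : ℂ := p - q * I with hw1
  have hw1re : w1.re = p := by simp [hw1]
  have hw1im : w1.im = -q := by simp [hw1]
  have hQ : (π : ℂ) ^ 2 / 6 * w1 ^ 2 - w1 / 2 + 1 / 24 + lam * I = 0 := by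
    have e1 : (π : ℂ) ^ 2 / 6 * ((p : ℂ) ^ 2 - q ^ 2) - p / 2 + 1 / 24 = 0 := by
      have := congrArg (fun x : ℝ => (x : ℂ)) h1
      push_cast at this
      exact this
    have e2 : (q : ℂ) * (π ^ 2 / 3 * p - 1 / 2) = lam := by
      have := congrArg (fun x : ℝ => (x : ℂ)) h2
      push_cast at this
      exact this
    have e3 : w1 ^ 2 = (p ^ 2 - q ^ 2) - 2 * p * q * I := by
      rw [hw1]
      ring_nf
      rw [Complex.I_sq]
      ring
    rw [e3, hw1]
    linear_combination e1 - I * e2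
  -- points of the closed ball
  have hball : ∀ w : ℂ, ‖w - w1‖ ≤ 1 / 1000 → 0.3615 ≤ w.re ∧ ‖w‖ ≤ 1.5 * w.re ∧
      -w.im ≥ 0.199 := by
    intro w hw
    have hre : |w.re - p| ≤ 1 / 1000 := by
      have := (Complex.abs_re_le_norm (w - w1)).trans hw
      rwa [Complex.sub_re, hw1re] at this
    have him : |w.im + q| ≤ 1 / 1000 := by
      have := (Complex.abs_im_le_norm (w - w1)).trans hw
      rwa [Complex.sub_im, hw1im, sub_neg_eq_add] at this
    rw [abs_le] at hre him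
    refine ⟨by linarith, ?_, by linarith⟩
    have hx : 0 < w.re := by linarith
    rw [Complex.norm_def, Real.sqrt_le_left (by linarith), Complex.normSq_apply]
    nlinarith
  have hzero : ∃ w : ℂ, ‖w - w1‖ ≤ 1 / 1000 ∧ F lam w = 0 := by
    by_contra hcon
    push Not at hcon
    have hd : DiffContOnCl ℂ (fun w => (F lam w)⁻¹) (Metric.ball w1 (1 / 1000)) := by
      apply DifferentiableOn.diffContOnCl
      rw [closure_ball w1 (by norm_num)]
      intro w hw
      have hw' : ‖w - w1‖ ≤ 1 / 1000 := by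
        rwa [Metric.mem_closedBall, dist_eq_norm] at hw
      exact ((F_diff (by linarith [(hball w hw').1])).inv
        (hcon w hw')).differentiableWithinAt
    have hfr : ∀ w ∈ frontier (Metric.ball w1 (1 / 1000)), ‖(F lam w)⁻¹‖ ≤ 1 / 0.0003 := by
      intro w hw
      rw [frontier_ball w1 (by norm_num), Metric.mem_sphere, dist_eq_norm] at hw
      have hb := hball w hw.le
      have hE := E_bound hb.1 hb.2.1
      have hQw : F lam w = (w - w1) * (π ^ 2 / 6 * (w + w1) - 1 / 2) -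
          4 * π ^ 2 * w ^ 2 * S 0 (4 * π ^ 2 * w) := by
        rw [F]
        linear_combination hQ
      have him : 0.65 ≤ ‖((π : ℂ) ^ 2 / 6 * (w + w1) - 1 / 2)‖ := by
        have e : ((π : ℂ) ^ 2 / 6 * (w + w1) - 1 / 2).im = π ^ 2 / 6 * (w.im - q) := by
          rw [show ((π : ℂ) ^ 2 / 6 * (w + w1) - 1 / 2) =
            ((π ^ 2 / 6 : ℝ) : ℂ) * (w + w1) - ((1 / 2 : ℝ) : ℂ) by push_cast; ring,
            Complex.sub_im, Complex.im_ofReal_mul, Complex.ofReal_im, Complex.add_im, hw1im]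
          ring
        have h3 := Complex.abs_im_le_norm ((π : ℂ) ^ 2 / 6 * (w + w1) - 1 / 2)
        rw [e] at h3
        refine le_trans ?_ h3
        rw [abs_of_neg (by nlinarith)]
        nlinarith
      have hF : 0.0003 ≤ ‖F lam w‖ := by
        rw [hQw]
        have h3 := norm_sub_norm_le ((w - w1) * (π ^ 2 / 6 * (w + w1) - 1 / 2))
          (4 * π ^ 2 * w ^ 2 * S 0 (4 * π ^ 2 * w))
        rw [norm_mul, hw] at h3
        nlinarith
      rw [norm_inv, ← one_div]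
      exact one_div_le_one_div_of_le (by norm_num) hF
    have hmax := Complex.norm_le_of_forall_mem_frontier_norm_le Metric.isBounded_ball hd hfr
      (z := w1) (subset_closure (Metric.mem_ball_self (by norm_num)))
    have hb := hball w1 (by rw [sub_self, norm_zero]; norm_num)
    have hE := E_bound hb.1 hb.2.1
    have hFw1 : F lam w1 = -(4 * π ^ 2 * w1 ^ 2 * S 0 (4 * π ^ 2 * w1)) := by
      rw [F]; linear_combination hQ
    have hne := hcon w1 (by rw [sub_self, norm_zero]; norm_num)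
    have hF0 : 0 < ‖F lam w1‖ := norm_pos_iff.2 hne
    have hF1 : ‖F lam w1‖ < 0.00025 := by rw [hFw1, norm_neg]; exact hE
    simp only [norm_inv] at hmax
    rw [← one_div, div_le_div_iff₀ hF0 (by norm_num)] at hmax
    linarith
  obtain ⟨w, hw, hFw⟩ := hzero
  obtain ⟨hb1, hb2, hb3⟩ := hball w hw
  have hx : 0 < w.re := by linarith
  have hN : 0 < normSq w := by
    rw [Complex.normSq_apply]; nlinarith
  have hw0 : w ≠ 0 := ne_zero_of_re hx
  refine ⟨w.re / normSq w, -w.im / w.re, by positivity, ?_, ?_, ?_⟩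
  · exact div_pos (by linarith) hx
  · have e : w.re / normSq w * (1 + (-w.im / w.re) ^ 2) = 1 / w.re := by
      rw [Complex.normSq_apply] at hN ⊢
      field_simp
    rw [e, div_le_iff₀ hx]
    linarith
  · have e : ((w.re / normSq w : ℝ) : ℂ) + ((w.re / normSq w : ℝ) : ℂ) *
        ((-w.im / w.re : ℝ) : ℂ) * I = w⁻¹ := by
      apply Complex.ext
      · simp [Complex.inv_re]
      · simp [Complex.inv_im]
        field_simp
    rw [e]
    have hre : 0 < (w⁻¹).re := by rw [Complex.inv_re]; positivity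
    rw [S0_modular hre, W]
    have e2 : 4 * (π : ℂ) ^ 2 / w⁻¹ = 4 * π ^ 2 * w := by
      rw [div_inv_eq_mul]
    rw [e2]
    have e3 : (π : ℂ) ^ 2 / (6 * w⁻¹ ^ 2) = π ^ 2 / 6 * w ^ 2 := by
      field_simp
    have e4 : 1 / (2 * w⁻¹) = w / 2 := by field_simp
    have e5 : 4 * (π : ℂ) ^ 2 / w⁻¹ ^ 2 = 4 * π ^ 2 * w ^ 2 := by field_simp
    rw [e3, e4, e5]
    rw [F] at hFw
    linear_combination hFw

end Pool.Agent.T6.H86.DA
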